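import Mathlib
import Pool.Agent.N741.HB.Thm2
import Pool.Agent.N441.HC.H2
import Pool.Agent.N438.HC.CoreH

/-!
# The core theorem for shifted points

Sums of monomials in integers `Sh j + t j`, where the shifts `Sh j` are of exponential size.
-/

set_option autoImplicit false

namespace Pool.Agent.H8FC

open Filter MvPolynomial Pool.Agent.Y902.GN Pool.Agent.N741.HB Pool.Agent.N438.HC

section

variable {Y : ℕ → ℕ}

/-- the terms are mild -/
theorem tm_mildS (hY : ∀ m : ℕ, ∀ᶠ ν in (Uf : Filter ℕ), m ≤ Y ν) {d N n : ℕ}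
    (S : TD Y N n) {b0 : ℕ → MvPolynomial (Fin d) ℤ}
    {b : Fin N → ℕ → MvPolynomial (Option (Fin d)) ℤ} (hb0 : Mild Y b0) (hb : ∀ j, Mild Y (b j))
    (i : Fin n) : Mild Y (fun ν => C (S.u ν i) *
      mon (rename some (b0 ν)) (fun j => b j ν) (S.e ν i) (S.M ν)) := by
  have h1 : Mild Y (fun ν => rename (some : Fin d → Option (Fin d)) (b0 ν)) :=
    hb0.rename hY some
  have h2 : Few Y (fun ν => S.M ν - ∑ j, S.e ν i j) := Few.mono (g := S.M) (fun c => S.he c)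
    (Filter.Eventually.of_forall fun ν => Nat.sub_le _ _)
  have h3 : ∀ j, Few Y (fun ν => S.e ν i j) := fun j => Few.mono (g := S.M) (fun c => S.he c)
    (Filter.Eventually.of_forall fun ν => S.e_le ν i j)
  have h4 : Mild Y (fun ν => ∏ j, b j ν ^ S.e ν i j) := by
    refine Mild.prod hY Finset.univ (f := fun j ν => b j ν ^ S.e ν i j) fun j _ => ?_
    exact (hb j).pow hY (h3 j)
  have h5 : Mild Y (fun ν => (C (S.u ν i) : MvPolynomial (Option (Fin d)) ℤ)) := by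
    refine Mild.C (w := S.w) S.hw ?_
    filter_upwards [S.hu] with ν h
    exact (h i).2
  exact h5.mul hY (h4.mul hY (h1.pow hY h2))

theorem mon_deg {d N : ℕ} (b0 : MvPolynomial (Option (Fin d)) ℤ)
    (b : Fin N → MvPolynomial (Option (Fin d)) ℤ) (e : Fin N → ℕ) (M c : ℕ)
    (h0 : b0.totalDegree ≤ c) (hb : ∀ j, (b j).totalDegree ≤ c) (he : ∑ j, e j ≤ M) :
    (mon b0 b e M).totalDegree ≤ c * M := by
  unfold mon
  refine (totalDegree_mul _ _).trans ?_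
  have h1 : (∏ j, b j ^ e j).totalDegree ≤ c * ∑ j, e j := by
    refine (totalDegree_finsetProd _ _).trans ?_
    rw [Finset.mul_sum]
    refine Finset.sum_le_sum fun j _ => ?_
    refine (totalDegree_pow _ _).trans ?_
    rw [mul_comm]
    exact Nat.mul_le_mul_right _ (hb j)
  have h2 : (b0 ^ (M - ∑ j, e j)).totalDegree ≤ c * (M - ∑ j, e j) := by
    refine (totalDegree_pow _ _).trans ?_
    rw [mul_comm]
    exact Nat.mul_le_mul_right _ h0
  calc _ ≤ c * ∑ j, e j + c * (M - ∑ j, e j) := Nat.add_le_add h1 h2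
    _ = c * M := by rw [← Nat.mul_add]; congr 1; omega

end

theorem ev_sum {σ : Type} {B : ℕ} (s : σ → ℤ) (F A : MvPolynomial σ ℤ) (p : Fin (B + 1) → ℤ) :
    eval s (∑ j : Fin (B + 1), C (p j) * (F ^ (j : ℕ) * A ^ (B - j))) =
      ∑ j : Fin (B + 1), p j * (eval s F ^ (j : ℕ) * eval s A ^ (B - j)) := by
  simp only [map_sum, map_mul, map_pow, eval_C]

/-- **The core theorem for shifted points.** -/
theorem coreS {Y : ℕ → ℕ} {N n : ℕ} (hY : ∀ m : ℕ, ∀ᶠ ν in (Uf : Filter ℕ), m ≤ Y ν)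
    {Om : ℕ → Finset (Fin N → ℤ)} (hbig : Big Y Om) (hbd : Bdd Y Om) (S : TD Y N n) (hn : 0 < n)
    (Sh : ℕ → Fin N → ℤ) {ws : ℕ → ℕ} (hws : Few Y ws)
    (hSh : ∀ᶠ ν in (Uf : Filter ℕ), ∀ j, |Sh ν j| ≤ 2 ^ ws ν)
    (hy : ∀ᶠ ν in (Uf : Filter ℕ), ∀ t ∈ Om ν, ∀ j, Sh ν j + t j ≠ 0)
    (hnvs : ∀ᶠ ν in (Uf : Filter ℕ), ∀ t ∈ Om ν, ∀ J : Finset (Fin n), J.Nonempty →
      ∑ i ∈ J, S.u ν i * ∏ j, (Sh ν j + t j) ^ S.e ν i j ≠ 0)
    (r w : ℕ → ℕ) (z : ℕ → (Fin N → ℤ) → ℤ) (hr : ∀ m : ℕ, ∀ᶠ ν in (Uf : Filter ℕ), m ≤ r ν)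
    (hrF : Few Y r) (hwF : Few Y w)
    (hz : ∀ᶠ ν in (Uf : Filter ℕ), ∀ t ∈ Om ν, |z ν t| ≤ 2 ^ w ν ∧
      ∑ i, S.u ν i * ∏ j, (Sh ν j + t j) ^ S.e ν i j = z ν t ^ r ν) :
    ∃ (Om1 : ℕ → Finset (Fin N → ℤ)) (C : ℕ) (H : ℕ → (Fin N → ℤ) → ℕ),
      (∀ᶠ ν in (Uf : Filter ℕ), Om1 ν ⊆ Om ν) ∧ Big Y Om1 ∧
      (∀ᶠ ν in (Uf : Filter ℕ), (∀ a b, H ν (a + b) ≤ H ν a + H ν b) ∧
        (∀ (k : ℕ) a, H ν (k • a) = k * H ν a) ∧ (∀ a, H ν (-a) = H ν a) ∧
        (∀ j, H ν (Pi.single j 1) ≤ C) ∧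
        ∀ i i', H ν (fun j => (S.e ν i j : ℤ) - (S.e ν i' j : ℤ)) ≤ C) ∧
      (∀ a : ℕ → Fin N → ℤ, (∀ᶠ ν in (Uf : Filter ℕ), H ν (a ν) = 0) →
        ∀ Om₂ : ℕ → Finset (Fin N → ℤ), (∀ᶠ ν in (Uf : Filter ℕ), Om₂ ν ⊆ Om1 ν) → Big Y Om₂ →
        ∃ Om₃ : ℕ → Finset (Fin N → ℤ), (∀ᶠ ν in (Uf : Filter ℕ), Om₃ ν ⊆ Om₂ ν) ∧ Big Y Om₃ ∧
          ∀ᶠ ν in (Uf : Filter ℕ), ∀ t ∈ Om₃ ν, ∀ t' ∈ Om₃ ν,
            ∏ j, ((Sh ν j + t j : ℤ) : ℚ) ^ a ν j = ∏ j, ((Sh ν j + t' j : ℤ) : ℚ) ^ a ν j) ∧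
      ((∃ D : ℕ, ∀ᶠ ν in (Uf : Filter ℕ), S.M ν ≤ D) →
        ∃ Om₃ : ℕ → Finset (Fin N → ℤ), (∀ᶠ ν in (Uf : Filter ℕ), Om₃ ν ⊆ Om1 ν) ∧ Big Y Om₃ ∧
          ∀ᶠ ν in (Uf : Filter ℕ), ∀ t ∈ Om₃ ν, ∀ t' ∈ Om₃ ν, z ν t ^ r ν = z ν t' ^ r ν) := by
  classical
  obtain ⟨Om1, hO1, hG1⟩ := Gen.ex hbig
  have hbd1 : Bdd Y Om1 := by
    filter_upwards [hbd, hO1] with ν a b t ht
    exact a t (b ht)
  have hB1 : Big Y Om1 := hG1.1
  obtain ⟨G⟩ := N459.HB.gd Y N Om1 hY hG1 hbd1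
  have hIrr := irr Y N Om1 hY hB1 hbd1 G
  -- the polynomials
  obtain ⟨Bj, hBj⟩ : ∃ f : Fin N → ℕ → MvPolynomial (Option (Fin G.d)) ℤ,
    f = fun j ν => C (Sh ν j) * rename some (G.b0 ν) + G.b j ν := ⟨_, rfl⟩
  have hb0M : Mild Y G.b0 := PB.mild hY G.b0PB
  have hBM : ∀ j, Mild Y (Bj j) := fun j => by
    rw [hBj]
    refine ((Mild.C (σ := Option (Fin G.d)) hws ?_).mul hY (hb0M.rename hY some)).add hY
      (PB.mild hY (G.bPB j))
    filter_upwards [hSh] with ν h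
    exact h j
  -- the values
  have hpt : ∀ᶠ ν in (Uf : Filter ℕ), ∀ t ∈ Om1 ν, ∀ j : Fin N,
      eval (G.sp ν t) (rename some (G.b0 ν)) * (Sh ν j + t j) = eval (G.sp ν t) (Bj j ν) := by
    filter_upwards [G.ev_b] with ν h t ht j
    have h1 := h t ht j
    rw [hBj]
    simp only [map_add, map_mul, eval_C]
    rw [mul_add, G.eval_b0, h1]
    unfold GD.sp
    ring
  have hval : ∀ᶠ ν in (Uf : Filter ℕ), ∀ t ∈ Om1 ν, ∀ J : Finset (Fin n),
      eval (G.sp ν t) (∑ i ∈ J, C (S.u ν i) *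
        mon (rename some (G.b0 ν)) (fun j => Bj j ν) (S.e ν i) (S.M ν)) =
      eval (G.sp ν t) (rename some (G.b0 ν)) ^ S.M ν *
        ∑ i ∈ J, S.u ν i * ∏ j, (Sh ν j + t j) ^ S.e ν i j := by
    filter_upwards [hpt] with ν h t ht J
    rw [map_sum, Finset.mul_sum]
    refine Finset.sum_congr rfl fun i _ => ?_
    rw [map_mul, eval_C, map_mon (eval (G.sp ν t)) (h t ht) (S.le_M ν i)]
    ring
  -- the relation in the function field
  set F : ℕ → MvPolynomial (Option (Fin G.d)) ℤ := fun ν => ∑ i, C (S.u ν i) *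
      mon (rename some (G.b0 ν)) (fun j => Bj j ν) (S.e ν i) (S.M ν) with hF
  set A : ℕ → MvPolynomial (Option (Fin G.d)) ℤ := fun ν => rename some (G.b0 ν) ^ S.M ν with hA
  have hFm : Mild Y F :=
    Mild.sum hY Finset.univ (f := fun i ν => C (S.u ν i) *
      mon (rename some (G.b0 ν)) (fun j => Bj j ν) (S.e ν i) (S.M ν))
      fun i _ => tm_mildS hY S hb0M hBM i
  have hAm : Mild Y A := (hb0M.rename hY some).pow hY (fun c => S.he c)
  have hAs : ¬ Big Y (fun ν => (Om1 ν).filter fun t => eval (G.sp ν t) (A ν) = 0) := by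
    intro hcon
    refine G.small G.b0 G.b0PB G.b0ne (hcon.mono (Filter.Eventually.of_forall fun ν t ht => ?_))
    obtain ⟨ht1, ht2⟩ := Finset.mem_filter.1 ht
    refine Finset.mem_filter.2 ⟨ht1, ?_⟩
    rw [hA] at ht2
    simp only [map_pow, G.eval_b0] at ht2
    exact pow_eq_zero_iff (n := S.M ν) (by
      intro h0
      rw [h0, pow_zero] at ht2
      exact one_ne_zero ht2) |>.1 ht2
  have huniv : (Finset.univ : Finset (Fin n)).Nonempty := ⟨⟨0, hn⟩, Finset.mem_univ _⟩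
  have hzz : ∀ᶠ ν in (Uf : Filter ℕ), ∀ t ∈ Om1 ν, z ν t ≠ 0 ∧ |z ν t| ≤ 2 ^ w ν ∧
      eval (G.sp ν t) (A ν) * z ν t ^ r ν = eval (G.sp ν t) (F ν) := by
    filter_upwards [hz, hO1, hnvs, hr 1, hval] with ν h1 h2 h3 h4 h5 t ht
    have h6 := h1 t (h2 ht)
    refine ⟨?_, h6.1, ?_⟩
    · intro h0
      have h7 := h3 t (h2 ht) Finset.univ huniv
      rw [h6.2, h0, zero_pow (by omega)] at h7
      exact h7 rfl
    · rw [hA, hF]
      simp only [map_pow]
      rw [h5 t ht Finset.univ, h6.2]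
  obtain ⟨K, hK⟩ := N26.HB.rel N27.HB.det starL root irr N572.HB.van Y N Om1 hY hB1 hbd1 G A F
    hAm hFm hAs r w z hr hrF hwF hzz
  -- bounds for the degrees
  obtain ⟨c1, hc1⟩ := G.hPB
  obtain ⟨c2, hc2⟩ := G.b0PB
  have hc3 : ∃ c3, ∀ᶠ ν in (Uf : Filter ℕ), ∀ j, (G.b j ν).totalDegree ≤ c3 := by
    choose c hc using fun j => G.bPB j
    refine ⟨∑ j, c j, ?_⟩
    filter_upwards [Filter.eventually_all.2 hc] with ν h j
    exact (h j).1.trans (Finset.single_le_sum (f := c) (fun _ _ => Nat.zero_le _)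
      (Finset.mem_univ j))
  obtain ⟨c3, hc3⟩ := hc3
  have hBd : ∀ᶠ ν in (Uf : Filter ℕ), ∀ j, (Bj j ν).totalDegree ≤ c1 + c2 + c3 := by
    filter_upwards [hc2, hc3] with ν g1 g2 j
    rw [hBj]
    refine (totalDegree_add _ _).trans (max_le ?_ ((g2 j).trans (by omega)))
    refine (totalDegree_mul _ _).trans ?_
    rw [totalDegree_C, zero_add]
    exact (totalDegree_rename_le _ _).trans (g1.1.trans (by omega))
  obtain ⟨R₀, B, hRB⟩ := hts (N441.HC.algH (N618.HB.dir N966.HB.can)) G.d N (c1 + c2 + c3) n K 1 le_rfl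
  obtain ⟨Om2, hO2, hB2, hgood⟩ := G.good hY N572.HB.van
    (Filter.Eventually.of_forall fun _ => subset_rfl) hB1
  -- consequences of the relation at points
  have hne1 : ∀ᶠ ν in (Uf : Filter ℕ), (∀ j, ¬ InP (G.h ν) (Bj j ν)) ∧
      ∀ J : Finset (Fin n), J.Nonempty → ¬ InP (G.h ν) (∑ i ∈ J, C (S.u ν i) *
        mon (rename some (G.b0 ν)) (fun j => Bj j ν) (S.e ν i) (S.M ν)) := by
    filter_upwards [hgood, hB2.nonempty, hO2, hO1, hnvs, hval, hpt, hy] with ν g7 g8 g9 g10 g11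
      g13 g14 g16
    obtain ⟨t, ht⟩ := g8
    have ht1 : t ∈ Om1 ν := g9 ht
    obtain ⟨hb0, hgd⟩ := g7 t ht
    have hb0' : eval (G.sp ν t) (rename some (G.b0 ν)) ≠ 0 := by
      rw [G.eval_b0]
      exact hb0
    refine ⟨fun j hcon => ?_, fun J hJ hcon => ?_⟩
    · have e1 := hgd _ hcon
      have e2 := g14 t ht1 j
      rw [e1] at e2
      rcases mul_eq_zero.1 e2 with e4 | e4
      · exact hb0' e4
      · exact g16 t (g10 ht1) j e4
    · have e1 := hgd _ hcon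
      rw [g13 t ht1 J] at e1
      rcases mul_eq_zero.1 e1 with e3 | e3
      · exact pow_ne_zero _ hb0' e3
      · exact g11 t (g10 ht1) J hJ e3
  have key : ∀ᶠ ν in (Uf : Filter ℕ), ∃ H : (Fin N → ℤ) → ℕ,
      (∀ a b, H (a + b) ≤ H a + H b) ∧ (∀ (k : ℕ) a, H (k • a) = k * H a) ∧
      (∀ a, H (-a) = H a) ∧ (∀ j, H (Pi.single j 1) ≤ B) ∧
      (∀ i i', H (fun j => (S.e ν i j : ℤ) - (S.e ν i' j : ℤ)) ≤ B) ∧
      ∀ a, H a = 0 → ∃ p : Polynomial ℤ, p ≠ 0 ∧ p.natDegree ≤ B ∧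
        InP (G.h ν) (Pn (rename some (G.b0 ν)) (fun j => Bj j ν) a p) := by
    filter_upwards [hK, hIrr, hc1, hc2, hBd, G.b0ne, hne1, hr R₀, S.hu] with ν g1 g2 g3 g4 g5 g6
      g7 g12 g15
    obtain ⟨κ', hκ1, hκ2, g₁, g₂, hg1, hg2, hg3⟩ := g1
    refine hRB (G.h ν) (G.b0 ν) (fun j => Bj j ν) g2 (g3.1.trans (by omega)) g6
      (g4.1.trans (by omega)) (fun j => ⟨g5 j, g7.1 j⟩) (S.e ν)
      (S.u ν) (S.M ν) (fun i => ⟨(g15 i).1, S.le_M ν i⟩) (fun J hJ hcon => g7.2 J hJ hcon)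
      κ' (r ν) g₁ g₂ hκ1 hκ2 g12 hg1 hg2 ?_
    rw [pow_one, pow_one]
    exact hg3
  obtain ⟨H, hH⟩ := key.choice
  refine ⟨Om1, B, H, hO1, hB1, ?_, ?_, ?_⟩
  · filter_upwards [hH] with ν h
    exact ⟨h.1, h.2.1, h.2.2.1, h.2.2.2.1, h.2.2.2.2.1⟩
  · intro a ha Om₂ hO₂ hB₂
    obtain ⟨Om₃, hO₃, hB₃, hgood₃⟩ := G.good hY N572.HB.van hO₂ hB₂
    have hp : ∀ᶠ ν in (Uf : Filter ℕ), ∃ p : Polynomial ℤ, p ≠ 0 ∧ p.natDegree ≤ B ∧
        InP (G.h ν) (Pn (rename some (G.b0 ν)) (fun j => Bj j ν) (a ν) p) := by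
      filter_upwards [hH, ha] with ν h h'
      exact h.2.2.2.2.2 _ h'
    obtain ⟨p, hp⟩ := hp.choice
    obtain ⟨Om₄, h7, h8, h9⟩ := hB₃.fiber
      (fun ν t => ∏ j, ((Sh ν j + t j : ℤ) : ℚ) ^ (a ν j))
      (fun ν => ((p ν).map (Int.castRingHom ℚ)).roots.toFinset) (by
        filter_upwards [hp, hgood₃, hpt, hO₃, hO₂, hO1, hy] with ν g1 g2 g3 g4 g5 g6 g7 t ht
        have ht1 : t ∈ Om1 ν := g5 (g4 ht)
        obtain ⟨hb0, hgd⟩ := g2 t ht
        have hb0' : eval (G.sp ν t) (rename some (G.b0 ν)) ≠ 0 := by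
          rw [G.eval_b0]
          exact hb0
        set f : MvPolynomial (Option (Fin G.d)) ℤ →+* ℚ :=
          (Int.castRingHom ℚ).comp (eval (G.sp ν t)) with hf
        have hfe : ∀ q, f q = ((eval (G.sp ν t) q : ℤ) : ℚ) := fun q => rfl
        have hb0Q : f (rename some (G.b0 ν)) ≠ 0 := by
          rw [hfe]
          exact_mod_cast hb0'
        have hytQ : ∀ j, ((Sh ν j + t j : ℤ) : ℚ) ≠ 0 := fun j => by
          exact_mod_cast g7 t (g6 ht1) j
        have hrelQ : ∀ j, f (rename some (G.b0 ν)) * ((Sh ν j + t j : ℤ) : ℚ) = f (Bj j ν) :=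
          fun j => by
            rw [hfe, hfe, ← g3 t ht1 j]
            push_cast
            ring
        have e1 : f (Pn (rename some (G.b0 ν)) (fun j => Bj j ν) (a ν) (p ν)) = 0 := by
          rw [hfe, hgd _ g1.2.2, Int.cast_zero]
        rw [map_Pn f hrelQ hb0Q hytQ] at e1
        rw [Multiset.mem_toFinset, Polynomial.mem_roots
          ((Polynomial.map_ne_zero_iff (RingHom.injective_int _)).2 g1.1), Polynomial.IsRoot.def,
          Polynomial.eval_map]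
        rcases mul_eq_zero.1 e1 with e2 | e2
        · exact absurd e2 (pow_ne_zero _ (Nm_ratio f hrelQ hb0Q hytQ (a ν)).1)
        · exact e2) (by
        refine Few.mono (Few.const hY B) ?_
        filter_upwards [hp] with ν g1
        refine (Multiset.toFinset_card_le _).trans ((Polynomial.card_roots' _).trans ?_)
        exact (Polynomial.natDegree_map_le).trans g1.2.1)
    refine ⟨Om₄, ?_, h8, h9⟩
    filter_upwards [h7, hO₃] with ν a b
    exact a.trans b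
  · rintro ⟨D, hD⟩
    obtain ⟨R₁, B₁, hRB₁⟩ := N426.HB.const G.d ((c1 + c2 + c3) * (D + 1)) K
    have hp : ∀ᶠ ν in (Uf : Filter ℕ), ∃ p : Fin (B₁ + 1) → ℤ, p ≠ 0 ∧
        InP (G.h ν) (∑ j : Fin (B₁ + 1), C (p j) * (F ν ^ (j : ℕ) * A ν ^ (B₁ - j))) := by
      filter_upwards [hK, hIrr, hc1, hc2, hBd, G.b0ne, hne1, hr R₁, hD] with ν g1 g2 g3 g4 g5
        g6 g7 g12 g15
      obtain ⟨κ', hκ1, hκ2, g₁, g₂, hg1, hg2, hg3⟩ := g1
      have hb0d : (rename (some : Fin G.d → Option (Fin G.d)) (G.b0 ν)).totalDegree ≤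
          c1 + c2 + c3 := (totalDegree_rename_le _ _).trans (g4.1.trans (by omega))
      refine hRB₁ (G.h ν) g2 ?_ 1 (A ν) (F ν) le_rfl ?_ ?_ ?_ ?_ κ' (r ν) g₁ g₂ hκ1 hκ2 ?_ hg1 hg2
        hg3
      · refine g3.1.trans ?_
        calc c1 ≤ (c1 + c2 + c3) * 1 := by omega
          _ ≤ (c1 + c2 + c3) * (D + 1) := Nat.mul_le_mul_left _ (by omega)
      · rw [mul_one, hA]
        refine (totalDegree_pow _ _).trans ?_
        rw [mul_comm]
        exact Nat.mul_le_mul hb0d (by omega)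
      · rw [mul_one, hF]
        refine totalDegree_finsetSum_le fun i _ => ?_
        refine (totalDegree_mul _ _).trans ?_
        rw [totalDegree_C, zero_add]
        refine (mon_deg _ _ _ _ (c1 + c2 + c3) hb0d g5 (S.le_M ν i)).trans ?_
        exact Nat.mul_le_mul_left _ (by omega)
      · intro hcon
        exact g2.one (InP_one g6 (Irr_pow g2 hcon))
      · exact g7.2 Finset.univ huniv
      · rw [mul_one]; exact g12
    obtain ⟨p, hp⟩ := hp.choice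
    obtain ⟨Om₄, h7, h8, h9⟩ := hB2.fiber
      (fun ν t => ((z ν t ^ r ν : ℤ) : ℚ))
      (fun ν => (∑ j : Fin (B₁ + 1), Polynomial.C ((p ν j : ℤ) : ℚ) *
        Polynomial.X ^ (j : ℕ)).roots.toFinset) (by
        filter_upwards [hp, hgood, hzz, hO2] with ν g1 g2 g3 g4 t ht
        have ht1 : t ∈ Om1 ν := g4 ht
        obtain ⟨hb0, hgd⟩ := g2 t ht
        have hA0 : eval (G.sp ν t) (A ν) ≠ 0 := by
          rw [hA]
          simp only [map_pow, G.eval_b0]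
          exact pow_ne_zero _ hb0
        have e1 := hgd _ g1.2
        change eval (G.sp ν t) _ = 0 at e1
        rw [ev_sum, ← (g3 t ht1).2.2] at e1
        have e2 : eval (G.sp ν t) (A ν) ^ B₁ * ∑ j : Fin (B₁ + 1), p ν j *
            (z ν t ^ r ν) ^ (j : ℕ) = 0 := by
          rw [← e1]
          generalize eval (G.sp ν t) (A ν) = x
          rw [Finset.mul_sum]
          refine Finset.sum_congr rfl fun j _ => ?_
          have e3 : x ^ B₁ = x ^ (j : ℕ) * x ^ (B₁ - j) := by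
            rw [← pow_add]
            congr 1
            have := j.2
            omega
          rw [e3, mul_pow]
          ring
        have e4 := (mul_eq_zero.1 e2).resolve_left (pow_ne_zero _ hA0)
        have hne : (∑ j : Fin (B₁ + 1), Polynomial.C ((p ν j : ℤ) : ℚ) *
            Polynomial.X ^ (j : ℕ)) ≠ 0 := by
          intro h0
          apply g1.1
          funext j
          have h1 := congrArg (fun q => Polynomial.coeff q (j : ℕ)) h0
          simp only [Polynomial.finsetSum_coeff, Polynomial.coeff_C_mul, Polynomial.coeff_X_pow,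
            Polynomial.coeff_zero] at h1
          rw [Finset.sum_eq_single j] at h1
          · simpa using h1
          · intro j' _ hj'
            rw [if_neg (fun h => hj' (Fin.ext h.symm)), mul_zero]
          · intro h; exact absurd (Finset.mem_univ _) h
        rw [Multiset.mem_toFinset, Polynomial.mem_roots hne, Polynomial.IsRoot.def,
          Polynomial.eval_finsetSum]
        simp only [Polynomial.eval_mul, Polynomial.eval_C, Polynomial.eval_pow, Polynomial.eval_X]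
        exact_mod_cast e4) (by
        refine Few.mono (Few.const hY B₁) (Filter.Eventually.of_forall fun ν => ?_)
        refine (Multiset.toFinset_card_le _).trans ((Polynomial.card_roots' _).trans ?_)
        refine Polynomial.natDegree_sum_le_of_forall_le _ _ fun j _ => ?_
        refine (Polynomial.natDegree_C_mul_X_pow_le _ _).trans ?_
        have := j.2
        omega)
    refine ⟨Om₄, ?_, h8, ?_⟩
    · filter_upwards [h7, hO2] with ν a b
      exact a.trans b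
    · filter_upwards [h9] with ν h t ht t' ht'
      exact_mod_cast h t ht t' ht'

end Pool.Agent.H8FC
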