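import Mathlib

/-!
# Few points of `α a ^ x + β b ^ y = n` in a short box far from the axes
-/

set_option autoImplicit false

namespace Pool.Agent.H8FC

open Finset

/-- the quotient `(a ^ x - a' ^ x) / (a - a')` -/
def gs (x : ℕ) (a a' : ℝ) : ℝ := ∑ i ∈ range x, a ^ i * a' ^ (x - 1 - i)

theorem gs_mul (x : ℕ) (a a' : ℝ) : gs x a a' * (a - a') = a ^ x - a' ^ x :=
  (Commute.all a a').geom_sum₂_mul x

theorem gs_lower {x : ℕ} {M a a' : ℝ} (hM : 0 ≤ M) (ha : M ≤ a) (ha' : M ≤ a') :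
    x * M ^ (x - 1) ≤ gs x a a' := by
  unfold gs
  have h : ∀ i ∈ range x, M ^ (x - 1) ≤ a ^ i * a' ^ (x - 1 - i) := by
    intro i hi
    have hi' := Finset.mem_range.1 hi
    have ha0 : 0 ≤ a := hM.trans ha
    have ha0' : 0 ≤ a' := hM.trans ha'
    calc M ^ (x - 1) = M ^ i * M ^ (x - 1 - i) := by
          rw [← pow_add]; congr 1; omega
      _ ≤ a ^ i * a' ^ (x - 1 - i) := mul_le_mul (pow_le_pow_left₀ hM ha _)
          (pow_le_pow_left₀ hM ha' _) (by positivity) (by positivity)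
  have := Finset.card_nsmul_le_sum (range x) _ _ h
  simpa using this

theorem gs_upper {x : ℕ} {U a a' : ℝ} (h0 : 0 ≤ a) (h0' : 0 ≤ a') (ha : a ≤ U) (ha' : a' ≤ U) :
    gs x a a' ≤ x * U ^ (x - 1) := by
  unfold gs
  have h : ∀ i ∈ range x, a ^ i * a' ^ (x - 1 - i) ≤ U ^ (x - 1) := by
    intro i hi
    have hi' := Finset.mem_range.1 hi
    have hU : 0 ≤ U := h0.trans ha
    calc a ^ i * a' ^ (x - 1 - i) ≤ U ^ i * U ^ (x - 1 - i) :=
          mul_le_mul (pow_le_pow_left₀ h0 ha _) (pow_le_pow_left₀ h0' ha' _) (by positivity)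
            (by positivity)
      _ = U ^ (x - 1) := by rw [← pow_add]; congr 1; omega
  have := Finset.sum_le_card_nsmul (range x) _ _ h
  simpa using this

/-- the quotients differ little -/
theorem gs_close {x m : ℕ} {M N a a' a'' a''' : ℝ} (hx : 1 ≤ x) (hxm : x ≤ m) (hN : 1 ≤ N)
    (hM : 4 * m * N ^ 3 ≤ M) (h1 : M ≤ a ∧ a ≤ M + N) (h2 : M ≤ a' ∧ a' ≤ M + N)
    (h3 : M ≤ a'' ∧ a'' ≤ M + N) (h4 : M ≤ a''' ∧ a''' ≤ M + N) :
    (1 - 1 / (4 * N ^ 2)) * gs x a a' ≤ gs x a'' a''' := by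
  have hm : (1 : ℝ) ≤ m := by exact_mod_cast hx.trans hxm
  have hM0 : 0 < M := lt_of_lt_of_le (by positivity) hM
  have e1 : gs x a a' ≤ x * (M + N) ^ (x - 1) :=
    gs_upper (by linarith [h1.1]) (by linarith [h2.1]) h1.2 h2.2
  have e2 : x * M ^ (x - 1) ≤ gs x a'' a''' := gs_lower hM0.le h3.1 h4.1
  -- Bernoulli
  have e3 : (1 - 1 / (4 * N ^ 2)) * (M + N) ^ (x - 1) ≤ M ^ (x - 1) := by
    have hMN : 0 < M + N := by linarith
    have hb := one_add_mul_le_pow (a := -(N / (M + N))) (by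
      have : N / (M + N) ≤ 1 := by rw [div_le_one hMN]; linarith
      linarith) (x - 1)
    have e4 : 1 + -(N / (M + N)) = M / (M + N) := by field_simp; ring
    rw [e4, div_pow, le_div_iff₀ (by positivity)] at hb
    refine le_trans ?_ hb
    apply mul_le_mul_of_nonneg_right _ (by positivity)
    have e5 : ((x - 1 : ℕ) : ℝ) * (N / (M + N)) ≤ 1 / (4 * N ^ 2) := by
      have e6 : ((x - 1 : ℕ) : ℝ) ≤ m := by
        exact_mod_cast (Nat.sub_le x 1).trans hxm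
      calc ((x - 1 : ℕ) : ℝ) * (N / (M + N)) ≤ m * (N / (M + N)) := by gcongr
        _ ≤ m * (N / (4 * m * N ^ 3)) := by
            gcongr
            linarith
        _ = 1 / (4 * N ^ 2) := by field_simp
    linarith
  have hη : 0 ≤ 1 - 1 / (4 * N ^ 2) := by
    have : 1 / (4 * N ^ 2) ≤ 1 := by
      rw [div_le_one (by positivity)]
      nlinarith
    linarith
  have hx0 : (0 : ℝ) ≤ x := Nat.cast_nonneg _
  calc (1 - 1 / (4 * N ^ 2)) * gs x a a' ≤ (1 - 1 / (4 * N ^ 2)) * (x * (M + N) ^ (x - 1)) := by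
        gcongr
    _ = x * ((1 - 1 / (4 * N ^ 2)) * (M + N) ^ (x - 1)) := by ring
    _ ≤ x * M ^ (x - 1) := by gcongr
    _ ≤ _ := e2

/-- the arithmetic of the collinearity -/
theorem eq_of_close {N : ℝ} (hN : 1 ≤ N) {p q : ℤ} (hp : |(p : ℝ)| ≤ N ^ 2)
    {A A' B B' : ℝ} (hA : 0 < A) (hA' : 0 < A') (hB : 0 < B) (hB' : 0 < B')
    (h1 : (1 - 1 / (4 * N ^ 2)) * A' ≤ A) (h2 : (1 - 1 / (4 * N ^ 2)) * B' ≤ B)
    (e : (p : ℝ) * (A * B) = q * (A' * B')) : |p| ≤ |q| := by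
  by_contra hcon
  push Not at hcon
  have h3 : |(q : ℝ)| + 1 ≤ |(p : ℝ)| := by
    have : |q| + 1 ≤ |p| := hcon
    exact_mod_cast this
  have e1 : |(p : ℝ)| * (A * B) = |(q : ℝ)| * (A' * B') := by
    have h5 : |(p : ℝ) * (A * B)| = |(q : ℝ) * (A' * B')| := congrArg abs e
    rw [abs_mul (p : ℝ) (A * B), abs_mul (q : ℝ) (A' * B'), abs_of_pos (mul_pos hA hB),
      abs_of_pos (mul_pos hA' hB')] at h5
    exact h5
  set η : ℝ := 1 / (4 * N ^ 2) with hη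
  have hη0 : 0 < η := by positivity
  have hη1 : η ≤ 1 / 4 := by
    rw [hη]
    apply one_div_le_one_div_of_le (by norm_num)
    nlinarith
  have hpη : |(p : ℝ)| * (2 * η) ≤ 1 / 2 := by
    calc |(p : ℝ)| * (2 * η) ≤ N ^ 2 * (2 * η) := by gcongr
      _ = 1 / 2 := by rw [hη]; field_simp; norm_num
  have e2 : (1 - η) ^ 2 * (A' * B') ≤ A * B := by
    calc (1 - η) ^ 2 * (A' * B') = ((1 - η) * A') * ((1 - η) * B') := by ring
      _ ≤ A * B := mul_le_mul h1 h2 (mul_nonneg (by linarith) hB'.le) hA.le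
  have e3 : |(p : ℝ)| * (1 - η) ^ 2 ≤ |(q : ℝ)| := by
    have h5 : |(p : ℝ)| * ((1 - η) ^ 2 * (A' * B')) ≤ |(q : ℝ)| * (A' * B') := by
      rw [← e1]
      gcongr
    have h6 : 0 < A' * B' := mul_pos hA' hB'
    rw [← mul_assoc] at h5
    exact le_of_mul_le_mul_right h5 h6
  have hp0 : 0 ≤ |(p : ℝ)| := abs_nonneg _
  nlinarith [sq_nonneg η, mul_nonneg hp0 (sq_nonneg η)]

/-- **Few points far from the axes.** -/
theorem far {x y m N M₁ M₂ : ℕ} (hx : 2 ≤ x) (hy : 2 ≤ y) (hxm : x ≤ m) (hym : y ≤ m) (hN : 1 ≤ N)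
    (hM₁ : 4 * m * N ^ 3 ≤ M₁) (hM₂ : 4 * m * N ^ 3 ≤ M₂) {α β n : ℤ} (hα : α ≠ 0) (hβ : β ≠ 0)
    (hn : n ≠ 0) (S : Finset (ℕ × ℕ)) (hS : ∀ p ∈ S, (M₁ < p.1 ∧ p.1 ≤ M₁ + N) ∧
      (M₂ < p.2 ∧ p.2 ≤ M₂ + N) ∧ α * (p.1 : ℤ) ^ x + β * (p.2 : ℤ) ^ y = n) : S.card ≤ m := by
  classical
  rcases Nat.lt_or_ge 1 S.card with hc | hc
  swap
  · omega
  obtain ⟨p0, h0, p1, h1, hne⟩ := Finset.one_lt_card.1 hc
  -- the coordinates determine each other
  have inj1 : ∀ p ∈ S, ∀ q ∈ S, p.1 = q.1 → p = q := by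
    intro p hp q hq h
    have e1 := (hS p hp).2.2
    have e2 := (hS q hq).2.2
    rw [h] at e1
    have e3 : β * (p.2 : ℤ) ^ y = β * (q.2 : ℤ) ^ y := by linarith
    have e4 := mul_left_cancel₀ hβ e3
    have e5 : p.2 ^ y = q.2 ^ y := by exact_mod_cast e4
    exact Prod.ext h (Nat.pow_left_injective (by omega : y ≠ 0) e5)
  have inj2 : ∀ p ∈ S, ∀ q ∈ S, p.2 = q.2 → p = q := by
    intro p hp q hq h
    have e1 := (hS p hp).2.2
    have e2 := (hS q hq).2.2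
    rw [h] at e1
    have e3 : α * (p.1 : ℤ) ^ x = α * (q.1 : ℤ) ^ x := by linarith
    have e4 := mul_left_cancel₀ hα e3
    have e5 : p.1 ^ x = q.1 ^ x := by exact_mod_cast e4
    exact Prod.ext (Nat.pow_left_injective (by omega : x ≠ 0) e5) h
  have hN' : (1 : ℝ) ≤ N := by exact_mod_cast hN
  have hM1' : (4 * m * N ^ 3 : ℝ) ≤ M₁ := by exact_mod_cast hM₁
  have hM2' : (4 * m * N ^ 3 : ℝ) ≤ M₂ := by exact_mod_cast hM₂
  have hm0 : (0 : ℝ) < m := by
    have : 0 < m := by omega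
    exact_mod_cast this
  have hM10 : (0 : ℝ) < M₁ := lt_of_lt_of_le (by positivity) hM1'
  have hM20 : (0 : ℝ) < M₂ := lt_of_lt_of_le (by positivity) hM2'
  have bd1 : ∀ p ∈ S, (M₁ : ℝ) ≤ p.1 ∧ (p.1 : ℝ) ≤ M₁ + N := fun p hp =>
    ⟨by exact_mod_cast (hS p hp).1.1.le, by exact_mod_cast (hS p hp).1.2⟩
  have bd2 : ∀ p ∈ S, (M₂ : ℝ) ≤ p.2 ∧ (p.2 : ℝ) ≤ M₂ + N := fun p hp =>
    ⟨by exact_mod_cast (hS p hp).2.1.1.le, by exact_mod_cast (hS p hp).2.1.2⟩
  have gp1 : ∀ p ∈ S, ∀ q ∈ S, 0 < gs x (p.1 : ℝ) q.1 := fun p hp q hq =>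
    lt_of_lt_of_le (mul_pos (by exact_mod_cast (by omega : 0 < x)) (by positivity))
      (gs_lower hM10.le (bd1 p hp).1 (bd1 q hq).1)
  have gp2 : ∀ p ∈ S, ∀ q ∈ S, 0 < gs y (p.2 : ℝ) q.2 := fun p hp q hq =>
    lt_of_lt_of_le (mul_pos (by exact_mod_cast (by omega : 0 < y)) (by positivity))
      (gs_lower hM20.le (bd2 p hp).1 (bd2 q hq).1)
  -- the relation of two points
  have rel : ∀ p ∈ S, (α : ℝ) * (gs x (p.1 : ℝ) p0.1 * (p.1 - p0.1)) =
      -(β * (gs y (p.2 : ℝ) p0.2 * (p.2 - p0.2))) := by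
    intro p hp
    rw [gs_mul, gs_mul]
    have e1 : (α : ℝ) * (p.1 : ℝ) ^ x + β * (p.2 : ℝ) ^ y = n := by exact_mod_cast (hS p hp).2.2
    have e2 : (α : ℝ) * (p0.1 : ℝ) ^ x + β * (p0.2 : ℝ) ^ y = n := by exact_mod_cast (hS p0 h0).2.2
    linarith
  have small : ∀ p ∈ S, ∀ q ∈ S, |((((p.1 : ℤ) - p0.1) * ((q.2 : ℤ) - p0.2) : ℤ) : ℝ)| ≤
      (N : ℝ) ^ 2 := by
    intro p hp q hq
    have k1 := (hS p hp).1
    have k2 := (hS p0 h0).1
    have k3 := (hS q hq).2.1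
    have k4 := (hS p0 h0).2.1
    have e1 : |(p.1 : ℤ) - p0.1| ≤ N := by rw [abs_le]; constructor <;> omega
    have e2 : |(q.2 : ℤ) - p0.2| ≤ N := by rw [abs_le]; constructor <;> omega
    have e3 : |((p.1 : ℤ) - p0.1) * ((q.2 : ℤ) - p0.2)| ≤ (N : ℤ) * N := by
      rw [abs_mul]
      exact mul_le_mul e1 e2 (abs_nonneg _) (by positivity)
    have e4 : |((((p.1 : ℤ) - p0.1) * ((q.2 : ℤ) - p0.2) : ℤ) : ℝ)| ≤ (N : ℝ) * N := by
      exact_mod_cast e3
    rw [pow_two]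
    exact e4
  -- collinearity
  have col : ∀ p ∈ S, ((p1.1 : ℤ) - p0.1) * ((p.2 : ℤ) - p0.2) =
      ((p.1 : ℤ) - p0.1) * ((p1.2 : ℤ) - p0.2) := by
    intro p hp
    set P : ℤ := ((p1.1 : ℤ) - p0.1) * ((p.2 : ℤ) - p0.2) with hP
    set Q : ℤ := ((p.1 : ℤ) - p0.1) * ((p1.2 : ℤ) - p0.2) with hQ
    have r1 := rel p1 h1
    have r2 := rel p hp
    have hαβ : (α : ℝ) * β ≠ 0 := mul_ne_zero (by exact_mod_cast hα) (by exact_mod_cast hβ)
    have e : (P : ℝ) * (gs x (p1.1 : ℝ) p0.1 * gs y (p.2 : ℝ) p0.2) =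
        Q * (gs x (p.1 : ℝ) p0.1 * gs y (p1.2 : ℝ) p0.2) := by
      apply mul_left_cancel₀ hαβ
      rw [hP, hQ]
      push_cast
      calc (α : ℝ) * β * (((p1.1 : ℝ) - p0.1) * ((p.2 : ℝ) - p0.2) *
            (gs x (p1.1 : ℝ) p0.1 * gs y (p.2 : ℝ) p0.2))
          = (α * (gs x (p1.1 : ℝ) p0.1 * (p1.1 - p0.1))) *
            (β * (gs y (p.2 : ℝ) p0.2 * (p.2 - p0.2))) := by ring
        _ = (-(β * (gs y (p1.2 : ℝ) p0.2 * (p1.2 - p0.2)))) *
            (β * (gs y (p.2 : ℝ) p0.2 * (p.2 - p0.2))) := by rw [r1]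
        _ = (β * (gs y (p1.2 : ℝ) p0.2 * (p1.2 - p0.2))) *
            (-(β * (gs y (p.2 : ℝ) p0.2 * (p.2 - p0.2)))) := by ring
        _ = (β * (gs y (p1.2 : ℝ) p0.2 * (p1.2 - p0.2))) *
            (α * (gs x (p.1 : ℝ) p0.1 * (p.1 - p0.1))) := by rw [r2]
        _ = _ := by ring
    have c1 : |P| ≤ |Q| := by
      refine eq_of_close hN' (small p1 h1 p hp) (gp1 p1 h1 p0 h0) (gp1 p hp p0 h0)
        (gp2 p hp p0 h0) (gp2 p1 h1 p0 h0) ?_ ?_ e
      · exact gs_close (by omega) hxm hN' hM1' (bd1 p hp) (bd1 p0 h0) (bd1 p1 h1) (bd1 p0 h0)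
      · exact gs_close (by omega) hym hN' hM2' (bd2 p1 h1) (bd2 p0 h0) (bd2 p hp) (bd2 p0 h0)
    have c2 : |Q| ≤ |P| := by
      refine eq_of_close hN' (small p hp p1 h1) (gp1 p hp p0 h0) (gp1 p1 h1 p0 h0)
        (gp2 p1 h1 p0 h0) (gp2 p hp p0 h0) ?_ ?_ e.symm
      · exact gs_close (by omega) hxm hN' hM1' (bd1 p1 h1) (bd1 p0 h0) (bd1 p hp) (bd1 p0 h0)
      · exact gs_close (by omega) hym hN' hM2' (bd2 p hp) (bd2 p0 h0) (bd2 p1 h1) (bd2 p0 h0)
    rcases abs_eq_abs.1 (le_antisymm c1 c2) with h | h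
    · exact h
    · -- opposite signs
      have h5 : (P : ℝ) = -Q := by exact_mod_cast h
      rw [h5] at e
      have k1 := mul_pos (gp1 p1 h1 p0 h0) (gp2 p hp p0 h0)
      have k2 := mul_pos (gp1 p hp p0 h0) (gp2 p1 h1 p0 h0)
      have h6 : (Q : ℝ) * (gs x (p1.1 : ℝ) p0.1 * gs y (p.2 : ℝ) p0.2 +
          gs x (p.1 : ℝ) p0.1 * gs y (p1.2 : ℝ) p0.2) = 0 := by linarith
      have h7 : (Q : ℝ) = 0 := (mul_eq_zero.1 h6).resolve_right (by positivity)
      have h8 : Q = 0 := by exact_mod_cast h7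
      rw [h, h8, neg_zero]
  -- the polynomial
  have ha01 : ((p1.1 : ℚ) - p0.1) ≠ 0 := by
    intro h
    apply hne
    have : (p0.1 : ℚ) = p1.1 := by linarith
    exact inj1 p0 h0 p1 h1 (by exact_mod_cast this)
  have hb01 : ((p1.2 : ℚ) - p0.2) ≠ 0 := by
    intro h
    apply hne
    have : (p0.2 : ℚ) = p1.2 := by linarith
    exact inj2 p0 h0 p1 h1 (by exact_mod_cast this)
  set l : ℚ := ((p1.2 : ℚ) - p0.2) / ((p1.1 : ℚ) - p0.1) with hl
  have hl0 : l ≠ 0 := div_ne_zero hb01 ha01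
  set L : Polynomial ℚ := Polynomial.C l * Polynomial.X + Polynomial.C ((p0.2 : ℚ) - l * p0.1)
    with hL
  set G : Polynomial ℚ := Polynomial.C (α : ℚ) * Polynomial.X ^ x + Polynomial.C (β : ℚ) * L ^ y -
    Polynomial.C (n : ℚ) with hG
  have hLe : ∀ p ∈ S, L.eval (p.1 : ℚ) = p.2 := by
    intro p hp
    have e1 : ((p1.1 : ℚ) - p0.1) * ((p.2 : ℚ) - p0.2) =
      ((p.1 : ℚ) - p0.1) * ((p1.2 : ℚ) - p0.2) := by exact_mod_cast col p hp
    rw [hL, Polynomial.eval_add, Polynomial.eval_mul, Polynomial.eval_C, Polynomial.eval_X,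
      Polynomial.eval_C, hl]
    field_simp
    linarith
  have hGe : ∀ p ∈ S, G.eval (p.1 : ℚ) = 0 := by
    intro p hp
    rw [hG, Polynomial.eval_sub, Polynomial.eval_add, Polynomial.eval_mul, Polynomial.eval_mul,
      Polynomial.eval_pow, Polynomial.eval_pow, hLe p hp, Polynomial.eval_C, Polynomial.eval_C,
      Polynomial.eval_C, Polynomial.eval_X, sub_eq_zero]
    exact_mod_cast (hS p hp).2.2
  have hG0 : G ≠ 0 := by
    intro h
    have hβ' : (β : ℚ) ≠ 0 := by exact_mod_cast hβ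
    have hd : (Polynomial.derivative G).eval 0 = 0 := by rw [h]; simp
    have hLd : Polynomial.derivative L = Polynomial.C l := by rw [hL]; simp
    rw [hG, Polynomial.derivative_sub, Polynomial.derivative_add, Polynomial.derivative_C_mul,
      Polynomial.derivative_C_mul, Polynomial.derivative_C, Polynomial.derivative_X_pow,
      Polynomial.derivative_pow, hLd] at hd
    simp only [Polynomial.eval_sub, Polynomial.eval_add, Polynomial.eval_mul, Polynomial.eval_C,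
      Polynomial.eval_pow, Polynomial.eval_X, Polynomial.eval_zero] at hd
    rw [zero_pow (by omega : x - 1 ≠ 0), mul_zero, mul_zero, zero_add, sub_zero] at hd
    have hy0 : (y : ℚ) ≠ 0 := by exact_mod_cast (by omega : y ≠ 0)
    have hd2 : L.eval 0 ^ (y - 1) = 0 := by
      rcases mul_eq_zero.1 hd with h1 | h1
      · exact absurd h1 hβ'
      · rcases mul_eq_zero.1 h1 with h2 | h2
        · rcases mul_eq_zero.1 h2 with h3 | h3
          · exact absurd h3 hy0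
          · exact h3
        · exact absurd h2 hl0
    have hd3 : L.eval 0 = 0 := pow_eq_zero_iff (by omega : y - 1 ≠ 0) |>.1 hd2
    have hv : G.eval 0 = 0 := by rw [h]; simp
    rw [hG, Polynomial.eval_sub, Polynomial.eval_add, Polynomial.eval_mul, Polynomial.eval_mul,
      Polynomial.eval_pow, Polynomial.eval_pow, hd3, Polynomial.eval_C, Polynomial.eval_C,
      Polynomial.eval_C, Polynomial.eval_X, zero_pow (by omega : x ≠ 0),
      zero_pow (by omega : y ≠ 0)] at hv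
    apply hn
    have : (n : ℚ) = 0 := by linarith
    exact_mod_cast this
  have hGd : G.natDegree ≤ m := by
    have hLdeg : L.natDegree ≤ 1 := by
      rw [hL]
      exact Polynomial.natDegree_linear_le
    rw [hG]
    refine (Polynomial.natDegree_sub_le _ _).trans (max_le ?_ (by simp))
    refine (Polynomial.natDegree_add_le _ _).trans (max_le ?_ ?_)
    · exact (Polynomial.natDegree_C_mul_X_pow_le _ _).trans hxm
    · refine (Polynomial.natDegree_C_mul_le _ _).trans ?_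
      refine (Polynomial.natDegree_pow_le).trans ?_
      calc y * L.natDegree ≤ y * 1 := Nat.mul_le_mul_left _ hLdeg
        _ ≤ m := by omega
  have hcard : S.card ≤ G.roots.toFinset.card := by
    refine Finset.card_le_card_of_injOn (fun p => (p.1 : ℚ)) ?_ ?_
    · intro p hp
      have hp' := Finset.mem_coe.1 hp
      rw [Finset.mem_coe, Multiset.mem_toFinset, Polynomial.mem_roots hG0]
      exact hGe p hp'
    · intro p hp q hq h
      have h' : (p.1 : ℚ) = q.1 := h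
      exact inj1 p (Finset.mem_coe.1 hp) q (Finset.mem_coe.1 hq) (by exact_mod_cast h')
  exact hcard.trans ((Multiset.toFinset_card_le _).trans ((Polynomial.card_roots' _).trans hGd))

/-- consecutive powers -/
theorem pow_gap {b b' y : ℕ} (hy : 2 ≤ y) (h : b < b') : b ^ y + b ≤ b' ^ y := by
  calc b ^ y + b ≤ b ^ y + b ^ (y - 1) := by
        have : b ≤ b ^ (y - 1) := Nat.le_self_pow (by omega) b
        omega
    _ = b ^ (y - 1) * (b + 1) := by
        have : b ^ y = b ^ (y - 1) * b := by rw [← pow_succ]; congr 1; omega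
        rw [this]; ring
    _ ≤ (b + 1) ^ (y - 1) * (b + 1) := by gcongr; omega
    _ = (b + 1) ^ y := by rw [← pow_succ]; congr 1; omega
    _ ≤ b' ^ y := Nat.pow_le_pow_left h y

/-- one small base, the other one large -/
theorem near {x y m H M₂ : ℕ} (hx : 1 ≤ x) (hy : 2 ≤ y) (hxm : x ≤ m) (hH : 1 ≤ H)
    (hM₂ : H ^ m ≤ M₂)
    {α β n : ℤ} (hα : α = 1 ∨ α = -1) (hβ : β = 1 ∨ β = -1) (S : Finset (ℕ × ℕ))
    (hS : ∀ p ∈ S, p.1 ≤ H ∧ M₂ < p.2 ∧ α * (p.1 : ℤ) ^ x + β * (p.2 : ℤ) ^ y = n) :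
    S.card ≤ 1 := by
  rw [Finset.card_le_one]
  have key : ∀ p ∈ S, ∀ q ∈ S, ¬ p.2 < q.2 := by
    intro p hp q hq hlt
    obtain ⟨p1, p2, p3⟩ := hS p hp
    obtain ⟨q1, q2, q3⟩ := hS q hq
    have e1 := pow_gap hy hlt
    have e2 : p.1 ^ x ≤ H ^ m := (Nat.pow_le_pow_left p1 x).trans (Nat.pow_le_pow_right hH hxm)
    have e3 : q.1 ^ x ≤ H ^ m := (Nat.pow_le_pow_left q1 x).trans (Nat.pow_le_pow_right hH hxm)
    have e1' : (p.2 : ℤ) ^ y + p.2 ≤ (q.2 : ℤ) ^ y := by exact_mod_cast e1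
    have e2' : (p.1 : ℤ) ^ x ≤ (H : ℤ) ^ m := by exact_mod_cast e2
    have e3' : (q.1 : ℤ) ^ x ≤ (H : ℤ) ^ m := by exact_mod_cast e3
    have e4' : (H : ℤ) ^ m ≤ M₂ := by exact_mod_cast hM₂
    have e5 : (0 : ℤ) ≤ (p.1 : ℤ) ^ x := by positivity
    have e6 : (0 : ℤ) ≤ (q.1 : ℤ) ^ x := by positivity
    have e7 : (M₂ : ℤ) < p.2 := by exact_mod_cast p2
    rcases hα with rfl | rfl <;> rcases hβ with rfl | rfl <;> linarith
  intro p hp q hq
  have h2 : p.2 = q.2 := by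
    rcases lt_trichotomy p.2 q.2 with h | h | h
    · exact absurd h (key p hp q hq)
    · exact h
    · exact absurd h (key q hq p hp)
  have e1 := (hS p hp).2.2
  have e2 := (hS q hq).2.2
  rw [h2] at e1
  have hα0 : α ≠ 0 := by rcases hα with rfl | rfl <;> norm_num
  have e3 : α * (p.1 : ℤ) ^ x = α * (q.1 : ℤ) ^ x := by linarith
  have e4 := mul_left_cancel₀ hα0 e3
  have e5 : p.1 ^ x = q.1 ^ x := by exact_mod_cast e4
  exact Prod.ext (Nat.pow_left_injective (by omega : x ≠ 0) e5) h2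

end Pool.Agent.H8FC
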