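import Pool.Agent.H8FC.Pairs
import Pool.Agent.H8FC.Curve
import Pool.Agent.Results.MP_2738db_nt.GeneratedPairs

/-!
# All solutions with both bases in short intervals
-/

set_option autoImplicit false

namespace Pool.Agent.H8FC

open Finset

theorem Sol.swap {M₁ M₂ N R : ℕ} {E : ℝ} {α β γ : ℤ} {a x b y c k : ℕ}
    (h : Sol M₁ M₂ N R E α β γ a x b y c k) : Sol M₂ M₁ N R E β α γ b y a x c k :=
  ⟨h.hb, h.ha, h.cop.symm, h.hy, h.hx, h.hc, h.hk, h.hby, h.hax, by rw [add_comm]; exact h.eq⟩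

/-- the quadruples with bounded exponents -/
theorem small_count {M₁ M₂ N R m B : ℕ} {E : ℝ} {α β : ℤ}
    (hB : ∀ x y w : ℕ, 2 ≤ x → x ≤ m → 2 ≤ y → y ≤ m → 1 ≤ w → ∀ P : Finset (ℕ × ℕ),
      (∀ p ∈ P, (M₁ < p.1 ∧ p.1 ≤ M₁ + N) ∧ (M₂ < p.2 ∧ p.2 ≤ M₂ + N) ∧
        α * (p.1 : ℤ) ^ x + β * (p.2 : ℤ) ^ y = w) → P.card ≤ B)
    (V : Finset ℕ) (S : Finset ((ℕ × ℕ) × (ℕ × ℕ)))
    (hS : ∀ s ∈ S, ∃ x y c k : ℕ, Sol M₁ M₂ N R E α β 1 s.1.1 x s.1.2 y c k ∧ (2 ≤ x ∧ x ≤ m) ∧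
      (2 ≤ y ∧ y ≤ m) ∧ s.2 = (s.1.1 ^ x, s.1.2 ^ y) ∧ c ^ k ∈ V) :
    S.card ≤ B * (V.card * ((m + 1) * (m + 1))) := by
  classical
  choose! x y c k h1 h2 h3 h4 h5 using hS
  have := Finset.card_le_mul_card_image_of_maps_to (s := S)
    (t := V ×ˢ (range (m + 1)) ×ˢ (range (m + 1)))
    (f := fun s => (c s ^ k s, x s, y s)) (fun s hs => by
      simp only [mem_product, mem_range]
      exact ⟨h5 s hs, by have := (h2 s hs).2; omega, by have := (h3 s hs).2; omega⟩) B ?_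
  · rw [card_product, card_product, card_range] at this
    exact this
  · rintro ⟨w, x', y'⟩ hb
    rcases Finset.eq_empty_or_nonempty (S.filter fun s => (c s ^ k s, x s, y s) = (w, x', y'))
      with h0 | ⟨s₀, hs₀⟩
    · rw [h0, card_empty]; exact Nat.zero_le _
    · obtain ⟨hs1, hs2⟩ := mem_filter.1 hs₀
      simp only [Prod.mk.injEq] at hs2
      obtain ⟨e1, e2, e3⟩ := hs2
      have hw : 1 ≤ w := by
        rw [← e1]
        exact Nat.one_le_pow _ _ (h1 s₀ hs1).hc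
      have hinj : Set.InjOn (fun s : (ℕ × ℕ) × (ℕ × ℕ) => s.1)
          ((S.filter fun s => (c s ^ k s, x s, y s) = (w, x', y') : Finset _) : Set _) := by
        intro s hs s' hs' h
        obtain ⟨k1, k2⟩ := mem_filter.1 (mem_coe.1 hs)
        obtain ⟨k3, k4⟩ := mem_filter.1 (mem_coe.1 hs')
        simp only [Prod.mk.injEq] at k2 k4
        have h' : s.1 = s'.1 := h
        refine Prod.ext h' ?_
        rw [h4 s k1, h4 s' k3, k2.2.1, k2.2.2, k4.2.1, k4.2.2, h']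
      rw [← Finset.card_image_of_injOn hinj]
      refine hB x' y' w (by rw [← e2]; exact (h2 s₀ hs1).1) (by rw [← e2]; exact (h2 s₀ hs1).2)
        (by rw [← e3]; exact (h3 s₀ hs1).1) (by rw [← e3]; exact (h3 s₀ hs1).2) hw _ ?_
      intro p hp
      obtain ⟨s, hs, rfl⟩ := mem_image.1 hp
      obtain ⟨k1, k2⟩ := mem_filter.1 hs
      simp only [Prod.mk.injEq] at k2
      obtain ⟨g1, g2, g3⟩ := k2
      have h7 := h1 s k1
      refine ⟨h7.ha, h7.hb, ?_⟩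
      have h8 := h7.eq
      rw [one_mul, g2, g3] at h8
      rw [h8, ← g1]
      push_cast
      rfl

/-- **Few solutions in short boxes.** -/
theorem few_fc (ε : ℝ) (hε : 0 < ε) : ∃ (R : ℕ) (δ : ℝ), 0 < δ ∧ ∃ N₀ : ℕ, ∀ N : ℕ, N₀ ≤ N →
    ∀ (M₁ M₂ : ℕ) (α β : ℤ), (α = 1 ∧ β = 1 ∨ α = -1 ∧ β = 1 ∨ α = 1 ∧ β = -1) →
      ∀ S : Finset ((ℕ × ℕ) × (ℕ × ℕ)), (∀ s ∈ S, ∃ x y c k : ℕ,
        Sol M₁ M₂ N R (Real.exp ((N : ℝ) ^ δ)) α β 1 s.1.1 x s.1.2 y c k ∧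
        2 ≤ x ∧ 2 ≤ y ∧ s.2 = (s.1.1 ^ x, s.1.2 ^ y)) →
        (S.card : ℝ) ≤ (N : ℝ) ^ ε := by
  classical
  set m₀ : ℕ := ⌈4 / ε⌉₊ + 2 with hm₀
  have hm0 : (0 : ℝ) < m₀ := by rw [hm₀]; positivity
  have hm0' : 1 / (m₀ : ℝ) ≤ ε / 4 := by
    rw [div_le_iff₀ hm0]
    have h1 : 4 / ε ≤ m₀ := by
      rw [hm₀]; push_cast
      have := Nat.le_ceil (4 / ε)
      linarith
    rw [div_le_iff₀ hε] at h1
    linarith
  obtain ⟨R₁, δ₁, hδ₁, N₁, H1⟩ := few_both (ε / 4) (by positivity)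
  obtain ⟨R₂, δ₂, Y₀, hδ₂, H2⟩ := Pool.Agent.Results.MP_2738db_nt.GeneratedPairs.result 2
    (ε / (2 * (5 * m₀ + 1))) (by positivity)
  set δ : ℝ := min δ₁ (δ₂ / 2) with hδ
  have hδpos : 0 < δ := lt_min hδ₁ (by positivity)
  have hd1 : δ ≤ δ₁ := min_le_left _ _
  have hd2 : δ ≤ δ₂ / 2 := min_le_right _ _
  have hcast : Filter.Tendsto (fun N : ℕ => (N : ℝ)) Filter.atTop Filter.atTop :=
    tendsto_natCast_atTop_atTop
  have hpow : ∀ c : ℝ, 0 < c → Filter.Tendsto (fun N : ℕ => (N : ℝ) ^ c) Filter.atTop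
    Filter.atTop := fun c hc => (tendsto_rpow_atTop hc).comp hcast
  have hev : ∀ᶠ N : ℕ in Filter.atTop, 4 * m₀ + 2 ≤ N ∧ Y₀ ≤ N ∧ 2 ≤ (N : ℝ) ^ (δ₂ / 2) ∧
      ((m₀ * ((m₀ + 1) * (m₀ + 1)) : ℕ) : ℝ) ≤ (N : ℝ) ^ (ε / 4) ∧ 2 ≤ (N : ℝ) ^ (ε / 2) :=
    (Filter.eventually_ge_atTop _).and ((Filter.eventually_ge_atTop _).and
      (((hpow (δ₂ / 2) (by positivity)).eventually_ge_atTop _).and
      (((hpow (ε / 4) (by positivity)).eventually_ge_atTop _).and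
      ((hpow (ε / 2) (by positivity)).eventually_ge_atTop _))))
  obtain ⟨N₃, hN₃⟩ := Filter.eventually_atTop.1 hev
  refine ⟨max R₁ R₂, δ, hδpos, max N₁ N₃, fun N hN M₁ M₂ α β hαβ S hS => ?_⟩
  have hNN1 : N₁ ≤ N := (le_max_left _ _).trans hN
  obtain ⟨hN2, hNY, hNδ2, hconst, hc2⟩ := hN₃ N ((le_max_right _ _).trans hN)
  have hN1 : (1 : ℝ) < N := by exact_mod_cast (by omega : 1 < N)
  have hN0 : (0 : ℝ) < N := by linarith
  have hE1 : Real.exp ((N : ℝ) ^ δ) ≤ Real.exp ((N : ℝ) ^ δ₁) :=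
    Real.exp_le_exp.2 (Real.rpow_le_rpow_of_exponent_le hN1.le hd1)
  have hα : α = 1 ∨ α = -1 := by rcases hαβ with h | h | h <;> simp [h.1]
  have hβ : β = 1 ∨ β = -1 := by rcases hαβ with h | h | h <;> simp [h.2]
  have hα0 : α ≠ 0 := by rcases hα with h | h <;> simp [h]
  have hβ0 : β ≠ 0 := by rcases hβ with h | h <;> simp [h]
  have hEone : 1 ≤ Real.exp ((N : ℝ) ^ δ₁) := Real.one_le_exp (by positivity)
  have habs : ∀ u : ℤ, (u = 1 ∨ u = -1) → |(u : ℝ)| ≤ Real.exp ((N : ℝ) ^ δ₁) := by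
    rintro u (rfl | rfl)
    · rw [Int.cast_one, abs_one]
      exact hEone
    · rw [Int.cast_neg, Int.cast_one, abs_neg, abs_one]
      exact hEone
  have hα1 := habs α hα
  have hβ1 := habs β hβ
  obtain ⟨G1, G2⟩ := H1 N hNN1 M₁ M₂ α β 1 hα0 hβ0 one_ne_zero hα1 hβ1 (habs 1 (Or.inl rfl))
  -- large exponents
  set Sb := S.filter fun s => ∃ x y c k : ℕ,
      Sol M₁ M₂ N (max R₁ R₂) (Real.exp ((N : ℝ) ^ δ)) α β 1 s.1.1 x s.1.2 y c k ∧
      (m₀ ≤ x ∨ m₀ ≤ y) ∧ s.2 = (s.1.1 ^ x, s.1.2 ^ y) with hSb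
  set Ss := S.filter fun s => ∃ x y c k : ℕ,
      Sol M₁ M₂ N (max R₁ R₂) (Real.exp ((N : ℝ) ^ δ)) α β 1 s.1.1 x s.1.2 y c k ∧
      (2 ≤ x ∧ x ≤ m₀) ∧ (2 ≤ y ∧ y ≤ m₀) ∧ s.2 = (s.1.1 ^ x, s.1.2 ^ y) with hSs
  have hcov : S ⊆ Sb ∪ Ss := by
    intro s hs
    obtain ⟨x, y, c, k, k1, k2, k3, k4⟩ := hS s hs
    by_cases h : m₀ ≤ x ∨ m₀ ≤ y
    · exact mem_union_left _ (mem_filter.2 ⟨hs, x, y, c, k, k1, h, k4⟩)
    · push Not at h
      exact mem_union_right _ (mem_filter.2 ⟨hs, x, y, c, k, k1, ⟨k2, h.1.le⟩, ⟨k3, h.2.le⟩, k4⟩)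
  have cb : (Sb.card : ℝ) ≤ (N : ℝ) ^ (ε / 2) := by
    refine (G2 m₀ (by omega) Sb fun s hs => ?_).trans
      (Real.rpow_le_rpow_of_exponent_le hN1.le (by linarith))
    obtain ⟨-, x, y, c, k, k1, k2, k3⟩ := mem_filter.1 hs
    exact ⟨x, y, c, k, k1.mono (le_max_left _ _) hE1, k2, k3⟩
  -- bounded exponents
  have cs : (Ss.card : ℝ) ≤ (N : ℝ) ^ (ε / 2) := by
    -- the case of a bound for the points on the curves
    have fin : (∀ x y w : ℕ, 2 ≤ x → x ≤ m₀ → 2 ≤ y → y ≤ m₀ → 1 ≤ w → ∀ P : Finset (ℕ × ℕ),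
      (∀ p ∈ P, (M₁ < p.1 ∧ p.1 ≤ M₁ + N) ∧ (M₂ < p.2 ∧ p.2 ≤ M₂ + N) ∧
        α * (p.1 : ℤ) ^ x + β * (p.2 : ℤ) ^ y = w) → P.card ≤ m₀) →
        (Ss.card : ℝ) ≤ (N : ℝ) ^ (ε / 2) := by
      intro hB
      have hSs' : ∀ s ∈ Ss, ∃ x y c k : ℕ,
          Sol M₁ M₂ N (max R₁ R₂) (Real.exp ((N : ℝ) ^ δ)) α β 1 s.1.1 x s.1.2 y c k ∧
          (2 ≤ x ∧ x ≤ m₀) ∧ (2 ≤ y ∧ y ≤ m₀) ∧ s.2 = (s.1.1 ^ x, s.1.2 ^ y) := fun s hs =>
        (mem_filter.1 hs).2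
      choose! x y c k h1 h2 h3 h4 using hSs'
      have hVc : ((Ss.image fun s => c s ^ k s).card : ℝ) ≤ (N : ℝ) ^ (ε / 4) := by
        refine G1 _ fun w hw => ?_
        obtain ⟨s, hs, rfl⟩ := mem_image.1 hw
        exact ⟨_, _, _, _, _, _, (h1 s hs).mono (le_max_left _ _) hE1, rfl⟩
      have hsc := small_count (R := max R₁ R₂) (E := Real.exp ((N : ℝ) ^ δ)) hB
        (Ss.image fun s => c s ^ k s) Ss (fun s hs => ⟨x s, y s, c s, k s, h1 s hs, h2 s hs,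
          h3 s hs, h4 s hs, mem_image_of_mem _ hs⟩)
      have hsc' : (Ss.card : ℝ) ≤ ((Ss.image fun s => c s ^ k s).card : ℝ) *
          ((m₀ * ((m₀ + 1) * (m₀ + 1)) : ℕ) : ℝ) := by
        have : Ss.card ≤ (Ss.image fun s => c s ^ k s).card * (m₀ * ((m₀ + 1) * (m₀ + 1))) := by
          calc Ss.card ≤ _ := hsc
            _ = _ := by ring
        exact_mod_cast this
      calc (Ss.card : ℝ) ≤ _ := hsc'
        _ ≤ (N : ℝ) ^ (ε / 4) * (N : ℝ) ^ (ε / 4) := by gcongr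
        _ = (N : ℝ) ^ (ε / 2) := by
            rw [← Real.rpow_add hN0]; congr 1; ring
    -- the case of bases of polynomial size
    have poly : M₁ + N ≤ N ^ (5 * m₀ + 1) → M₂ + N ≤ N ^ (5 * m₀ + 1) →
        (Ss.card : ℝ) ≤ (N : ℝ) ^ (ε / 2) := by
      intro hp1 hp2
      set Y : ℕ := N ^ (5 * m₀ + 1) with hY
      have hNY' : N ≤ Y := by
        rw [hY]
        exact Nat.le_self_pow (by omega) N
      obtain ⟨K1, K2⟩ := H2 Y (hNY.trans hNY')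
      have hYε : (Y : ℝ) ^ (ε / (2 * (5 * m₀ + 1))) = (N : ℝ) ^ (ε / 2) := by
        rw [hY]
        push_cast
        rw [← Real.rpow_natCast, ← Real.rpow_mul hN0.le]
        congr 1
        push_cast
        field_simp
      rw [hYε] at K2
      refine le_trans ?_ K2
      have hN1Y : (N : ℝ) ^ δ₂ ≤ (Y : ℝ) ^ δ₂ :=
        Real.rpow_le_rpow hN0.le (by exact_mod_cast hNY') hδ₂.le
      have h2exp : 2 * Real.exp ((N : ℝ) ^ δ) ≤ Real.exp ((Y : ℝ) ^ δ₂) := by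
        have e1 : (2 : ℝ) ≤ Real.exp 1 := by
          have := Real.exp_one_gt_d9
          linarith
        calc 2 * Real.exp ((N : ℝ) ^ δ) ≤ Real.exp 1 * Real.exp ((N : ℝ) ^ δ) := by gcongr
          _ = Real.exp (1 + (N : ℝ) ^ δ) := (Real.exp_add _ _).symm
          _ ≤ Real.exp ((Y : ℝ) ^ δ₂) := by
              apply Real.exp_le_exp.2
              refine le_trans ?_ hN1Y
              have e2 : (N : ℝ) ^ δ ≤ (N : ℝ) ^ (δ₂ / 2) :=
                Real.rpow_le_rpow_of_exponent_le hN1.le hd2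
              have e3 : (N : ℝ) ^ δ₂ = (N : ℝ) ^ (δ₂ / 2) * (N : ℝ) ^ (δ₂ / 2) := by
                rw [← Real.rpow_add hN0]; congr 1; ring
              rw [e3]
              nlinarith
      have hle : ((Ss.image fun s => (s.1.1, s.1.2, s.2.1, s.2.2,
          (α * (s.2.1 : ℤ) + β * (s.2.2 : ℤ)).natAbs) : Finset (ℕ × ℕ × ℕ × ℕ × ℕ)) : Set _) ⊆
          Pool.Agent.Results.MP_2738db_nt.GeneratedPairs.Sols 2 R₂ Y
            (Real.exp ((Y : ℝ) ^ δ₂)) := by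
        intro v hv
        obtain ⟨s, hs, rfl⟩ := mem_image.1 (mem_coe.1 hv)
        obtain ⟨-, x, y, c, k, k1, k2, k3, k4⟩ := mem_filter.1 hs
        have hval : (α * (s.2.1 : ℤ) + β * (s.2.2 : ℤ)).natAbs = c ^ k := by
          rw [k4]
          have := k1.eq
          rw [one_mul] at this
          push_cast
          rw [this]
          exact_mod_cast Int.natAbs_natCast _
        have ha1 : 1 ≤ s.1.1 := by have := k1.ha.1; omega
        have hb1 : 1 ≤ s.1.2 := by have := k1.hb.1; omega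
        have hax : ((s.1.1 ^ x : ℕ) : ℝ) ≤ Real.exp ((N : ℝ) ^ δ) := by
          push_cast; exact k1.hax
        have hby : ((s.1.2 ^ y : ℕ) : ℝ) ≤ Real.exp ((N : ℝ) ^ δ) := by
          push_cast; exact k1.hby
        have heq : s.1.1 ^ x + s.1.2 ^ y = c ^ k ∨ s.1.1 ^ x + c ^ k = s.1.2 ^ y ∨
            s.1.2 ^ y + c ^ k = s.1.1 ^ x := by
          have := k1.eq
          rcases hαβ with ⟨rfl, rfl⟩ | ⟨rfl, rfl⟩ | ⟨rfl, rfl⟩
          · left
            have h9 : (s.1.1 : ℤ) ^ x + (s.1.2 : ℤ) ^ y = (c : ℤ) ^ k := by linarith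
            exact_mod_cast h9
          · right; left
            have h9 : (s.1.1 : ℤ) ^ x + (c : ℤ) ^ k = (s.1.2 : ℤ) ^ y := by linarith
            exact_mod_cast h9
          · right; right
            have h9 : (s.1.2 : ℤ) ^ y + (c : ℤ) ^ k = (s.1.1 : ℤ) ^ x := by linarith
            exact_mod_cast h9
        have hck : ((c ^ k : ℕ) : ℝ) ≤ 2 * Real.exp ((N : ℝ) ^ δ) := by
          rcases heq with h | h | h
          · rw [← h]; push_cast at hax hby ⊢; linarith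
          · have : ((c ^ k : ℕ) : ℝ) ≤ ((s.1.2 ^ y : ℕ) : ℝ) := by exact_mod_cast (by omega)
            have h3 : (0 : ℝ) ≤ Real.exp ((N : ℝ) ^ δ) := by positivity
            linarith
          · have : ((c ^ k : ℕ) : ℝ) ≤ ((s.1.1 ^ x : ℕ) : ℝ) := by exact_mod_cast (by omega)
            have h3 : (0 : ℝ) ≤ Real.exp ((N : ℝ) ^ δ) := by positivity
            linarith
        have h4 : Real.exp ((N : ℝ) ^ δ) ≤ Real.exp ((Y : ℝ) ^ δ₂) := by
          have h3 : (0 : ℝ) ≤ Real.exp ((N : ℝ) ^ δ) := by positivity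
          linarith
        refine ⟨s.1.1, s.1.2, c, x, y, k, ha1, hb1, k1.hc, k1.cop, k2.1, k3.1,
          (le_max_right _ _).trans k1.hk, heq, ?_, hax.trans h4, hby.trans h4, hck.trans h2exp, ?_⟩
        · refine ⟨![s.1.1, s.1.2], ![1, 0], ![0, 1], ?_, ?_, ?_⟩
          · intro j
            fin_cases j
            · exact ⟨ha1, k1.ha.2.trans hp1⟩
            · exact ⟨hb1, k1.hb.2.trans hp2⟩
          · simp [Fin.prod_univ_two]
          · simp [Fin.prod_univ_two]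
        · rw [hval, k4]
      have hinj : Set.InjOn (fun s : (ℕ × ℕ) × (ℕ × ℕ) => ((s.1.1, s.1.2, s.2.1, s.2.2,
          (α * (s.2.1 : ℤ) + β * (s.2.2 : ℤ)).natAbs) : ℕ × ℕ × ℕ × ℕ × ℕ)) (Ss : Set _) := by
        intro s _ s' _ h
        simp only [Prod.mk.injEq] at h
        exact Prod.ext (Prod.ext h.1 h.2.1) (Prod.ext h.2.2.1 h.2.2.2.1)
      have h5 := Set.ncard_le_ncard hle K1
      rw [Set.ncard_coe_finset, Finset.card_image_of_injOn hinj] at h5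
      exact_mod_cast h5
    -- the cases
    have hH : 4 * m₀ * N ^ 3 + N ≤ N ^ 5 := by
      have h1 : N ≤ N ^ 3 := Nat.le_self_pow (by omega) N
      have h2 : 4 * m₀ + 1 ≤ N ^ 2 := by nlinarith
      calc 4 * m₀ * N ^ 3 + N ≤ (4 * m₀ + 1) * N ^ 3 := by nlinarith
        _ ≤ N ^ 2 * N ^ 3 := Nat.mul_le_mul_right _ h2
        _ = N ^ 5 := by ring
    have hH5 : (4 * m₀ * N ^ 3 + N) ^ m₀ ≤ N ^ (5 * m₀) := by
      calc (4 * m₀ * N ^ 3 + N) ^ m₀ ≤ (N ^ 5) ^ m₀ := Nat.pow_le_pow_left hH _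
        _ = N ^ (5 * m₀) := by rw [← pow_mul]
    have hH6 : N ^ (5 * m₀) + N ≤ N ^ (5 * m₀ + 1) := by
      have h1 : N ≤ N ^ (5 * m₀) := Nat.le_self_pow (by omega) N
      calc N ^ (5 * m₀) + N ≤ N ^ (5 * m₀) * 2 := by omega
        _ ≤ N ^ (5 * m₀) * N := Nat.mul_le_mul_left _ (by omega)
        _ = N ^ (5 * m₀ + 1) := by rw [pow_succ]
    have hH7 : 4 * m₀ * N ^ 3 ≤ N ^ (5 * m₀) :=
      (Nat.le_add_right _ N).trans (hH.trans (Nat.pow_le_pow_right (by omega) (by omega)))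
    have hN1' : 1 ≤ N := by omega
    rcases Nat.lt_or_ge M₁ (4 * m₀ * N ^ 3) with h1 | h1
    · rcases Nat.lt_or_ge M₂ ((4 * m₀ * N ^ 3 + N) ^ m₀) with h2 | h2
      · exact poly (by omega) (by omega)
      · refine fin fun x y w hx hxm hy hym hw P hP => ?_
        refine (near (x := x) (y := y) (m := m₀) (H := 4 * m₀ * N ^ 3 + N) (M₂ := M₂) (α := α)
          (β := β) (n := w) (by omega) hy hxm (by omega) h2 hα hβ P ?_).trans (by omega)
        intro p hp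
        obtain ⟨k1, k2, k3⟩ := hP p hp
        exact ⟨by omega, k2.1, k3⟩
    · rcases Nat.lt_or_ge M₂ (4 * m₀ * N ^ 3) with h2 | h2
      · rcases Nat.lt_or_ge M₁ ((4 * m₀ * N ^ 3 + N) ^ m₀) with h3 | h3
        · exact poly (by omega) (by omega)
        · refine fin fun x y w hx hxm hy hym hw P hP => ?_
          have h4 := near (x := y) (y := x) (m := m₀) (H := 4 * m₀ * N ^ 3 + N) (M₂ := M₁) (α := β)
            (β := α) (n := w) (by omega) hx hym (by omega) h3 hβ hα (P.image Prod.swap) (by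
              intro p hp
              obtain ⟨q, hq, rfl⟩ := mem_image.1 hp
              obtain ⟨k1, k2, k3⟩ := hP q hq
              refine ⟨?_, k1.1, ?_⟩
              · show q.2 ≤ _
                omega
              · show β * (q.2 : ℤ) ^ y + α * (q.1 : ℤ) ^ x = w
                rw [add_comm]; exact k3)
          rw [Finset.card_image_of_injective _ Prod.swap_injective] at h4
          exact h4.trans (by omega)
      · refine fin fun x y w hx hxm hy hym hw P hP => ?_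
        exact far hx hy hxm hym hN1' h1 h2 hα0 hβ0 (by exact_mod_cast (by omega : w ≠ 0)) P hP
  have h3 : S.card ≤ Sb.card + Ss.card := (Finset.card_le_card hcov).trans
    (Finset.card_union_le _ _)
  have h4 : (S.card : ℝ) ≤ Sb.card + Ss.card := by exact_mod_cast h3
  calc (S.card : ℝ) ≤ (N : ℝ) ^ (ε / 2) + (N : ℝ) ^ (ε / 2) := by linarith
    _ ≤ (N : ℝ) ^ (ε / 2) * (N : ℝ) ^ (ε / 2) := by nlinarith
    _ = (N : ℝ) ^ ε := by rw [← Real.rpow_add hN0]; congr 1; ring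

end Pool.Agent.H8FC
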