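import Mathlib

/-! # A prime in `(x, 5 x]` which does not divide a given number -/

set_option autoImplicit false

namespace Pool.Agent.H8FC

open Real Chebyshev

theorem theta_gap : ∃ x₀ : ℝ, 1 ≤ x₀ ∧ ∀ x : ℝ, x₀ ≤ x → x < θ (5 * x) - θ x := by
  have h1 : ∀ᶠ x : ℝ in Filter.atTop, 2 * √(5 * x) * log (5 * x) ≤ x / 4 := by
    have : (fun x : ℝ => 2 * √(5 * x) * log (5 * x)) =o[Filter.atTop] (fun x : ℝ => x) := by
      have h2 : (fun x : ℝ => log x) =o[Filter.atTop] (fun x : ℝ => x ^ (1 / 4 : ℝ)) :=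
        isLittleO_log_rpow_atTop (by norm_num)
      have h3 : (fun x : ℝ => 2 * √x * log x) =o[Filter.atTop] (fun x : ℝ => x) := by
        have h4 : (fun x : ℝ => 2 * √x * log x) =o[Filter.atTop]
            (fun x : ℝ => 2 * √x * x ^ (1 / 4 : ℝ)) :=
          (Asymptotics.isBigO_refl _ _).mul_isLittleO h2
        refine h4.trans_isBigO ?_
        refine Asymptotics.IsBigO.of_bound 2 ?_
        filter_upwards [Filter.eventually_ge_atTop (1 : ℝ)] with x hx
        rw [Real.norm_of_nonneg (by positivity), Real.norm_of_nonneg (by positivity),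
          Real.sqrt_eq_rpow, mul_assoc, ← Real.rpow_add (by linarith)]
        refine mul_le_mul_of_nonneg_left ?_ (by norm_num)
        calc x ^ (1 / 2 + 1 / 4 : ℝ) ≤ x ^ (1 : ℝ) :=
              Real.rpow_le_rpow_of_exponent_le hx (by norm_num)
          _ = x := Real.rpow_one x
      have h5 : Filter.Tendsto (fun x : ℝ => 5 * x) Filter.atTop Filter.atTop :=
        Filter.tendsto_id.const_mul_atTop (by norm_num)
      have h6 := h3.comp_tendsto h5
      refine h6.trans_isBigO ?_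
      refine Asymptotics.IsBigO.of_bound 5 ?_
      filter_upwards with x
      simp
    filter_upwards [this.def (show (0 : ℝ) < 1 / 4 by norm_num), Filter.eventually_ge_atTop (1 : ℝ)]
      with x hx hx1
    rw [Real.norm_of_nonneg (by linarith : (0 : ℝ) ≤ x)] at hx
    have := (le_abs_self (2 * √(5 * x) * log (5 * x))).trans hx
    linarith
  have h2 : ∀ᶠ x : ℝ in Filter.atTop, log (5 * x + 2) ≤ x / 4 := by
    have h3 : (fun x : ℝ => log x) =o[Filter.atTop] (fun x : ℝ => x) := Real.isLittleO_log_id_atTop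
    have h4 := h3.def (show (0 : ℝ) < 1 / 28 by norm_num)
    have h5 : Filter.Tendsto (fun x : ℝ => 5 * x + 2) Filter.atTop Filter.atTop :=
      Filter.tendsto_atTop_add_const_right _ _ (Filter.tendsto_id.const_mul_atTop (by norm_num))
    filter_upwards [h5.eventually h4, Filter.eventually_ge_atTop (1 : ℝ)] with x hx hx1
    rw [Real.norm_of_nonneg (by linarith : (0 : ℝ) ≤ 5 * x + 2)] at hx
    have := (le_abs_self (log (5 * x + 2))).trans hx
    linarith
  obtain ⟨x₁, hx₁⟩ := Filter.eventually_atTop.1 (h1.and h2)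
  refine ⟨max x₁ 100, le_max_of_le_right (by norm_num), fun x hx => ?_⟩
  obtain ⟨e1, e2⟩ := hx₁ x ((le_max_left _ _).trans hx)
  have hx100 : 100 ≤ x := (le_max_right _ _).trans hx
  have h3 := theta_ge' (x := 5 * x) (by linarith)
  have h4 := theta_le_log4_mul_x (x := x) (by linarith)
  have h5 : log 4 = 2 * log 2 := by
    rw [show (4 : ℝ) = 2 ^ 2 by norm_num, Real.log_pow]; norm_num
  have h6 : 0.6931471803 < log 2 := Real.log_two_gt_d9
  rw [h5] at h4
  nlinarith

theorem exists_prime (x : ℝ) (v : ℤ) (hv : v ≠ 0) (hgap : x < θ (5 * x) - θ x) (hx : 0 ≤ x)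
    (hlog : log |(v : ℝ)| ≤ x) : ∃ q : ℕ, q.Prime ∧ x < q ∧ (q : ℝ) ≤ 5 * x ∧ ¬ (q : ℤ) ∣ v := by
  classical
  by_contra hcon
  push Not at hcon
  set S : Finset ℕ := (Finset.Ioc ⌊x⌋₊ ⌊5 * x⌋₊).filter Nat.Prime with hS
  have h1 : ∏ p ∈ S, p ∣ v.natAbs := by
    refine Finset.prod_primes_dvd _ (fun p hp => Nat.prime_iff.1 (Finset.mem_filter.1 hp).2) ?_
    intro p hp
    rw [hS, Finset.mem_filter, Finset.mem_Ioc] at hp
    have := hcon p hp.2 ((Nat.floor_lt hx).1 hp.1.1) ((Nat.le_floor_iff (by linarith)).1 hp.1.2)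
    exact Int.natCast_dvd.1 this
  have h2 := Nat.le_of_dvd (Int.natAbs_pos.2 hv) h1
  have h3 : θ (5 * x) - θ x = ∑ p ∈ S, log (p : ℝ) := by
    rw [theta, theta, hS]
    have h4 : (Finset.Ioc 0 ⌊5 * x⌋₊).filter Nat.Prime =
        (Finset.Ioc 0 ⌊x⌋₊).filter Nat.Prime ∪ (Finset.Ioc ⌊x⌋₊ ⌊5 * x⌋₊).filter Nat.Prime := by
      rw [← Finset.filter_union, Finset.Ioc_union_Ioc_eq_Ioc (Nat.zero_le _)
        (Nat.floor_le_floor (by linarith))]
    rw [h4, Finset.sum_union, add_sub_cancel_left]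
    refine Finset.disjoint_filter_filter ?_
    exact Finset.Ioc_disjoint_Ioc_of_le (le_refl _)
  have h4 : ∑ p ∈ S, log (p : ℝ) = log ((∏ p ∈ S, p : ℕ) : ℝ) := by
    rw [Nat.cast_prod, Real.log_prod]
    intro p hp
    have := (Finset.mem_filter.1 hp).2.ne_zero
    exact_mod_cast this
  have h5 : log ((∏ p ∈ S, p : ℕ) : ℝ) ≤ log |(v : ℝ)| := by
    refine Real.log_le_log ?_ ?_
    · have : 0 < ∏ p ∈ S, p := Finset.prod_pos fun p hp => (Finset.mem_filter.1 hp).2.pos
      exact_mod_cast this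
    · have h6 : ((v.natAbs : ℕ) : ℝ) = |(v : ℝ)| := by
        rw [Nat.cast_natAbs]; simp
      rw [← h6]
      exact_mod_cast h2
  linarith

end Pool.Agent.H8FC
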