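import Mathlib
import Pool.Agent.N445.VW.Bp2
import Pool.Agent.H8FC.Prm

/-! # The points of `s z ^ k = (t + M) ^ y + u` in an interval -/

set_option autoImplicit false

namespace Pool.Agent.H8FC

open Polynomial

/-- the polynomial `(X + M) ^ y + u` -/
noncomputable def pf (M u : ℤ) (y : ℕ) : ℤ[X] := (X + C M) ^ y + C u

theorem pf_eval (M u : ℤ) (y : ℕ) (t : ℤ) : (pf M u y).eval t = (t + M) ^ y + u := by
  simp [pf]

theorem pf_deriv (M u : ℤ) (y : ℕ) (t : ℤ) :
    (derivative (pf M u y)).eval t = y * (t + M) ^ (y - 1) := by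
  simp [pf, derivative_pow]

theorem pf_natDegree (M u : ℤ) {y : ℕ} (_hy : 1 ≤ y) : (pf M u y).natDegree = y := by
  rw [pf, natDegree_add_C, natDegree_pow, natDegree_X_add_C, mul_one]

theorem pf_sep (M : ℤ) {u : ℤ} (hu : u ≠ 0) {y : ℕ} (hy : 1 ≤ y) :
    ((pf M u y).map (Int.castRingHom ℚ)).Separable := by
  have hu' : (u : ℚ) ≠ 0 := by exact_mod_cast hu
  have hy' : (y : ℚ) ≠ 0 := by
    have : y ≠ 0 := by omega
    exact_mod_cast this
  rw [Polynomial.Separable]
  refine ⟨C (1 / (u : ℚ)), - C (1 / ((u : ℚ) * y)) * (X + C (M : ℚ)), ?_⟩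
  have h1 : (pf M u y).map (Int.castRingHom ℚ) = (X + C (M : ℚ)) ^ y + C (u : ℚ) := by
    simp [pf]
  rw [h1]
  have h2 : derivative ((X + C (M : ℚ)) ^ y + C (u : ℚ)) = C (y : ℚ) * (X + C (M : ℚ)) ^ (y - 1) := by
    simp [derivative_pow]
  rw [h2]
  have h3 : (X + C (M : ℚ)) ^ y = (X + C (M : ℚ)) * (X + C (M : ℚ)) ^ (y - 1) := by
    rw [← pow_succ', Nat.sub_add_cancel hy]
  rw [h3]
  have h4 : C (1 / (u : ℚ)) * C (u : ℚ) = (1 : ℚ[X]) := by
    rw [← C_mul, one_div_mul_cancel hu', C_1]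
  have h5 : C (1 / ((u : ℚ) * y)) * C (y : ℚ) = C (1 / (u : ℚ)) := by
    rw [← C_mul]
    congr 1
    field_simp
  calc C (1 / (u : ℚ)) * ((X + C (M : ℚ)) * (X + C (M : ℚ)) ^ (y - 1) + C (u : ℚ)) +
      -C (1 / ((u : ℚ) * y)) * (X + C (M : ℚ)) * (C (y : ℚ) * (X + C (M : ℚ)) ^ (y - 1))
      = C (1 / (u : ℚ)) * C (u : ℚ) + (C (1 / (u : ℚ)) - C (1 / ((u : ℚ) * y)) * C (y : ℚ)) *
        ((X + C (M : ℚ)) * (X + C (M : ℚ)) ^ (y - 1)) := by ring
    _ = 1 := by rw [h4, h5]; ring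

/-- the size condition of the determinant method -/
theorem size_ok (k R N Z q : ℕ) (α ε : ℝ) (hk : 1 ≤ k) (hR : 1 ≤ R) (hN : 2 ≤ N) (hZ : 1 ≤ Z)
    (hα : 1 / (k : ℝ) + ε ≤ α) (hq : (N : ℝ) ^ α ≤ q) (hε : 6 ≤ ε * Real.log N)
    (hZR : Real.log Z ≤ R) :
    (k * (R + 1)).factorial * (N ^ (k * (R * (R + 1) / 2)) *
      Z ^ ((R + 1) * (k * (k - 1) / 2))) < q ^ ((k * (R + 1)) * (k * (R + 1) - 1) / 2) := by
  set m := k * (R + 1) with hm
  have hN1 : (1 : ℝ) < N := by exact_mod_cast hN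
  have hlogN : 0 < Real.log N := Real.log_pos hN1
  have hk' : (1 : ℝ) ≤ k := by exact_mod_cast hk
  have hR' : (1 : ℝ) ≤ R := by exact_mod_cast hR
  have hm2 : 2 ≤ m := by rw [hm]; nlinarith
  obtain ⟨n, hn⟩ : 2 ∣ m * (m - 1) := (Nat.even_mul_pred_self m).two_dvd
  obtain ⟨n1, hn1⟩ : 2 ∣ R * (R + 1) := (Nat.even_mul_succ_self R).two_dvd
  obtain ⟨n2, hn2⟩ : 2 ∣ k * (k - 1) := (Nat.even_mul_pred_self k).two_dvd
  rw [hn, hn1, hn2, Nat.mul_div_cancel_left _ (by norm_num), Nat.mul_div_cancel_left _ (by norm_num),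
    Nat.mul_div_cancel_left _ (by norm_num)]
  have hmr : (m : ℝ) = k * (R + 1) := by rw [hm]; push_cast; ring
  have e1 : (2 : ℝ) * n = m * (m - 1) := by
    have : (2 : ℝ) * n = ((m * (m - 1) : ℕ) : ℝ) := by rw [hn]; push_cast; ring
    rw [this, Nat.cast_mul, Nat.cast_sub (by omega)]; simp
  have e2 : (2 : ℝ) * n1 = R * (R + 1) := by
    have : (2 : ℝ) * n1 = ((R * (R + 1) : ℕ) : ℝ) := by rw [hn1]; push_cast; ring
    rw [this]; push_cast; ring
  have e3 : (2 : ℝ) * n2 = k * (k - 1) := by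
    have : (2 : ℝ) * n2 = ((k * (k - 1) : ℕ) : ℝ) := by rw [hn2]; push_cast; ring
    rw [this, Nat.cast_mul, Nat.cast_sub hk]; simp
  have hqpos : (0 : ℝ) < q := lt_of_lt_of_le (by positivity) hq
  have hlogq : α * Real.log N ≤ Real.log q := by
    rw [← Real.log_rpow (by linarith)]
    exact Real.log_le_log (by positivity) hq
  have hZ' : (1 : ℝ) ≤ Z := by exact_mod_cast hZ
  have hlogZ : 0 ≤ Real.log Z := Real.log_nonneg hZ'
  -- factorial
  have hfac : ((m.factorial : ℕ) : ℝ) ≤ (m : ℝ) ^ m := by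
    exact_mod_cast Nat.factorial_le_pow m
  have hmpos : (0 : ℝ) < m := by
    have : 0 < m := by omega
    exact_mod_cast this
  have hlogm : Real.log m ≤ m - 1 := Real.log_le_sub_one_of_pos hmpos
  -- logarithms
  have hL : Real.log ((m.factorial * (N ^ (k * n1) * Z ^ ((R + 1) * n2)) : ℕ) : ℝ) ≤
      m * Real.log m + (k * n1) * Real.log N + ((R + 1) * n2) * Real.log Z := by
    push_cast
    rw [Real.log_mul (by positivity) (by positivity), Real.log_mul (by positivity) (by positivity),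
      Real.log_pow, Real.log_pow]
    push_cast
    have : Real.log (m.factorial : ℝ) ≤ m * Real.log m := by
      rw [← Real.log_pow]
      exact Real.log_le_log (by positivity) hfac
    linarith
  have hRq : Real.log ((q ^ n : ℕ) : ℝ) = n * Real.log q := by
    push_cast
    rw [Real.log_pow]
  have key : m * Real.log m + (k * n1) * Real.log N + ((R + 1) * n2) * Real.log Z <
      n * Real.log q := by
    have h1 : 2 * (m * Real.log m + (k * n1) * Real.log N + ((R + 1) * n2) * Real.log Z) =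
        m * (2 * Real.log m + R * Real.log N + (k - 1) * Real.log Z) := by
      calc 2 * (m * Real.log m + (k * n1) * Real.log N + ((R + 1) * n2) * Real.log Z)
          = 2 * m * Real.log m + k * (2 * n1) * Real.log N + (R + 1) * (2 * n2) * Real.log Z := by
            ring
        _ = _ := by rw [e2, e3, hmr]; ring
    have h2 : 2 * (n * Real.log q) = m * ((m - 1) * Real.log q) := by
      calc 2 * (n * Real.log q) = (2 * n) * Real.log q := by ring
        _ = _ := by rw [e1]; ring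
    have h3 : 2 * Real.log m + R * Real.log N + (k - 1) * Real.log Z < (m - 1) * Real.log q := by
      have hkR : (0 : ℝ) < k * R := by positivity
      have h4 : (k * R : ℝ) ≤ m - 1 := by rw [hmr]; linarith
      have h5 : (k * R : ℝ) * (α * Real.log N) ≤ (m - 1) * Real.log q := by
        have hα0 : 0 ≤ α * Real.log N := by
          have h0 : 0 < 1 / (k : ℝ) := by positivity
          have h0' : 0 < ε := by
            by_contra h
            push Not at h
            have := mul_nonpos_of_nonpos_of_nonneg h hlogN.le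
            linarith
          have : 0 < α := by linarith
          positivity
        exact mul_le_mul h4 hlogq hα0 (by linarith)
      have h6 : (k * R : ℝ) * ((1 / (k : ℝ) + ε) * Real.log N) ≤ (k * R : ℝ) * (α * Real.log N) := by
        gcongr
      have h7 : (k * R : ℝ) * ((1 / (k : ℝ) + ε) * Real.log N) =
          R * Real.log N + (k * R) * (ε * Real.log N) := by
        field_simp
      have h8 : (k * R : ℝ) * 6 ≤ (k * R) * (ε * Real.log N) := by gcongr
      have h9 : 2 * Real.log m ≤ 4 * (k * R : ℝ) := by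
        have h12 : (k : ℝ) ≤ k * R := le_mul_of_one_le_right (by linarith) hR'
        have : (m : ℝ) - 1 ≤ 2 * (k * R) := by rw [hmr]; linarith
        linarith
      have h10 : ((k : ℝ) - 1) * Real.log Z ≤ k * R := by
        have h12 : ((k : ℝ) - 1) * Real.log Z ≤ (k - 1) * R := by
          exact mul_le_mul_of_nonneg_left hZR (by linarith)
        linarith
      linarith
    have h4 := mul_lt_mul_of_pos_left h3 hmpos
    linarith
  have h1 : Real.log ((m.factorial * (N ^ (k * n1) * Z ^ ((R + 1) * n2)) : ℕ) : ℝ) <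
      Real.log ((q ^ n : ℕ) : ℝ) := by
    rw [hRq]; linarith
  have h2 : (0 : ℝ) < ((m.factorial * (N ^ (k * n1) * Z ^ ((R + 1) * n2)) : ℕ) : ℝ) := by
    have : 0 < N := by omega
    positivity
  have h3 := (Real.log_lt_log_iff h2 (by push_cast; positivity)).1 h1
  exact_mod_cast h3

/-- one pair of exponents -/
theorem one_pair (N D k y : ℕ) (M u s : ℤ) (α ε : ℝ) (hD : 2 ≤ D) (hN : 2 ≤ N) (hk : 1 ≤ k)
    (hk3 : k ≤ 3 * D) (hy : 1 ≤ y) (hy2 : y ≤ 2 * D) (hu : u ≠ 0) (hs : s = 1 ∨ s = -1)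
    (hα : 1 / (k : ℝ) + ε ≤ α) (hε : 6 ≤ ε * Real.log N)
    (hud : Real.log |(u : ℝ)| ≤ D) (hx : (6 * D : ℝ) ≤ (N : ℝ) ^ α)
    (hgap : (N : ℝ) ^ α < Chebyshev.theta (5 * (N : ℝ) ^ α) - Chebyshev.theta ((N : ℝ) ^ α))
    (T : Finset ℤ) (hT : ∀ t ∈ T, |t| ≤ N ∧ ∃ z : ℤ, |z| ≤ ((3 ^ (2 * D) : ℕ) : ℤ) ∧
      s * z ^ k = (t + M) ^ y + u) :
    (T.card : ℝ) ≤ 600 * (N : ℝ) ^ α * D ^ 6 := by
  have hN1 : (1 : ℝ) < N := by exact_mod_cast hN
  have hD' : (2 : ℝ) ≤ D := by exact_mod_cast hD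
  have hk' : (1 : ℝ) ≤ k := by exact_mod_cast hk
  have hy' : (1 : ℝ) ≤ y := by exact_mod_cast hy
  have hlogN : 0 < Real.log N := Real.log_pos hN1
  have hε0 : 0 < ε := by
    by_contra h
    push Not at h
    nlinarith
  have hα0 : 0 < α := by
    have : 0 < 1 / (k : ℝ) := by positivity
    linarith
  set x : ℝ := (N : ℝ) ^ α with hxdef
  have hx0 : 0 < x := by positivity
  -- the prime
  have hv : u * (y * k : ℕ) ≠ 0 := by
    refine mul_ne_zero hu ?_
    have : y * k ≠ 0 := by positivity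
    exact_mod_cast this
  have hlogv : Real.log |((u * (y * k : ℕ) : ℤ) : ℝ)| ≤ x := by
    have hu' : (0 : ℝ) < |(u : ℝ)| := by
      have : (u : ℝ) ≠ 0 := by exact_mod_cast hu
      positivity
    have habs : |((u * (y * k : ℕ) : ℤ) : ℝ)| = |(u : ℝ)| * ((y : ℝ) * k) := by
      push_cast
      rw [abs_mul, abs_of_nonneg (show (0 : ℝ) ≤ (y : ℝ) * k by positivity)]
    rw [habs, Real.log_mul hu'.ne' (by positivity), Real.log_mul (by positivity) (by positivity)]
    have h1 : Real.log y ≤ 2 * D := by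
      have h2 : Real.log y ≤ y - 1 := Real.log_le_sub_one_of_pos (by linarith)
      have h3 : (y : ℝ) ≤ 2 * D := by exact_mod_cast hy2
      linarith
    have h2 : Real.log k ≤ 3 * D := by
      have h2 : Real.log k ≤ k - 1 := Real.log_le_sub_one_of_pos (by linarith)
      have h3 : (k : ℝ) ≤ 3 * D := by exact_mod_cast hk3
      linarith
    linarith
  obtain ⟨q, hq, hxq, hq5, hqv⟩ := exists_prime x _ hv hgap hx0.le hlogv
  have hqZ : Prime (q : ℤ) := Nat.prime_iff_prime_int.1 hq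
  have hqu : ¬ (q : ℤ) ∣ u := fun h => hqv (h.mul_right _)
  have hqy : ¬ (q : ℤ) ∣ (y : ℤ) := fun h => hqv (by
    push_cast
    exact (h.mul_right _).mul_left _)
  have hqk : ¬ q ∣ k := fun h => hqv (by
    push_cast
    exact ((Int.natCast_dvd_natCast.2 h).mul_left _).mul_left _)
  have hqs : ¬ (q : ℤ) ∣ s := by
    intro h
    have h1 : IsUnit s := by rcases hs with rfl | rfl <;> simp
    exact hqZ.not_isUnit (isUnit_of_dvd_unit h h1)
  have hs0 : s ≠ 0 := by rcases hs with rfl | rfl <;> norm_num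
  have hsize := size_ok k (D ^ 3) N (3 ^ (2 * D)) q α ε hk (Nat.one_le_pow _ _ (by omega)) hN
    (Nat.one_le_pow _ _ (by norm_num)) hα hxq.le hε (by
      push_cast
      rw [Real.log_pow]
      push_cast
      have h1 : Real.log 3 ≤ 2 := by
        have := Real.log_le_sub_one_of_pos (show (0 : ℝ) < 3 by norm_num)
        linarith
      nlinarith [sq_nonneg (D : ℝ)])
  have hmain := Pool.Agent.N445.VW.bp_prime2 (pf M u y) (by rw [pf_natDegree M u hy]; exact hy)
    (pf_sep M hu hy) s hs0 k hk (D ^ 3) N (3 ^ (2 * D)) q hq hqs hqk hsize T (by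
      intro t ht
      obtain ⟨h1, z, h2, h3⟩ := hT t ht
      exact ⟨h1, z, h2, by rw [pf_eval]; exact h3⟩) (by
      intro t ht h1 h2
      rw [pf_eval] at h1
      rw [pf_deriv] at h2
      rcases hqZ.dvd_or_dvd h2 with h3 | h3
      · exact hqy h3
      · have h4 := hqZ.dvd_of_dvd_pow h3
        have h5 : (q : ℤ) ∣ (t + M) ^ y := dvd_pow h4 (by omega)
        exact hqu (by simpa using dvd_sub h1 h5))
  rw [pf_natDegree M u hy] at hmain
  have h1 : 2 * N / q ^ k + 1 ≤ 3 := by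
    have h2 : 2 * N / q ^ k ≤ 2 := by
      have h3 : N ≤ q ^ k := by
        have h4 : (N : ℝ) ≤ (q : ℝ) ^ k := by
          calc (N : ℝ) ≤ ((N : ℝ) ^ α) ^ k := by
                rw [← Real.rpow_natCast, ← Real.rpow_mul (by linarith)]
                conv_lhs => rw [← Real.rpow_one (N : ℝ)]
                refine Real.rpow_le_rpow_of_exponent_le hN1.le ?_
                calc (1 : ℝ) ≤ (1 / (k : ℝ) + ε) * k := by
                      have : (1 / (k : ℝ) + ε) * k = 1 + ε * k := by field_simp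
                      rw [this]
                      have : 0 ≤ ε * k := by positivity
                      linarith
                  _ ≤ α * k := by gcongr
            _ ≤ (q : ℝ) ^ k := pow_le_pow_left₀ (by positivity) hxq.le _
        exact_mod_cast h4
      calc 2 * N / q ^ k ≤ 2 * q ^ k / q ^ k := Nat.div_le_div_right (by omega)
        _ = 2 := Nat.mul_div_cancel _ (Nat.pos_of_ne_zero (pow_ne_zero _ hq.ne_zero))
    omega
  have h2 : T.card ≤ (2 * D) * 3 + (q * (3 * D)) * (2 * (3 * D) * (2 * D + D ^ 3)) := by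
    refine hmain.trans (Nat.add_le_add (Nat.mul_le_mul hy2 h1) ?_)
    gcongr
  have h3 : (T.card : ℝ) ≤ (2 * D) * 3 + (q * (3 * D)) * (2 * (3 * D) * (2 * D + D ^ 3)) := by
    exact_mod_cast h2
  refine h3.trans ?_
  have hx1 : 1 ≤ x := by linarith
  have h4 : (2 * D + D ^ 3 : ℝ) ≤ 2 * D ^ 3 := by nlinarith [sq_nonneg ((D : ℝ) - 2)]
  have h5 : ((q : ℝ) * (3 * D)) * (2 * (3 * D) * (2 * D + D ^ 3)) ≤
      ((5 * x) * (3 * D)) * (2 * (3 * D) * (2 * D ^ 3)) := by gcongr
  have h6 : ((5 * x) * (3 * D)) * (2 * (3 * D) * (2 * (D : ℝ) ^ 3)) = 180 * x * D ^ 5 := by ring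
  have h7 : (D : ℝ) ^ 5 ≤ D ^ 6 := by
    calc (D : ℝ) ^ 5 ≤ D ^ 5 * D := le_mul_of_one_le_right (by positivity) (by linarith)
      _ = D ^ 6 := by ring
  have h8 : (2 * D * 3 : ℝ) ≤ 6 * x * D ^ 6 := by
    have : (D : ℝ) ≤ D ^ 6 := by
      calc (D : ℝ) = D ^ 1 := by ring
        _ ≤ D ^ 6 := pow_le_pow_right₀ (by linarith) (by norm_num)
    nlinarith [mul_le_mul hx1 this (by positivity) hx0.le]
  have h9 : 180 * x * (D : ℝ) ^ 5 ≤ 180 * x * D ^ 6 := by gcongr
  have h10 : 0 ≤ x * (D : ℝ) ^ 6 := by positivity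
  linarith

end Pool.Agent.H8FC
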