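import Mathlib
import Pool.Agent.H8FC.Main

/-! # The points of `s z ^ k = v (t + M) ^ y + u` in an interval, with coefficients -/

set_option autoImplicit false

namespace Pool.Agent.H8FC

open Polynomial

/-- the polynomial `v (X + M) ^ y + u` -/
noncomputable def pc (M u v : ℤ) (y : ℕ) : ℤ[X] := C v * (X + C M) ^ y + C u

theorem pc_eval (M u v : ℤ) (y : ℕ) (t : ℤ) : (pc M u v y).eval t = v * (t + M) ^ y + u := by
  simp [pc]

theorem pc_deriv (M u v : ℤ) (y : ℕ) (t : ℤ) :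
    (derivative (pc M u v y)).eval t = v * (y * (t + M) ^ (y - 1)) := by
  simp [pc, derivative_pow]

theorem pc_natDegree (M u : ℤ) {v : ℤ} (hv : v ≠ 0) (y : ℕ) : (pc M u v y).natDegree = y := by
  rw [pc, natDegree_add_C, natDegree_C_mul hv, natDegree_pow, natDegree_X_add_C, mul_one]

theorem pc_sep (M : ℤ) {u v : ℤ} (hu : u ≠ 0) (hv : v ≠ 0) {y : ℕ} (hy : 1 ≤ y) :
    ((pc M u v y).map (Int.castRingHom ℚ)).Separable := by
  have hu' : (u : ℚ) ≠ 0 := by exact_mod_cast hu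
  have hv' : (v : ℚ) ≠ 0 := by exact_mod_cast hv
  have hy' : (y : ℚ) ≠ 0 := by
    have : y ≠ 0 := by omega
    exact_mod_cast this
  rw [Polynomial.Separable]
  refine ⟨C (1 / (u : ℚ)), - C (1 / ((u : ℚ) * y)) * (X + C (M : ℚ)), ?_⟩
  have h1 : (pc M u v y).map (Int.castRingHom ℚ) = C (v : ℚ) * (X + C (M : ℚ)) ^ y + C (u : ℚ) := by
    simp [pc]
  rw [h1]
  have h2 : derivative (C (v : ℚ) * (X + C (M : ℚ)) ^ y + C (u : ℚ)) =
      C (v : ℚ) * (C (y : ℚ) * (X + C (M : ℚ)) ^ (y - 1)) := by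
    simp [derivative_pow]
  rw [h2]
  have h3 : (X + C (M : ℚ)) ^ y = (X + C (M : ℚ)) * (X + C (M : ℚ)) ^ (y - 1) := by
    rw [← pow_succ', Nat.sub_add_cancel hy]
  rw [h3]
  have h4 : C (1 / (u : ℚ)) * C (u : ℚ) = (1 : ℚ[X]) := by
    rw [← C_mul, one_div_mul_cancel hu', C_1]
  have h5 : C (1 / ((u : ℚ) * y)) * C (y : ℚ) = C (1 / (u : ℚ)) := by
    rw [← C_mul]
    congr 1
    field_simp
  calc C (1 / (u : ℚ)) * (C (v : ℚ) * ((X + C (M : ℚ)) * (X + C (M : ℚ)) ^ (y - 1)) + C (u : ℚ)) +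
      -C (1 / ((u : ℚ) * y)) * (X + C (M : ℚ)) *
        (C (v : ℚ) * (C (y : ℚ) * (X + C (M : ℚ)) ^ (y - 1)))
      = C (1 / (u : ℚ)) * C (u : ℚ) + (C (1 / (u : ℚ)) - C (1 / ((u : ℚ) * y)) * C (y : ℚ)) *
        (C (v : ℚ) * ((X + C (M : ℚ)) * (X + C (M : ℚ)) ^ (y - 1))) := by ring
    _ = 1 := by rw [h4, h5]; ring

/-- one pair of exponents -/
theorem one_pairC (N D k y : ℕ) (M u v s : ℤ) (α ε : ℝ) (hD : 2 ≤ D) (hN : 2 ≤ N) (hk : 1 ≤ k)
    (hk3 : k ≤ 5 * D) (hy : 1 ≤ y) (hy2 : y ≤ 2 * D) (hu : u ≠ 0) (hv : v ≠ 0) (hs : s ≠ 0)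
    (hα : 1 / (k : ℝ) + ε ≤ α) (hε : 6 ≤ ε * Real.log N)
    (hud : Real.log |(u : ℝ)| ≤ D) (hvd : Real.log |(v : ℝ)| ≤ D) (hsd : Real.log |(s : ℝ)| ≤ D)
    (hx : (10 * D : ℝ) ≤ (N : ℝ) ^ α)
    (hgap : (N : ℝ) ^ α < Chebyshev.theta (5 * (N : ℝ) ^ α) - Chebyshev.theta ((N : ℝ) ^ α))
    (T : Finset ℤ) (hT : ∀ t ∈ T, |t| ≤ N ∧ ∃ z : ℤ, |z| ≤ ((3 ^ (4 * D) : ℕ) : ℤ) ∧
      s * z ^ k = v * (t + M) ^ y + u) :
    (T.card : ℝ) ≤ 600 * (N : ℝ) ^ α * D ^ 6 := by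
  have hN1 : (1 : ℝ) < N := by exact_mod_cast hN
  have hD' : (2 : ℝ) ≤ D := by exact_mod_cast hD
  have hk' : (1 : ℝ) ≤ k := by exact_mod_cast hk
  have hy' : (1 : ℝ) ≤ y := by exact_mod_cast hy
  have hlogN : 0 < Real.log N := Real.log_pos hN1
  have hε0 : 0 < ε := by
    by_contra h
    push Not at h
    nlinarith
  have hα0 : 0 < α := by
    have : 0 < 1 / (k : ℝ) := by positivity
    linarith
  set x : ℝ := (N : ℝ) ^ α with hxdef
  have hx0 : 0 < x := by positivity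
  -- the prime
  have hw : u * v * s * (y * k : ℕ) ≠ 0 := by
    refine mul_ne_zero (mul_ne_zero (mul_ne_zero hu hv) hs) ?_
    have : y * k ≠ 0 := by positivity
    exact_mod_cast this
  have hlogw : Real.log |((u * v * s * (y * k : ℕ) : ℤ) : ℝ)| ≤ x := by
    have hu' : (0 : ℝ) < |(u : ℝ)| := by
      have : (u : ℝ) ≠ 0 := by exact_mod_cast hu
      positivity
    have hv' : (0 : ℝ) < |(v : ℝ)| := by
      have : (v : ℝ) ≠ 0 := by exact_mod_cast hv
      positivity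
    have hs' : (0 : ℝ) < |(s : ℝ)| := by
      have : (s : ℝ) ≠ 0 := by exact_mod_cast hs
      positivity
    have habs : |((u * v * s * (y * k : ℕ) : ℤ) : ℝ)| =
        |(u : ℝ)| * |(v : ℝ)| * |(s : ℝ)| * ((y : ℝ) * k) := by
      push_cast
      rw [abs_mul, abs_mul, abs_mul, abs_of_nonneg (show (0 : ℝ) ≤ (y : ℝ) * k by positivity)]
    rw [habs, Real.log_mul (by positivity) (by positivity),
      Real.log_mul (by positivity) (by positivity), Real.log_mul (by positivity) (by positivity),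
      Real.log_mul (by positivity) (by positivity)]
    have h1 : Real.log y ≤ 2 * D := by
      have h2 : Real.log y ≤ y - 1 := Real.log_le_sub_one_of_pos (by linarith)
      have h3 : (y : ℝ) ≤ 2 * D := by exact_mod_cast hy2
      linarith
    have h2 : Real.log k ≤ 5 * D := by
      have h2 : Real.log k ≤ k - 1 := Real.log_le_sub_one_of_pos (by linarith)
      have h3 : (k : ℝ) ≤ 5 * D := by exact_mod_cast hk3
      linarith
    linarith
  obtain ⟨q, hq, hxq, hq5, hqv⟩ := exists_prime x _ hw hgap hx0.le hlogw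
  have hqZ : Prime (q : ℤ) := Nat.prime_iff_prime_int.1 hq
  have hqu : ¬ (q : ℤ) ∣ u := fun h => hqv (((h.mul_right _).mul_right _).mul_right _)
  have hqvv : ¬ (q : ℤ) ∣ v := fun h => hqv (((h.mul_left _).mul_right _).mul_right _)
  have hqs : ¬ (q : ℤ) ∣ s := fun h => hqv ((h.mul_left _).mul_right _)
  have hqy : ¬ (q : ℤ) ∣ (y : ℤ) := fun h => hqv (by
    push_cast
    exact (h.mul_right _).mul_left _)
  have hqk : ¬ q ∣ k := fun h => hqv (by
    push_cast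
    exact ((Int.natCast_dvd_natCast.2 h).mul_left _).mul_left _)
  have hsize := size_ok k (D ^ 4) N (3 ^ (4 * D)) q α ε hk (Nat.one_le_pow _ _ (by omega)) hN
    (Nat.one_le_pow _ _ (by norm_num)) hα hxq.le hε (by
      push_cast
      rw [Real.log_pow]
      push_cast
      have h1 : Real.log 3 ≤ 2 := by
        have := Real.log_le_sub_one_of_pos (show (0 : ℝ) < 3 by norm_num)
        linarith
      have h2 : (4 : ℝ) * D * Real.log 3 ≤ 8 * D := by nlinarith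
      have h3 : (8 : ℝ) ≤ D ^ 3 := by
        calc (8 : ℝ) = 2 ^ 3 := by norm_num
          _ ≤ D ^ 3 := pow_le_pow_left₀ (by norm_num) hD' 3
      have h4 : (8 : ℝ) * D ≤ D ^ 3 * D := mul_le_mul_of_nonneg_right h3 (by linarith)
      calc (4 : ℝ) * D * Real.log 3 ≤ 8 * D := h2
        _ ≤ D ^ 3 * D := h4
        _ = D ^ 4 := by ring)
  have hmain := Pool.Agent.N445.VW.bp_prime2 (pc M u v y) (by rw [pc_natDegree M u hv]; exact hy)
    (pc_sep M hu hv hy) s hs k hk (D ^ 4) N (3 ^ (4 * D)) q hq hqs hqk hsize T (by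
      intro t ht
      obtain ⟨h1, z, h2, h3⟩ := hT t ht
      exact ⟨h1, z, h2, by rw [pc_eval]; exact h3⟩) (by
      intro t ht h1 h2
      rw [pc_eval] at h1
      rw [pc_deriv] at h2
      rcases hqZ.dvd_or_dvd h2 with h0 | h0
      · exact hqvv h0
      rcases hqZ.dvd_or_dvd h0 with h3 | h3
      · exact hqy h3
      · have h4 := hqZ.dvd_of_dvd_pow h3
        have h5 : (q : ℤ) ∣ v * (t + M) ^ y := (dvd_pow h4 (by omega)).mul_left _
        exact hqu (by simpa using dvd_sub h1 h5))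
  rw [pc_natDegree M u hv] at hmain
  have h1 : 2 * N / q ^ k + 1 ≤ 3 := by
    have h2 : 2 * N / q ^ k ≤ 2 := by
      have h3 : N ≤ q ^ k := by
        have h4 : (N : ℝ) ≤ (q : ℝ) ^ k := by
          calc (N : ℝ) ≤ ((N : ℝ) ^ α) ^ k := by
                rw [← Real.rpow_natCast, ← Real.rpow_mul (by linarith)]
                conv_lhs => rw [← Real.rpow_one (N : ℝ)]
                refine Real.rpow_le_rpow_of_exponent_le hN1.le ?_
                calc (1 : ℝ) ≤ (1 / (k : ℝ) + ε) * k := by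
                      have : (1 / (k : ℝ) + ε) * k = 1 + ε * k := by field_simp
                      rw [this]
                      have : 0 ≤ ε * k := by positivity
                      linarith
                  _ ≤ α * k := by gcongr
            _ ≤ (q : ℝ) ^ k := pow_le_pow_left₀ (by positivity) hxq.le _
        exact_mod_cast h4
      calc 2 * N / q ^ k ≤ 2 * q ^ k / q ^ k := Nat.div_le_div_right (by omega)
        _ = 2 := Nat.mul_div_cancel _ (Nat.pos_of_ne_zero (pow_ne_zero _ hq.ne_zero))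
    omega
  have h2 : T.card ≤ (2 * D) * 3 + (q * (5 * D)) * (2 * (5 * D) * (2 * D + D ^ 4)) := by
    refine hmain.trans (Nat.add_le_add (Nat.mul_le_mul hy2 h1) ?_)
    gcongr
  have h3 : (T.card : ℝ) ≤ (2 * D) * 3 + (q * (5 * D)) * (2 * (5 * D) * (2 * D + D ^ 4)) := by
    exact_mod_cast h2
  refine h3.trans ?_
  have hx1 : 1 ≤ x := by linarith
  have h4 : (2 * D + D ^ 4 : ℝ) ≤ 2 * D ^ 4 := by
    have h5 : (2 : ℝ) ≤ D ^ 3 := by
      calc (2 : ℝ) ≤ 2 ^ 3 := by norm_num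
        _ ≤ D ^ 3 := pow_le_pow_left₀ (by norm_num) hD' 3
    have h6 : (2 : ℝ) * D ≤ D ^ 3 * D := mul_le_mul_of_nonneg_right h5 (by linarith)
    calc (2 * D + D ^ 4 : ℝ) ≤ D ^ 3 * D + D ^ 4 := by linarith
      _ = 2 * D ^ 4 := by ring
  have h5 : ((q : ℝ) * (5 * D)) * (2 * (5 * D) * (2 * D + D ^ 4)) ≤
      ((5 * x) * (5 * D)) * (2 * (5 * D) * (2 * D ^ 4)) := by gcongr
  have h6 : ((5 * x) * (5 * D)) * (2 * (5 * D) * (2 * (D : ℝ) ^ 4)) = 500 * x * D ^ 6 := by ring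
  have h8 : (2 * D * 3 : ℝ) ≤ 6 * x * D ^ 6 := by
    have : (D : ℝ) ≤ D ^ 6 := by
      calc (D : ℝ) = D ^ 1 := by ring
        _ ≤ D ^ 6 := pow_le_pow_right₀ (by linarith) (by norm_num)
    nlinarith [mul_le_mul hx1 this (by positivity) hx0.le]
  have h10 : 0 ≤ x * (D : ℝ) ^ 6 := by positivity
  linarith

/-- `v b ^ y + u` is `± s` times a `k`-th power, for some `y ≥ 1` and `k ≥ K` with `b ^ y ≤ W` -/
def Pc (K : ℕ) (W : ℝ) (u v s : ℤ) (b : ℕ) : Prop :=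
  ∃ y k c : ℕ, 1 ≤ y ∧ K ≤ k ∧ (b : ℝ) ^ y ≤ W ∧ |v * (b : ℤ) ^ y + u| = |s| * (c : ℤ) ^ k

/-- the exponents may be taken small -/
theorem reduceC {K D : ℕ} {u v s₀ : ℤ} {b : ℕ} (hK : 1 ≤ K) (hKD : K ≤ D) (hb : 2 ≤ b)
    (hs₀ : s₀ ≠ 0)
    (hu : |(u : ℝ)| ≤ Real.exp D) (hv : |(v : ℝ)| ≤ Real.exp D) (h : Pc K (Real.exp D) u v s₀ b) :
    ∃ (y k : ℕ) (s z : ℤ), 1 ≤ y ∧ y ≤ 2 * D ∧ K ≤ k ∧ k ≤ 4 * D + 1 ∧ (s = s₀ ∨ s = -s₀) ∧
      |z| ≤ ((3 ^ (4 * D) : ℕ) : ℤ) ∧ s * z ^ k = v * (b : ℤ) ^ y + u := by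
  obtain ⟨y, k, c, hy, hk, hW, he⟩ := h
  have hD : 1 ≤ D := hK.trans hKD
  have hy2 : y ≤ 2 * D := by
    refine le_two_mul y D (le_trans ?_ hW)
    exact pow_le_pow_left₀ (by norm_num) (by exact_mod_cast hb) _
  have hs₀' : (1 : ℝ) ≤ |(s₀ : ℝ)| := by
    have : 1 ≤ |s₀| := Int.one_le_abs hs₀
    exact_mod_cast this
  have hexp1 : (1 : ℝ) ≤ Real.exp D := Real.one_le_exp (by positivity)
  have hle : ((c : ℝ)) ^ k ≤ 2 * (Real.exp D * Real.exp D) := by
    have h1 : |(v : ℝ) * ((b : ℝ)) ^ y + u| = |(s₀ : ℝ)| * (c : ℝ) ^ k := by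
      exact_mod_cast congrArg (Int.cast : ℤ → ℝ) he
    have h2 : (c : ℝ) ^ k ≤ |(s₀ : ℝ)| * (c : ℝ) ^ k := le_mul_of_one_le_left (by positivity) hs₀'
    refine h2.trans ?_
    rw [← h1]
    refine (abs_add_le _ _).trans ?_
    rw [abs_mul, abs_of_nonneg (show (0 : ℝ) ≤ (b : ℝ) ^ y by positivity)]
    have h3 : |(v : ℝ)| * (b : ℝ) ^ y ≤ Real.exp D * Real.exp D :=
      mul_le_mul hv hW (by positivity) (by positivity)
    have h4 : Real.exp D ≤ Real.exp D * Real.exp D := le_mul_of_one_le_left (by positivity) hexp1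
    linarith
  have h3D : 2 * (Real.exp D * Real.exp D) ≤ ((3 ^ (4 * D) : ℕ) : ℝ) := by
    push_cast
    have h1 := exp_nat_le D
    have h2 : (2 : ℝ) ≤ 3 ^ D := by
      calc (2 : ℝ) ≤ 3 ^ 1 := by norm_num
        _ ≤ 3 ^ D := pow_le_pow_right₀ (by norm_num) hD
    have h4 : (1 : ℝ) ≤ 3 ^ D := by linarith
    calc 2 * (Real.exp D * Real.exp D) ≤ 3 ^ D * (3 ^ D * 3 ^ D) := by gcongr
      _ ≤ 3 ^ D * (3 ^ D * 3 ^ D) * 3 ^ D := le_mul_of_one_le_right (by positivity) h4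
      _ = 3 ^ (4 * D) := by rw [← pow_add, ← pow_add, ← pow_add]; congr 1; ring
  have hs : ∃ s : ℤ, (s = s₀ ∨ s = -s₀) ∧ s * (c : ℤ) ^ k = v * (b : ℤ) ^ y + u := by
    rcases abs_cases (v * (b : ℤ) ^ y + u) with h | h <;> rcases abs_cases s₀ with h' | h'
    · exact ⟨s₀, Or.inl rfl, by rw [← h.1, he, h'.1]⟩
    · exact ⟨-s₀, Or.inr rfl, by rw [← h.1, he, h'.1]⟩
    · refine ⟨-s₀, Or.inr rfl, ?_⟩
      have h1 := h.1
      rw [he, h'.1] at h1
      linarith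
    · refine ⟨s₀, Or.inl rfl, ?_⟩
      have h1 := h.1
      rw [he, h'.1] at h1
      linarith
  obtain ⟨s, hs, hse⟩ := hs
  have h39 : (1 : ℤ) ≤ ((3 ^ (4 * D) : ℕ) : ℤ) := by exact_mod_cast Nat.one_le_pow _ _ (by norm_num)
  rcases Nat.lt_or_ge c 2 with hc | hc
  · refine ⟨y, K, s, c, hy, hy2, le_refl _, by omega, hs, ?_, ?_⟩
    · rw [abs_of_nonneg (by positivity)]
      omega
    · rw [← hse]
      interval_cases c
      · rw [Nat.cast_zero, zero_pow (by omega), zero_pow (by omega)]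
      · rw [Nat.cast_one, one_pow, one_pow]
  · refine ⟨y, k, s, c, hy, hy2, hk, ?_, hs, ?_, hse⟩
    · have h1 : (2 : ℝ) ^ k ≤ 2 * (Real.exp D * Real.exp D) := by
        refine le_trans ?_ hle
        exact pow_le_pow_left₀ (by norm_num) (by exact_mod_cast hc) _
      rcases Nat.eq_zero_or_pos k with h0 | h0
      · omega
      · have h3 : (2 : ℝ) ^ (k - 1) ≤ Real.exp ((2 * D : ℕ) : ℝ) := by
          have h4 : (2 : ℝ) ^ k = 2 * 2 ^ (k - 1) := by
            rw [← pow_succ', Nat.sub_add_cancel h0]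
          have h5 : Real.exp ((2 * D : ℕ) : ℝ) = Real.exp D * Real.exp D := by
            rw [← Real.exp_add]
            congr 1
            push_cast
            ring
          rw [h5]
          linarith
        have := le_two_mul _ _ h3
        omega
    · rw [abs_of_nonneg (by positivity)]
      have h1 : (c : ℝ) ≤ (c : ℝ) ^ k := by
        have h2 : (1 : ℝ) ≤ c := by
          have : 1 ≤ c := by omega
          exact_mod_cast this
        exact le_self_pow₀ h2 (by omega)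
      have h2 : (c : ℝ) ≤ ((3 ^ (4 * D) : ℕ) : ℝ) := by linarith
      exact_mod_cast h2

end Pool.Agent.H8FC
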