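import Mathlib
import Pool.Agent.H8FC.OneC

/-! # Few bases of an interval for a given term, with coefficients -/

set_option autoImplicit false

namespace Pool.Agent.H8FC

open Finset

theorem countC (K₀ : ℕ) (ε₀ : ℝ) (N D : ℕ) (hD : 2 ≤ D) (hKD : K₀ ≤ D) (hN : 2 ≤ N)
    (hε : 6 ≤ ε₀ * Real.log N) (hx : (10 * D : ℝ) ≤ (N : ℝ) ^ ε₀)
    (hgap : ∀ x : ℝ, (N : ℝ) ^ ε₀ ≤ x → x < Chebyshev.theta (5 * x) - Chebyshev.theta x)
    (K : ℕ) (hK : 1 ≤ K) (hKK : K ≤ K₀) (M : ℕ) (u v s₀ : ℤ) (hu : u ≠ 0) (hv : v ≠ 0)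
    (hs₀ : s₀ ≠ 0) (hud : |(u : ℝ)| ≤ Real.exp D) (hvd : |(v : ℝ)| ≤ Real.exp D)
    (hsd : |(s₀ : ℝ)| ≤ Real.exp D) (S : Finset ℕ)
    (hS : ∀ b ∈ S, M < b ∧ b ≤ M + N ∧ Pc K (Real.exp D) u v s₀ b) :
    (S.card : ℝ) ≤ 12001 * (N : ℝ) ^ (1 / (K : ℝ) + ε₀) * D ^ 8 := by
  classical
  have hN1 : (1 : ℝ) < N := by exact_mod_cast hN
  have hD' : (2 : ℝ) ≤ D := by exact_mod_cast hD
  set α : ℝ := 1 / (K : ℝ) + ε₀ with hα
  have hK0 : (0 : ℝ) < K := by exact_mod_cast hK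
  have hNα : (N : ℝ) ^ ε₀ ≤ (N : ℝ) ^ α :=
    Real.rpow_le_rpow_of_exponent_le hN1.le (by rw [hα]; have : 0 ≤ 1 / (K : ℝ) := by positivity
                                                linarith)
  have hlog : ∀ w : ℤ, w ≠ 0 → |(w : ℝ)| ≤ Real.exp D → Real.log |(w : ℝ)| ≤ D := by
    intro w hw hwd
    rw [← Real.log_exp (D : ℝ)]
    have : (w : ℝ) ≠ 0 := by exact_mod_cast hw
    exact Real.log_le_log (by positivity) hwd
  -- the sets of points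
  set P : Finset (ℕ × ℕ × ℤ) := (Icc 1 (2 * D)) ×ˢ (Icc K (5 * D)) ×ˢ ({s₀, -s₀} : Finset ℤ)
    with hP
  set T : ℕ × ℕ × ℤ → Finset ℤ := fun p => (Icc (1 : ℤ) N).filter fun t =>
    ∃ z : ℤ, |z| ≤ ((3 ^ (4 * D) : ℕ) : ℤ) ∧ p.2.2 * z ^ p.2.1 = v * (t + M) ^ p.1 + u with hT
  have hcard : ∀ p ∈ P, ((T p).card : ℝ) ≤ 600 * (N : ℝ) ^ α * D ^ 6 := by
    rintro ⟨y, k, s⟩ hp
    simp only [hP, mem_product, mem_Icc, mem_insert, mem_singleton] at hp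
    obtain ⟨⟨hy1, hy2⟩, ⟨hk1, hk2⟩, hs⟩ := hp
    have hk0 : (0 : ℝ) < k := by
      have : 0 < k := by omega
      exact_mod_cast this
    have hs1 : s ≠ 0 := by
      rcases hs with rfl | rfl
      · exact hs₀
      · exact neg_ne_zero.2 hs₀
    have hs2 : |(s : ℝ)| ≤ Real.exp D := by
      rcases hs with rfl | rfl
      · exact hsd
      · push_cast; rw [abs_neg]; exact hsd
    refine one_pairC N D k y M u v s α ε₀ hD hN (hK.trans hk1) hk2 hy1 hy2 hu hv hs1 ?_ hε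
      (hlog u hu hud) (hlog v hv hvd) (hlog s hs1 hs2)
      (hx.trans hNα) (hgap _ hNα) (T (y, k, s)) ?_
    · rw [hα]
      have : 1 / (k : ℝ) ≤ 1 / K := by
        apply one_div_le_one_div_of_le hK0
        exact_mod_cast hk1
      linarith
    · intro t ht
      simp only [hT, mem_filter, mem_Icc] at ht
      obtain ⟨⟨h1, h2⟩, z, h3, h4⟩ := ht
      refine ⟨?_, z, h3, h4⟩
      rw [abs_of_nonneg (by omega)]
      exact h2
  have hcover : (S.filter fun b => 2 ≤ b).card ≤ (P.biUnion T).card := by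
    refine card_le_card_of_injOn (fun b : ℕ => (b : ℤ) - M) ?_ ?_
    · intro b hb
      rw [mem_coe, mem_filter] at hb
      obtain ⟨h1, h2, h3⟩ := hS b hb.1
      obtain ⟨y, k, s, z, hy1, hy2, hk1, hk2, hs, hz, he⟩ :=
        reduceC hK (hKK.trans hKD) hb.2 hs₀ hud hvd h3
      rw [mem_coe, mem_biUnion]
      refine ⟨(y, k, s), ?_, ?_⟩
      · simp only [hP, mem_product, mem_Icc, mem_insert, mem_singleton]
        exact ⟨⟨hy1, hy2⟩, ⟨hk1, by omega⟩, hs⟩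
      · simp only [hT, mem_filter, mem_Icc]
        refine ⟨⟨by omega, by omega⟩, z, hz, ?_⟩
        rw [he, sub_add_cancel]
    · intro b _ b' _ h
      simp only at h
      omega
  have h1 : S.card ≤ (S.filter fun b => 2 ≤ b).card + 1 := by
    rw [← card_filter_add_card_filter_not (s := S) (fun b => 2 ≤ b)]
    refine Nat.add_le_add_left ?_ _
    rw [card_le_one]
    intro a ha b hb
    rw [mem_filter] at ha hb
    have := (hS a ha.1).1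
    have := (hS b hb.1).1
    omega
  have hPc : (P.card : ℝ) ≤ 20 * (D : ℝ) ^ 2 := by
    have h2 : P.card ≤ (2 * D) * ((5 * D) * 2) := by
      rw [hP, card_product, card_product, Nat.card_Icc, Nat.card_Icc]
      gcongr
      · omega
      · omega
      · exact card_le_two
    have h3 : (P.card : ℝ) ≤ (2 * D) * ((5 * D) * 2) := by exact_mod_cast h2
    linarith [h3, show ((2 * D) * ((5 * D) * 2) : ℝ) = 20 * (D : ℝ) ^ 2 by ring]
  have h2 : ((P.biUnion T).card : ℝ) ≤ 12000 * (N : ℝ) ^ α * D ^ 8 := by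
    calc ((P.biUnion T).card : ℝ) ≤ ((∑ p ∈ P, (T p).card : ℕ) : ℝ) := by
          exact_mod_cast card_biUnion_le
      _ = ∑ p ∈ P, ((T p).card : ℝ) := by push_cast; rfl
      _ ≤ ∑ _p ∈ P, 600 * (N : ℝ) ^ α * D ^ 6 := sum_le_sum hcard
      _ = P.card * (600 * (N : ℝ) ^ α * D ^ 6) := by rw [sum_const, nsmul_eq_mul]
      _ ≤ (20 * (D : ℝ) ^ 2) * (600 * (N : ℝ) ^ α * D ^ 6) := by gcongr
      _ = 12000 * (N : ℝ) ^ α * D ^ 8 := by ring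
  have h3 : (S.card : ℝ) ≤ ((P.biUnion T).card : ℝ) + 1 := by
    have : S.card ≤ (P.biUnion T).card + 1 := by omega
    exact_mod_cast this
  have h4 : (1 : ℝ) ≤ (N : ℝ) ^ α * D ^ 8 := by
    have h5 : (1 : ℝ) ≤ (N : ℝ) ^ α := by linarith
    have h6 : (1 : ℝ) ≤ (D : ℝ) ^ 8 := one_le_pow₀ (by linarith)
    exact one_le_mul_of_one_le_of_one_le h5 h6
  linarith

/-- **Few bases for a given term**, with coefficients. -/
theorem few_basesC (ε : ℝ) (hε : 0 < ε) : ∃ δ : ℝ, 0 < δ ∧ ∃ N₀ : ℕ, ∀ N : ℕ, N₀ ≤ N →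
    ∀ K : ℕ, 1 ≤ K → ∀ (M : ℕ) (u v s₀ : ℤ), u ≠ 0 → v ≠ 0 → s₀ ≠ 0 →
      |(u : ℝ)| ≤ Real.exp ((N : ℝ) ^ δ) → |(v : ℝ)| ≤ Real.exp ((N : ℝ) ^ δ) →
      |(s₀ : ℝ)| ≤ Real.exp ((N : ℝ) ^ δ) →
      ∀ S : Finset ℕ, (∀ b ∈ S, M < b ∧ b ≤ M + N ∧ Pc K (Real.exp ((N : ℝ) ^ δ)) u v s₀ b) →
        (S.card : ℝ) ≤ (N : ℝ) ^ (1 / (K : ℝ) + ε) := by
  set ε₀ : ℝ := ε / 4 with hε₀
  set δ : ℝ := ε / 40 with hδ
  set K₀ : ℕ := ⌈4 / ε⌉₊ + 1 with hK₀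
  obtain ⟨x₀, hx₀, hgap⟩ := theta_gap
  have hε₀pos : 0 < ε₀ := by positivity
  have hδpos : 0 < δ := by positivity
  have hcast : Filter.Tendsto (fun N : ℕ => (N : ℝ)) Filter.atTop Filter.atTop :=
    tendsto_natCast_atTop_atTop
  have hpow : ∀ c : ℝ, 0 < c → Filter.Tendsto (fun N : ℕ => (N : ℝ) ^ c) Filter.atTop Filter.atTop :=
    fun c hc => (tendsto_rpow_atTop hc).comp hcast
  have hlog : Filter.Tendsto (fun N : ℕ => ε₀ * Real.log (N : ℝ)) Filter.atTop Filter.atTop :=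
    Filter.Tendsto.const_mul_atTop hε₀pos (Real.tendsto_log_atTop.comp hcast)
  have hev : ∀ᶠ N : ℕ in Filter.atTop, 2 ≤ N ∧ (K₀ + 2 : ℝ) ≤ (N : ℝ) ^ δ ∧
      6 ≤ ε₀ * Real.log (N : ℝ) ∧ 20 ≤ (N : ℝ) ^ (ε₀ - δ) ∧ x₀ ≤ (N : ℝ) ^ ε₀ ∧
      12001 * 2 ^ 8 ≤ (N : ℝ) ^ (3 * ε / 10) :=
    (Filter.eventually_ge_atTop 2).and (((hpow δ hδpos).eventually_ge_atTop _).and
      ((hlog.eventually_ge_atTop _).and (((hpow (ε₀ - δ) (by rw [hε₀, hδ]; linarith)).eventually_ge_atTop _).and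
        (((hpow ε₀ hε₀pos).eventually_ge_atTop _).and
          ((hpow (3 * ε / 10) (by positivity)).eventually_ge_atTop _)))))
  obtain ⟨N₀, hN₀⟩ := Filter.eventually_atTop.1 hev
  refine ⟨δ, hδpos, N₀, fun N hN K hK M u v s₀ hu hv hs₀ hud hvd hsd S hS => ?_⟩
  obtain ⟨hN2, hNδ, hlogN, h12, hx0N, hconst⟩ := hN₀ N hN
  have hN1 : (1 : ℝ) < N := by exact_mod_cast hN2
  have hN0 : (0 : ℝ) < N := by linarith
  set D : ℕ := ⌈(N : ℝ) ^ δ⌉₊ with hD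
  have hD1 : (N : ℝ) ^ δ ≤ D := Nat.le_ceil _
  have hD2 : (D : ℝ) ≤ 2 * (N : ℝ) ^ δ := by
    have h1 := Nat.ceil_lt_add_one (show 0 ≤ (N : ℝ) ^ δ by positivity)
    have h2 : (0 : ℝ) ≤ K₀ := Nat.cast_nonneg _
    linarith
  have hDK : K₀ + 2 ≤ D := by
    have : ((K₀ + 2 : ℕ) : ℝ) ≤ D := by push_cast; linarith
    exact_mod_cast this
  have hexp : Real.exp ((N : ℝ) ^ δ) ≤ Real.exp D := Real.exp_le_exp.2 hD1
  set K' : ℕ := min K K₀ with hK'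
  have hK'1 : 1 ≤ K' := le_min hK (by omega)
  have hcount := countC K₀ ε₀ N D (by omega) (by omega) hN2 hlogN (by
      calc (10 * D : ℝ) ≤ 10 * (2 * (N : ℝ) ^ δ) := by gcongr
        _ = 20 * (N : ℝ) ^ δ := by ring
        _ ≤ (N : ℝ) ^ (ε₀ - δ) * (N : ℝ) ^ δ := by gcongr
        _ = (N : ℝ) ^ ε₀ := by rw [← Real.rpow_add hN0]; congr 1; ring)
    (fun x hx => hgap x (hx0N.trans hx)) K' hK'1 (min_le_right _ _) M u v s₀ hu hv hs₀
    (hud.trans hexp) (hvd.trans hexp) (hsd.trans hexp) S (by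
      intro b hb
      obtain ⟨h1, h2, y, k, c, hy, hk, hW, he⟩ := hS b hb
      exact ⟨h1, h2, y, k, c, hy, (min_le_left _ _).trans hk, hW.trans hexp, he⟩)
  have hinv : 1 / (K' : ℝ) ≤ 1 / (K : ℝ) + ε / 4 := by
    rcases le_total K K₀ with h | h
    · rw [hK', min_eq_left h]
      linarith
    · rw [hK', min_eq_right h]
      have h1 : 4 / ε ≤ K₀ := by
        rw [hK₀]; push_cast
        have := Nat.le_ceil (4 / ε)
        linarith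
      have h2 : 1 / (K₀ : ℝ) ≤ ε / 4 := by
        rw [div_le_iff₀ (by rw [hK₀]; positivity)]
        rw [div_le_iff₀ hε] at h1
        nlinarith
      have h3 : 0 ≤ 1 / (K : ℝ) := by positivity
      linarith
  calc (S.card : ℝ) ≤ 12001 * (N : ℝ) ^ (1 / (K' : ℝ) + ε₀) * D ^ 8 := hcount
    _ ≤ 12001 * (N : ℝ) ^ (1 / (K : ℝ) + ε / 4 + ε₀) * (2 * (N : ℝ) ^ δ) ^ 8 := by
        gcongr
        exact hN1.le
    _ = (12001 * 2 ^ 8) * ((N : ℝ) ^ (1 / (K : ℝ) + ε / 4 + ε₀) * (N : ℝ) ^ (8 * δ)) := by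
        rw [mul_pow, ← Real.rpow_natCast ((N : ℝ) ^ δ) 8, ← Real.rpow_mul hN0.le]
        push_cast
        rw [mul_comm δ 8]
        ring
    _ ≤ (N : ℝ) ^ (3 * ε / 10) * ((N : ℝ) ^ (1 / (K : ℝ) + ε / 4 + ε₀) * (N : ℝ) ^ (8 * δ)) := by
        gcongr
    _ = (N : ℝ) ^ (1 / (K : ℝ) + ε) := by
        rw [← Real.rpow_add hN0, ← Real.rpow_add hN0]
        congr 1
        rw [hε₀, hδ]
        ring

end Pool.Agent.H8FC
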