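import Pool.Agent.H8FC.Vals

/-!
# Few pairs of terms with bases in short intervals
-/

set_option autoImplicit false

namespace Pool.Agent.H8FC

theorem Sol.mono {M₁ M₂ N R R' : ℕ} {E E' : ℝ} {α β γ : ℤ} {a x b y c k : ℕ}
    (h : Sol M₁ M₂ N R E α β γ a x b y c k) (hR : R' ≤ R) (hE : E ≤ E') :
    Sol M₁ M₂ N R' E' α β γ a x b y c k :=
  ⟨h.ha, h.hb, h.cop, h.hx, h.hy, h.hc, hR.trans h.hk, h.hax.trans hE, h.hby.trans hE, h.eq⟩

/-- the exponent of a bounded power may be taken small -/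
theorem small_exp {n e D : ℕ} (hn : 1 ≤ n) (he : 1 ≤ e) (hD : 1 ≤ D)
    (h : (n : ℝ) ^ e ≤ Real.exp D) : ∃ e', n ^ e' = n ^ e ∧ 1 ≤ e' ∧ e' ≤ 2 * D := by
  rcases Nat.lt_or_ge n 2 with h7 | h7
  · have : n = 1 := by omega
    subst this
    exact ⟨1, by simp, le_rfl, by omega⟩
  · refine ⟨e, rfl, he, le_two_mul e D (le_trans ?_ h)⟩
    exact pow_le_pow_left₀ (by norm_num) (by exact_mod_cast h7) _

/-- the quadruples with a given third term -/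
theorem fiber_count {M₁ M₂ N R m D : ℕ} {E W B : ℝ} {α β γ : ℤ} (hD : 1 ≤ D) (hED : E ≤ Real.exp D)
    (hEW : E ≤ W) (hα : α ≠ 0) (hβ : β ≠ 0) (w : ℕ)
    (h1 : ∀ S : Finset ℕ, (∀ b ∈ S, M₂ < b ∧ b ≤ M₂ + N ∧ Pc m W (-(γ * w)) β α b) →
      (S.card : ℝ) ≤ B)
    (h2 : ∀ S : Finset ℕ, (∀ b ∈ S, M₁ < b ∧ b ≤ M₁ + N ∧ Pc m W (-(γ * w)) α β b) →
      (S.card : ℝ) ≤ B)
    (S : Finset ((ℕ × ℕ) × (ℕ × ℕ)))
    (hS : ∀ s ∈ S, ∃ x y c k : ℕ, Sol M₁ M₂ N R E α β γ s.1.1 x s.1.2 y c k ∧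
      (m ≤ x ∨ m ≤ y) ∧ s.2 = (s.1.1 ^ x, s.1.2 ^ y) ∧ w = c ^ k) :
    (S.card : ℝ) ≤ 2 * (B * (2 * D) ^ 2) := by
  classical
  set S1 := S.filter fun s => ∃ x y c k : ℕ, Sol M₁ M₂ N R E α β γ s.1.1 x s.1.2 y c k ∧
      m ≤ x ∧ s.2 = (s.1.1 ^ x, s.1.2 ^ y) ∧ w = c ^ k with hS1
  set S2 := S.filter fun s => ∃ x y c k : ℕ, Sol M₁ M₂ N R E α β γ s.1.1 x s.1.2 y c k ∧
      m ≤ y ∧ s.2 = (s.1.1 ^ x, s.1.2 ^ y) ∧ w = c ^ k with hS2
  have hcov : S ⊆ S1 ∪ S2 := by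
    intro s hs
    obtain ⟨x, y, c, k, k1, k2, k3, k4⟩ := hS s hs
    rcases k2 with k2 | k2
    · exact Finset.mem_union_left _ (Finset.mem_filter.2 ⟨hs, x, y, c, k, k1, k2, k3, k4⟩)
    · exact Finset.mem_union_right _ (Finset.mem_filter.2 ⟨hs, x, y, c, k, k1, k2, k3, k4⟩)
  have hB0 : 0 ≤ B := by simpa using h1 ∅ (by simp)
  -- the first part
  have c1 : (S1.card : ℝ) ≤ B * (2 * D) ^ 2 := by
    have hex : ∀ s : (ℕ × ℕ) × (ℕ × ℕ), ∃ e : ℕ × ℕ, s ∈ S1 →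
        s.1.1 ^ e.1 = s.2.1 ∧ s.1.2 ^ e.2 = s.2.2 ∧ 1 ≤ e.1 ∧ e.1 ≤ 2 * D ∧ 1 ≤ e.2 ∧
          e.2 ≤ 2 * D := by
      intro s
      by_cases hs : s ∈ S1
      · obtain ⟨-, x, y, c, k, k1, k2, k3, k4⟩ := Finset.mem_filter.1 hs
        obtain ⟨x', x1, x2, x3⟩ := small_exp (by have := k1.ha.1; omega) k1.hx hD
          (k1.hax.trans hED)
        obtain ⟨y', y1, y2, y3⟩ := small_exp (by have := k1.hb.1; omega) k1.hy hD
          (k1.hby.trans hED)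
        exact ⟨(x', y'), fun _ => ⟨by rw [x1, k3], by rw [y1, k3], x2, x3, y2, y3⟩⟩
      · exact ⟨(0, 0), fun h => absurd h hs⟩
    choose e he using hex
    have hle : S1.card ≤ ((S1.image fun s => s.1.2) ×ˢ (Finset.Icc 1 (2 * D)) ×ˢ
        (Finset.Icc 1 (2 * D))).card := by
      refine Finset.card_le_card_of_injOn (fun s => (s.1.2, (e s).1, (e s).2)) ?_ ?_
      · intro s hs
        have h3 := he s hs
        simp only [Finset.coe_product, Set.mem_prod, Finset.mem_coe, Finset.mem_image,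
          Finset.mem_Icc]
        exact ⟨⟨s, hs, rfl⟩, ⟨h3.2.2.1, h3.2.2.2.1⟩, ⟨h3.2.2.2.2.1, h3.2.2.2.2.2⟩⟩
      · intro s hs s' hs' hss
        simp only [Prod.mk.injEq] at hss
        obtain ⟨e1, e2, e3⟩ := hss
        have h3 := he s hs
        have h4 := he s' hs'
        obtain ⟨-, x, y, c, k, k1, k2, k3, k4⟩ := Finset.mem_filter.1 hs
        obtain ⟨-, x', y', c', k', k1', k2', k3', k4'⟩ := Finset.mem_filter.1 hs'
        have e4 : s.2.2 = s'.2.2 := by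
          rw [← h3.2.1, ← h4.2.1, e1, e3]
        have e5 : α * (s.2.1 : ℤ) + β * (s.2.2 : ℤ) = γ * w := by
          rw [k4, k3]
          push_cast
          exact k1.eq
        have e6 : α * (s'.2.1 : ℤ) + β * (s'.2.2 : ℤ) = γ * w := by
          rw [k4', k3']
          push_cast
          exact k1'.eq
        have e7 : s.2.1 = s'.2.1 := by
          have : α * (s.2.1 : ℤ) = α * (s'.2.1 : ℤ) := by
            rw [e4] at e5
            linarith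
          exact_mod_cast mul_left_cancel₀ hα this
        have e8 : s.1.1 = s'.1.1 := by
          have : s.1.1 ^ (e s).1 = s'.1.1 ^ (e s).1 := by
            rw [h3.1, e7, e2, h4.1]
          exact (Nat.pow_left_injective (by omega : (e s).1 ≠ 0)) this
        exact Prod.ext (Prod.ext e8 e1) (Prod.ext e7 e4)
    have hb := h1 (S1.image fun s => s.1.2) (by
      intro b hb
      obtain ⟨s, hs, rfl⟩ := Finset.mem_image.1 hb
      obtain ⟨-, x, y, c, k, k1, k2, k3, k4⟩ := Finset.mem_filter.1 hs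
      refine ⟨k1.hb.1, k1.hb.2, y, x, s.1.1, k1.hy, k2, k1.hby.trans hEW, ?_⟩
      have e1 := k1.eq
      have e2 : β * (s.1.2 : ℤ) ^ y + -(γ * w) = -(α * (s.1.1 : ℤ) ^ x) := by
        rw [k4]
        push_cast
        linarith
      rw [e2, abs_neg, abs_mul, abs_of_nonneg (by positivity : (0 : ℤ) ≤ (s.1.1 : ℤ) ^ x)])
    rw [Finset.card_product, Finset.card_product, Nat.card_Icc] at hle
    have hle' : (S1.card : ℝ) ≤ ((S1.image fun s => s.1.2).card : ℝ) * ((2 * D) * (2 * D)) := by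
      have : S1.card ≤ (S1.image fun s => s.1.2).card * ((2 * D) * (2 * D)) := by
        simpa using hle
      exact_mod_cast this
    calc (S1.card : ℝ) ≤ ((S1.image fun s => s.1.2).card : ℝ) * ((2 * D) * (2 * D)) := hle'
      _ ≤ B * ((2 * D) * (2 * D)) := by gcongr
      _ = B * (2 * D) ^ 2 := by ring
  -- the second part
  have c2 : (S2.card : ℝ) ≤ B * (2 * D) ^ 2 := by
    have hex : ∀ s : (ℕ × ℕ) × (ℕ × ℕ), ∃ e : ℕ × ℕ, s ∈ S2 →
        s.1.1 ^ e.1 = s.2.1 ∧ s.1.2 ^ e.2 = s.2.2 ∧ 1 ≤ e.1 ∧ e.1 ≤ 2 * D ∧ 1 ≤ e.2 ∧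
          e.2 ≤ 2 * D := by
      intro s
      by_cases hs : s ∈ S2
      · obtain ⟨-, x, y, c, k, k1, k2, k3, k4⟩ := Finset.mem_filter.1 hs
        obtain ⟨x', x1, x2, x3⟩ := small_exp (by have := k1.ha.1; omega) k1.hx hD
          (k1.hax.trans hED)
        obtain ⟨y', y1, y2, y3⟩ := small_exp (by have := k1.hb.1; omega) k1.hy hD
          (k1.hby.trans hED)
        exact ⟨(x', y'), fun _ => ⟨by rw [x1, k3], by rw [y1, k3], x2, x3, y2, y3⟩⟩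
      · exact ⟨(0, 0), fun h => absurd h hs⟩
    choose e he using hex
    have hle : S2.card ≤ ((S2.image fun s => s.1.1) ×ˢ (Finset.Icc 1 (2 * D)) ×ˢ
        (Finset.Icc 1 (2 * D))).card := by
      refine Finset.card_le_card_of_injOn (fun s => (s.1.1, (e s).1, (e s).2)) ?_ ?_
      · intro s hs
        have h3 := he s hs
        simp only [Finset.coe_product, Set.mem_prod, Finset.mem_coe, Finset.mem_image,
          Finset.mem_Icc]
        exact ⟨⟨s, hs, rfl⟩, ⟨h3.2.2.1, h3.2.2.2.1⟩, ⟨h3.2.2.2.2.1, h3.2.2.2.2.2⟩⟩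
      · intro s hs s' hs' hss
        simp only [Prod.mk.injEq] at hss
        obtain ⟨e1, e2, e3⟩ := hss
        have h3 := he s hs
        have h4 := he s' hs'
        obtain ⟨-, x, y, c, k, k1, k2, k3, k4⟩ := Finset.mem_filter.1 hs
        obtain ⟨-, x', y', c', k', k1', k2', k3', k4'⟩ := Finset.mem_filter.1 hs'
        have e4 : s.2.1 = s'.2.1 := by
          rw [← h3.1, ← h4.1, e1, e2]
        have e5 : α * (s.2.1 : ℤ) + β * (s.2.2 : ℤ) = γ * w := by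
          rw [k4, k3]
          push_cast
          exact k1.eq
        have e6 : α * (s'.2.1 : ℤ) + β * (s'.2.2 : ℤ) = γ * w := by
          rw [k4', k3']
          push_cast
          exact k1'.eq
        have e7 : s.2.2 = s'.2.2 := by
          have : β * (s.2.2 : ℤ) = β * (s'.2.2 : ℤ) := by
            rw [e4] at e5
            linarith
          exact_mod_cast mul_left_cancel₀ hβ this
        have e8 : s.1.2 = s'.1.2 := by
          have : s.1.2 ^ (e s).2 = s'.1.2 ^ (e s).2 := by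
            rw [h3.2.1, e7, e3, h4.2.1]
          exact (Nat.pow_left_injective (by omega : (e s).2 ≠ 0)) this
        exact Prod.ext (Prod.ext e1 e8) (Prod.ext e4 e7)
    have hb := h2 (S2.image fun s => s.1.1) (by
      intro b hb
      obtain ⟨s, hs, rfl⟩ := Finset.mem_image.1 hb
      obtain ⟨-, x, y, c, k, k1, k2, k3, k4⟩ := Finset.mem_filter.1 hs
      refine ⟨k1.ha.1, k1.ha.2, x, y, s.1.2, k1.hx, k2, k1.hax.trans hEW, ?_⟩
      have e1 := k1.eq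
      have e2 : α * (s.1.1 : ℤ) ^ x + -(γ * w) = -(β * (s.1.2 : ℤ) ^ y) := by
        rw [k4]
        push_cast
        linarith
      rw [e2, abs_neg, abs_mul, abs_of_nonneg (by positivity : (0 : ℤ) ≤ (s.1.2 : ℤ) ^ y)])
    rw [Finset.card_product, Finset.card_product, Nat.card_Icc] at hle
    have hle' : (S2.card : ℝ) ≤ ((S2.image fun s => s.1.1).card : ℝ) * ((2 * D) * (2 * D)) := by
      have : S2.card ≤ (S2.image fun s => s.1.1).card * ((2 * D) * (2 * D)) := by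
        simpa using hle
      exact_mod_cast this
    calc (S2.card : ℝ) ≤ ((S2.image fun s => s.1.1).card : ℝ) * ((2 * D) * (2 * D)) := hle'
      _ ≤ B * ((2 * D) * (2 * D)) := by gcongr
      _ = B * (2 * D) ^ 2 := by ring
  have h3 : S.card ≤ S1.card + S2.card := (Finset.card_le_card hcov).trans
    (Finset.card_union_le _ _)
  have h4 : (S.card : ℝ) ≤ S1.card + S2.card := by exact_mod_cast h3
  linarith

/-- **Few terms and few pairs.** -/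
theorem few_both (ε : ℝ) (hε : 0 < ε) : ∃ (R : ℕ) (δ : ℝ), 0 < δ ∧ ∃ N₀ : ℕ, ∀ N : ℕ, N₀ ≤ N →
    ∀ (M₁ M₂ : ℕ) (α β γ : ℤ), α ≠ 0 → β ≠ 0 → γ ≠ 0 → |(α : ℝ)| ≤ Real.exp ((N : ℝ) ^ δ) →
      |(β : ℝ)| ≤ Real.exp ((N : ℝ) ^ δ) → |(γ : ℝ)| ≤ Real.exp ((N : ℝ) ^ δ) →
      (∀ T : Finset ℕ, (∀ w ∈ T, ∃ a x b y c k : ℕ,
        Sol M₁ M₂ N R (Real.exp ((N : ℝ) ^ δ)) α β γ a x b y c k ∧ w = c ^ k) →
        (T.card : ℝ) ≤ (N : ℝ) ^ ε) ∧
      ∀ m : ℕ, 1 ≤ m → ∀ S : Finset ((ℕ × ℕ) × (ℕ × ℕ)), (∀ s ∈ S, ∃ x y c k : ℕ,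
        Sol M₁ M₂ N R (Real.exp ((N : ℝ) ^ δ)) α β γ s.1.1 x s.1.2 y c k ∧
        (m ≤ x ∨ m ≤ y) ∧ s.2 = (s.1.1 ^ x, s.1.2 ^ y)) →
        (S.card : ℝ) ≤ (N : ℝ) ^ (1 / (m : ℝ) + ε) := by
  classical
  obtain ⟨R, δ₁, hδ₁, N₁, h1⟩ := few_vals (ε / 4) (by positivity)
  obtain ⟨δ₂, hδ₂, N₂, h2⟩ := few_basesC (ε / 4) (by positivity)
  set δ : ℝ := min δ₁ (min (δ₂ / 2) (ε / 8)) with hδ
  have hδpos : 0 < δ := lt_min hδ₁ (lt_min (by positivity) (by positivity))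
  have hd1 : δ ≤ δ₁ := min_le_left _ _
  have hd2 : δ ≤ δ₂ / 2 := (min_le_right _ _).trans (min_le_left _ _)
  have hd3 : δ ≤ ε / 8 := (min_le_right _ _).trans (min_le_right _ _)
  have hcast : Filter.Tendsto (fun N : ℕ => (N : ℝ)) Filter.atTop Filter.atTop :=
    tendsto_natCast_atTop_atTop
  have hpow : ∀ c : ℝ, 0 < c → Filter.Tendsto (fun N : ℕ => (N : ℝ) ^ c) Filter.atTop
    Filter.atTop := fun c hc => (tendsto_rpow_atTop hc).comp hcast
  have hev : ∀ᶠ N : ℕ in Filter.atTop, 2 ≤ N ∧ 1 ≤ (N : ℝ) ^ δ ∧ 3 ≤ (N : ℝ) ^ (δ₂ / 2) ∧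
      32 ≤ (N : ℝ) ^ (ε / 4) :=
    (Filter.eventually_ge_atTop 2).and (((hpow δ hδpos).eventually_ge_atTop _).and
      (((hpow (δ₂ / 2) (by positivity)).eventually_ge_atTop _).and
      ((hpow (ε / 4) (by positivity)).eventually_ge_atTop _)))
  obtain ⟨N₃, hN₃⟩ := Filter.eventually_atTop.1 hev
  refine ⟨R, δ, hδpos, max N₁ (max N₂ N₃), fun N hN M₁ M₂ α β γ hα hβ hγ hαd hβd hγd => ?_⟩
  have hNN1 : N₁ ≤ N := (le_max_left _ _).trans hN
  have hNN2 : N₂ ≤ N := (le_max_left _ _).trans ((le_max_right _ _).trans hN)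
  have hNN3 : N₃ ≤ N := (le_max_right _ _).trans ((le_max_right _ _).trans hN)
  obtain ⟨hN2, hNδ, hNδ2, hconst⟩ := hN₃ N hNN3
  have hN1 : (1 : ℝ) < N := by exact_mod_cast hN2
  have hN0 : (0 : ℝ) < N := by linarith
  have hE1 : Real.exp ((N : ℝ) ^ δ) ≤ Real.exp ((N : ℝ) ^ δ₁) :=
    Real.exp_le_exp.2 (Real.rpow_le_rpow_of_exponent_le hN1.le hd1)
  have hE2 : Real.exp ((N : ℝ) ^ δ) ≤ Real.exp ((N : ℝ) ^ δ₂) :=
    Real.exp_le_exp.2 (Real.rpow_le_rpow_of_exponent_le hN1.le (by linarith))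
  have hvals : ∀ T : Finset ℕ, (∀ w ∈ T, ∃ a x b y c k : ℕ,
        Sol M₁ M₂ N R (Real.exp ((N : ℝ) ^ δ)) α β γ a x b y c k ∧ w = c ^ k) →
        (T.card : ℝ) ≤ (N : ℝ) ^ (ε / 4) := by
    intro T hT
    refine h1 N hNN1 M₁ M₂ α β γ hα hβ hγ (hαd.trans hE1) (hβd.trans hE1) (hγd.trans hE1) T
      fun w hw => ?_
    obtain ⟨a, x, b, y, c, k, k1, k2⟩ := hT w hw
    exact ⟨a, x, b, y, c, k, k1.mono le_rfl hE1, k2⟩
  refine ⟨fun T hT => (hvals T hT).trans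
    (Real.rpow_le_rpow_of_exponent_le hN1.le (by linarith)), fun m hm S hS => ?_⟩
  set D : ℕ := ⌈(N : ℝ) ^ δ⌉₊ with hD
  have hD1 : (N : ℝ) ^ δ ≤ D := Nat.le_ceil _
  have hD2 : (D : ℝ) ≤ 2 * (N : ℝ) ^ δ := by
    have h1 := Nat.ceil_lt_add_one (show 0 ≤ (N : ℝ) ^ δ by positivity)
    linarith
  have hD3 : 1 ≤ D := by
    have : (1 : ℝ) ≤ D := hNδ.trans hD1
    exact_mod_cast this
  have hED : Real.exp ((N : ℝ) ^ δ) ≤ Real.exp D := Real.exp_le_exp.2 hD1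
  -- the third terms
  choose! x y c k hsol using hS
  set V : Finset ℕ := S.image fun s => c s ^ k s with hV
  have hVc : (V.card : ℝ) ≤ (N : ℝ) ^ (ε / 4) := by
    refine hvals V fun w hw => ?_
    obtain ⟨s, hs, rfl⟩ := Finset.mem_image.1 hw
    exact ⟨_, _, _, _, _, _, (hsol s hs).1, rfl⟩
  have hfib : ∀ w ∈ V, ((S.filter fun s => c s ^ k s = w).card : ℝ) ≤
      2 * ((N : ℝ) ^ (1 / (m : ℝ) + ε / 4) * (2 * D) ^ 2) := by
    intro w hw
    obtain ⟨s₀, hs₀, hw₀⟩ := Finset.mem_image.1 hw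
    have hS0 := (hsol s₀ hs₀).1
    have hw1 : w ≠ 0 := by
      rw [← hw₀]
      exact pow_ne_zero _ (by have := hS0.hc; omega)
    have hu : -(γ * (w : ℤ)) ≠ 0 := neg_ne_zero.2 (mul_ne_zero hγ (by exact_mod_cast hw1))
    have hud : |((-(γ * (w : ℤ)) : ℤ) : ℝ)| ≤ Real.exp ((N : ℝ) ^ δ₂) := by
      have e1 : ((-(γ * (w : ℤ)) : ℤ) : ℝ) = -((α : ℝ) * (s₀.1.1 : ℝ) ^ x s₀ +
          (β : ℝ) * (s₀.1.2 : ℝ) ^ y s₀) := by
        have := hS0.eq
        rw [← hw₀]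
        have e2 : (γ * ((c s₀ ^ k s₀ : ℕ) : ℤ)) = α * (s₀.1.1 : ℤ) ^ x s₀ +
          β * (s₀.1.2 : ℤ) ^ y s₀ := by
          push_cast
          exact this.symm
        rw [e2]
        push_cast
        ring
      rw [e1, abs_neg]
      set E := Real.exp ((N : ℝ) ^ δ) with hEdef
      have hE1' : 1 ≤ E := Real.one_le_exp (by positivity)
      have e3 : |(α : ℝ) * (s₀.1.1 : ℝ) ^ x s₀ + (β : ℝ) * (s₀.1.2 : ℝ) ^ y s₀| ≤
          E * E + E * E := by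
        refine (abs_add_le _ _).trans ?_
        rw [abs_mul, abs_mul, abs_of_nonneg (show (0 : ℝ) ≤ (s₀.1.1 : ℝ) ^ x s₀ by positivity),
          abs_of_nonneg (show (0 : ℝ) ≤ (s₀.1.2 : ℝ) ^ y s₀ by positivity)]
        have a1 := hS0.hax
        have a2 := hS0.hby
        gcongr
      have e4 : (2 : ℝ) ≤ E := by
        have h1 : Real.exp 1 ≤ E := Real.exp_le_exp.2 hNδ
        have h2 := Real.exp_one_gt_d9
        linarith
      have e5 : E * E + E * E ≤ E ^ 3 := by nlinarith [mul_pos (by linarith : 0 < E) (by linarith : 0 < E)]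
      have e6 : E ^ 3 ≤ Real.exp ((N : ℝ) ^ δ₂) := by
        rw [hEdef, ← Real.exp_nat_mul]
        apply Real.exp_le_exp.2
        have h1 : (N : ℝ) ^ δ ≤ (N : ℝ) ^ (δ₂ / 2) :=
          Real.rpow_le_rpow_of_exponent_le hN1.le hd2
        have h2 : (N : ℝ) ^ δ₂ = (N : ℝ) ^ (δ₂ / 2) * (N : ℝ) ^ (δ₂ / 2) := by
          rw [← Real.rpow_add hN0]; congr 1; ring
        rw [h2]
        push_cast
        exact mul_le_mul hNδ2 h1 (by positivity) (by positivity)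
      linarith
    refine fiber_count (R := R) hD3 hED hE2 hα hβ w
      (fun S' hS' => h2 N hNN2 m hm M₂ _ β α hu hβ hα hud (hβd.trans hE2) (hαd.trans hE2) S' hS')
      (fun S' hS' => h2 N hNN2 m hm M₁ _ α β hu hα hβ hud (hαd.trans hE2) (hβd.trans hE2) S' hS')
      _ fun s hs => ?_
    obtain ⟨hs1, hs2⟩ := Finset.mem_filter.1 hs
    obtain ⟨k1, k2, k3⟩ := hsol s hs1
    exact ⟨_, _, _, _, k1, k2, k3, hs2.symm⟩
  have hsum : S.card = ∑ w ∈ V, (S.filter fun s => c s ^ k s = w).card :=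
    Finset.card_eq_sum_card_fiberwise fun s hs => Finset.mem_image_of_mem _ hs
  have hsum' : (S.card : ℝ) ≤ (V.card : ℝ) *
      (2 * ((N : ℝ) ^ (1 / (m : ℝ) + ε / 4) * (2 * D) ^ 2)) := by
    rw [hsum]
    push_cast
    refine (Finset.sum_le_sum hfib).trans ?_
    rw [Finset.sum_const, nsmul_eq_mul]
  calc (S.card : ℝ) ≤ (V.card : ℝ) * (2 * ((N : ℝ) ^ (1 / (m : ℝ) + ε / 4) * (2 * D) ^ 2)) :=
        hsum'
    _ ≤ (N : ℝ) ^ (ε / 4) * (2 * ((N : ℝ) ^ (1 / (m : ℝ) + ε / 4) *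
          (2 * (2 * (N : ℝ) ^ δ)) ^ 2)) := by gcongr
    _ = 32 * ((N : ℝ) ^ (ε / 4) * (N : ℝ) ^ (1 / (m : ℝ) + ε / 4) *
          ((N : ℝ) ^ δ * (N : ℝ) ^ δ)) := by ring
    _ ≤ (N : ℝ) ^ (ε / 4) * ((N : ℝ) ^ (ε / 4) * (N : ℝ) ^ (1 / (m : ℝ) + ε / 4) *
          ((N : ℝ) ^ (ε / 8) * (N : ℝ) ^ (ε / 8))) := by
        have := Real.rpow_le_rpow_of_exponent_le hN1.le hd3
        gcongr
    _ = (N : ℝ) ^ (1 / (m : ℝ) + ε) := by
        rw [← Real.rpow_add hN0, ← Real.rpow_add hN0, ← Real.rpow_add hN0, ← Real.rpow_add hN0]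
        congr 1
        ring

end Pool.Agent.H8FC
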