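import Pool.Agent.H8FC.Up
import Pool.Agent.H8FC.MainC

/-!
# Few third terms with bases in short intervals
-/

set_option autoImplicit false

namespace Pool.Agent.H8FC

open Filter Pool.Agent.Y902.GN Pool.Agent.N741.HB

theorem Pc.mono {K K' : ℕ} {W W' : ℝ} {u v s : ℤ} {b : ℕ} (h : Pc K W u v s b) (hK : K' ≤ K)
    (hW : W ≤ W') : Pc K' W' u v s b := by
  obtain ⟨y, k, c, h1, h2, h3, h4⟩ := h
  exact ⟨y, k, c, h1, hK.trans h2, h3.trans hW, h4⟩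

/-- large families contradict the bound for the bases of an interval -/
theorem not_few {Y : ℕ → ℕ} (hY : ∀ m : ℕ, ∀ᶠ ν in (Uf : Filter ℕ), m ≤ Y ν) {ι : Type}
    {A : ℕ → Finset ι} (hA : Big Y A) (M : ℕ → ℕ) (u v s : ℕ → ℤ) {F : ℕ → ℕ} (hF : Few Y F)
    (hbd : ∀ᶠ ν in (Uf : Filter ℕ), u ν ≠ 0 ∧ v ν ≠ 0 ∧ s ν ≠ 0 ∧
      |(u ν : ℝ)| ≤ Real.exp (F ν) ∧ |(v ν : ℝ)| ≤ Real.exp (F ν) ∧ |(s ν : ℝ)| ≤ Real.exp (F ν))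
    (r : ℕ → ℕ) (hr : ∀ m : ℕ, ∀ᶠ ν in (Uf : Filter ℕ), m ≤ r ν) (g : ℕ → ι → ℕ)
    (hg : ∀ᶠ ν in (Uf : Filter ℕ), Set.InjOn (g ν) (A ν))
    (hP : ∀ᶠ ν in (Uf : Filter ℕ), ∀ t ∈ A ν, M ν < g ν t ∧ g ν t ≤ M ν + Y ν ∧
      Pc (r ν) (Real.exp (F ν)) (u ν) (v ν) (s ν) (g ν t)) : False := by
  classical
  obtain ⟨m, hm⟩ := hA
  have hm1 : 1 ≤ m := by
    by_contra h
    have h0 : m = 0 := by omega
    obtain ⟨ν, h1⟩ := hm.exists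
    rw [h0, pow_zero] at h1
    omega
  have hm' : (0 : ℝ) < m := by exact_mod_cast hm1
  obtain ⟨δ', hδ', N₀, hN₀⟩ := few_basesC (1 / (4 * m : ℝ)) (by positivity)
  have hfew := Pool.Agent.N692.HB.Gdm.few_le_rpow hF hδ' (hY 1)
  obtain ⟨ν, h1, h2, h3, h4, h5, h6, h7, h8⟩ := (hm.and ((hY N₀).and ((hY 1).and (hbd.and
    ((hr (4 * m)).and (hg.and (hP.and hfew))))))).exists
  have hexp : Real.exp (F ν) ≤ Real.exp ((Y ν : ℝ) ^ δ') := Real.exp_le_exp.2 h8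
  have h9 := hN₀ (Y ν) h2 (4 * m) (by omega) (M ν) (u ν) (v ν) (s ν) h4.1 h4.2.1 h4.2.2.1
    (h4.2.2.2.1.trans hexp) (h4.2.2.2.2.1.trans hexp) (h4.2.2.2.2.2.trans hexp)
    ((A ν).image (g ν)) (by
      intro b hb
      obtain ⟨t, ht, rfl⟩ := Finset.mem_image.1 hb
      obtain ⟨k1, k2, k3⟩ := h7 t ht
      exact ⟨k1, k2, k3.mono h5 hexp⟩)
  rw [Finset.card_image_of_injOn h6] at h9
  have hY1 : (1 : ℝ) ≤ (Y ν : ℝ) := by exact_mod_cast h3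
  have h10 : (((A ν).card : ℝ)) ^ m ≤ (Y ν : ℝ) ^ ((1 : ℝ) / 2) := by
    refine (pow_le_pow_left₀ (by positivity) h9 m).trans ?_
    rw [← Real.rpow_natCast, ← Real.rpow_mul (by positivity)]
    apply le_of_eq
    congr 1
    push_cast
    field_simp
    norm_num
  have h11 : (Y ν : ℝ) ^ ((1 : ℝ) / 2) ≤ (Y ν : ℝ) := by
    calc (Y ν : ℝ) ^ ((1 : ℝ) / 2) ≤ (Y ν : ℝ) ^ (1 : ℝ) :=
          Real.rpow_le_rpow_of_exponent_le hY1 (by norm_num)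
      _ = (Y ν : ℝ) := Real.rpow_one _
  have h12 : ((Y ν + 2 : ℕ) : ℝ) ≤ (((A ν).card ^ m : ℕ) : ℝ) := by exact_mod_cast h1
  push_cast at h12
  linarith

/-- solutions of `α a ^ x + β b ^ y = γ c ^ k` with `a` and `b` in intervals of length `N` -/
structure Sol (M₁ M₂ N R : ℕ) (E : ℝ) (α β γ : ℤ) (a x b y c k : ℕ) : Prop where
  ha : M₁ < a ∧ a ≤ M₁ + N
  hb : M₂ < b ∧ b ≤ M₂ + N
  cop : Nat.Coprime a b
  hx : 1 ≤ x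
  hy : 1 ≤ y
  hc : 1 ≤ c
  hk : R ≤ k
  hax : (a : ℝ) ^ x ≤ E
  hby : (b : ℝ) ^ y ≤ E
  eq : α * (a : ℤ) ^ x + β * (b : ℤ) ^ y = γ * (c : ℤ) ^ k

/-- the exponents may be taken small if `c ≠ 1` -/
theorem Sol.small {M₁ M₂ N R F : ℕ} {E : ℝ} {α β γ : ℤ} {a x b y c k : ℕ}
    (h : Sol M₁ M₂ N R E α β γ a x b y c k) (hE : E ≤ 2 ^ F) (hα : |(α : ℝ)| ≤ E)
    (hβ : |(β : ℝ)| ≤ E) (hγ : γ ≠ 0) (hF : 1 ≤ F) (hc : c ≠ 1) :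
    c ^ k ≤ 2 ^ (2 * F + 1) ∧ k ≤ 2 * F + 1 ∧
    ∃ x' y', a ^ x' = a ^ x ∧ b ^ y' = b ^ y ∧ 1 ≤ x' ∧ x' ≤ F ∧ 1 ≤ y' ∧ y' ≤ F ∧
      Sol M₁ M₂ N R E α β γ a x' b y' c k := by
  have h1 : (a : ℝ) ^ x ≤ 2 ^ F := h.hax.trans hE
  have h2 : (b : ℝ) ^ y ≤ 2 ^ F := h.hby.trans hE
  have h3 : |(α : ℝ)| ≤ 2 ^ F := hα.trans hE
  have h4 : |(β : ℝ)| ≤ 2 ^ F := hβ.trans hE
  have hγ' : (1 : ℝ) ≤ |(γ : ℝ)| := by
    have : 1 ≤ |γ| := Int.one_le_abs hγ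
    exact_mod_cast this
  have h5 : (c : ℝ) ^ k ≤ 2 ^ (2 * F + 1) := by
    have e1 : (α : ℝ) * (a : ℝ) ^ x + (β : ℝ) * (b : ℝ) ^ y = (γ : ℝ) * (c : ℝ) ^ k := by
      exact_mod_cast h.eq
    calc (c : ℝ) ^ k ≤ |(γ : ℝ)| * (c : ℝ) ^ k := le_mul_of_one_le_left (by positivity) hγ'
      _ = |(γ : ℝ) * (c : ℝ) ^ k| := by
          rw [abs_mul, abs_of_nonneg (show (0 : ℝ) ≤ (c : ℝ) ^ k by positivity)]
      _ = |(α : ℝ) * (a : ℝ) ^ x + (β : ℝ) * (b : ℝ) ^ y| := by rw [e1]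
      _ ≤ |(α : ℝ) * (a : ℝ) ^ x| + |(β : ℝ) * (b : ℝ) ^ y| := abs_add_le _ _
      _ = |(α : ℝ)| * (a : ℝ) ^ x + |(β : ℝ)| * (b : ℝ) ^ y := by
          rw [abs_mul, abs_mul, abs_of_nonneg (show (0 : ℝ) ≤ (a : ℝ) ^ x by positivity),
            abs_of_nonneg (show (0 : ℝ) ≤ (b : ℝ) ^ y by positivity)]
      _ ≤ 2 ^ F * 2 ^ F + 2 ^ F * 2 ^ F := by gcongr
      _ = 2 ^ (2 * F + 1) := by ring
  have h6 : c ^ k ≤ 2 ^ (2 * F + 1) := by exact_mod_cast h5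
  have hc2 : 2 ≤ c := by have := h.hc; omega
  refine ⟨h6, ?_, ?_⟩
  · have : 2 ^ k ≤ 2 ^ (2 * F + 1) := (Nat.pow_le_pow_left hc2 k).trans h6
    exact (Nat.pow_le_pow_iff_right (by norm_num)).1 this
  · have red : ∀ (n e : ℕ), 1 ≤ n → 1 ≤ e → (n : ℝ) ^ e ≤ 2 ^ F →
        ∃ e', n ^ e' = n ^ e ∧ 1 ≤ e' ∧ e' ≤ F := by
      intro n e hn he hle
      rcases Nat.lt_or_ge n 2 with h7 | h7
      · have : n = 1 := by omega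
        subst this
        exact ⟨1, by simp, le_rfl, hF⟩
      · refine ⟨e, rfl, he, ?_⟩
        have h8 : n ^ e ≤ 2 ^ F := by exact_mod_cast hle
        have : 2 ^ e ≤ 2 ^ F := (Nat.pow_le_pow_left h7 e).trans h8
        exact (Nat.pow_le_pow_iff_right (by norm_num)).1 this
    obtain ⟨x', hx1, hx2, hx3⟩ := red a x (by have := h.ha.1; omega) h.hx h1
    obtain ⟨y', hy1, hy2, hy3⟩ := red b y (by have := h.hb.1; omega) h.hy h2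
    refine ⟨x', y', hx1, hy1, hx2, hx3, hy2, hy3, ?_⟩
    have ex : (a : ℝ) ^ x' = (a : ℝ) ^ x := by exact_mod_cast hx1
    have ey : (b : ℝ) ^ y' = (b : ℝ) ^ y := by exact_mod_cast hy1
    have exz : (a : ℤ) ^ x' = (a : ℤ) ^ x := by exact_mod_cast hx1
    have eyz : (b : ℤ) ^ y' = (b : ℤ) ^ y := by exact_mod_cast hy1
    exact ⟨h.ha, h.hb, h.cop, hx2, hy2, h.hc, h.hk, by rw [ex]; exact h.hax,
      by rw [ey]; exact h.hby, by rw [exz, eyz]; exact h.eq⟩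

end Pool.Agent.H8FC
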