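import Mathlib
import Pool.Agent.H8FC.Main

/-! # Sets of first bases, and sharpness -/

set_option autoImplicit false

namespace Pool.Agent.H8FC

open Finset

/-- a solution with the bases `a`, `b`, the exponent of the third base being at least `K` -/
def Sv (K : ℕ) (W : ℝ) (a b : ℕ) : Prop :=
  ∃ x y k c : ℕ, 1 ≤ x ∧ 1 ≤ y ∧ K ≤ k ∧ 1 ≤ c ∧ (a : ℝ) ^ x ≤ W ∧ (b : ℝ) ^ y ≤ W ∧
    (a ^ x + b ^ y = c ^ k ∨ a ^ x + c ^ k = b ^ y ∨ b ^ y + c ^ k = a ^ x)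

theorem Sv.pw {K : ℕ} {W : ℝ} {D a b : ℕ} (ha : 1 ≤ a) (hD : 1 ≤ D) (hWD : W ≤ Real.exp D)
    (h : Sv K W a b) : ∃ x : ℕ, 1 ≤ x ∧ x ≤ 2 * D ∧ (a : ℝ) ^ x ≤ W ∧
      ∃ s : ℤ, (s = 1 ∨ s = -1) ∧ Pw K W (s * (a : ℤ) ^ x) b := by
  obtain ⟨x, y, k, c, hx, hy, hk, hc, hax, hby, he⟩ := h
  have key : ∀ x' : ℕ, a ^ x' = a ^ x → ∃ s : ℤ, (s = 1 ∨ s = -1) ∧ Pw K W (s * (a : ℤ) ^ x') b := by
    intro x' hx'
    have hx'' : (a : ℤ) ^ x' = (a : ℤ) ^ x := by exact_mod_cast hx'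
    rcases he with he | he | he
    · refine ⟨1, Or.inl rfl, y, k, c, hy, hk, hby, ?_⟩
      have : (a : ℤ) ^ x + (b : ℤ) ^ y = (c : ℤ) ^ k := by exact_mod_cast he
      rw [hx'', one_mul, add_comm, this, abs_of_nonneg (by positivity)]
    · refine ⟨-1, Or.inr rfl, y, k, c, hy, hk, hby, ?_⟩
      have : (a : ℤ) ^ x + (c : ℤ) ^ k = (b : ℤ) ^ y := by exact_mod_cast he
      rw [hx'', ← this]
      have h2 : (a : ℤ) ^ x + (c : ℤ) ^ k + -1 * (a : ℤ) ^ x = (c : ℤ) ^ k := by ring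
      rw [h2, abs_of_nonneg (by positivity)]
    · refine ⟨-1, Or.inr rfl, y, k, c, hy, hk, hby, ?_⟩
      have : (b : ℤ) ^ y + (c : ℤ) ^ k = (a : ℤ) ^ x := by exact_mod_cast he
      rw [hx'', ← this]
      have h2 : (b : ℤ) ^ y + -1 * ((b : ℤ) ^ y + (c : ℤ) ^ k) = -(c : ℤ) ^ k := by ring
      rw [h2, abs_neg, abs_of_nonneg (by positivity)]
  rcases Nat.lt_or_ge a 2 with ha2 | ha2
  · have ha1 : a = 1 := by omega
    subst ha1
    refine ⟨1, le_refl _, by omega, ?_, key 1 (by simp)⟩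
    simpa using hax
  · refine ⟨x, hx, ?_, hax, key x rfl⟩
    refine le_two_mul x D (le_trans ?_ (hax.trans hWD))
    exact pow_le_pow_left₀ (by norm_num) (by exact_mod_cast ha2) _

theorem few_sets (ε : ℝ) (hε : 0 < ε) : ∃ δ : ℝ, 0 < δ ∧ ∃ N₀ : ℕ, ∀ N : ℕ, N₀ ≤ N →
    ∀ K : ℕ, 1 ≤ K → ∀ M : ℕ,
      (∀ u : ℤ, u ≠ 0 → |(u : ℝ)| ≤ Real.exp ((N : ℝ) ^ δ) →
        ∀ S : Finset ℕ, (∀ b ∈ S, M < b ∧ b ≤ M + N ∧ Pw K (Real.exp ((N : ℝ) ^ δ)) u b) →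
          (S.card : ℝ) ≤ (N : ℝ) ^ (1 / (K : ℝ) + ε)) ∧
      (∀ A : Finset ℕ, (∀ a ∈ A, 1 ≤ a) → (A.card : ℝ) ≤ (N : ℝ) ^ (1 - 1 / (K : ℝ) - ε) →
        ∀ S : Finset ℕ, (∀ b ∈ S, M < b ∧ b ≤ M + N ∧ ∃ a ∈ A,
            Sv K (Real.exp ((N : ℝ) ^ δ)) a b) →
          (S.card : ℝ) ≤ (N : ℝ) ^ (1 - ε / 2)) := by
  classical
  obtain ⟨δ', hδ', N₁, hN₁⟩ := few_bases (ε / 4) (by positivity)
  set δ : ℝ := min δ' (ε / 20) with hδ
  have hδpos : 0 < δ := lt_min hδ' (by positivity)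
  have hcast : Filter.Tendsto (fun N : ℕ => (N : ℝ)) Filter.atTop Filter.atTop :=
    tendsto_natCast_atTop_atTop
  have hpow : ∀ c : ℝ, 0 < c → Filter.Tendsto (fun N : ℕ => (N : ℝ) ^ c) Filter.atTop Filter.atTop :=
    fun c hc => (tendsto_rpow_atTop hc).comp hcast
  have hev : ∀ᶠ N : ℕ in Filter.atTop, 2 ≤ N ∧ 8 ≤ (N : ℝ) ^ (ε / 5) ∧ 1 ≤ (N : ℝ) ^ δ :=
    (Filter.eventually_ge_atTop 2).and (((hpow (ε / 5) (by positivity)).eventually_ge_atTop _).and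
      ((hpow δ hδpos).eventually_ge_atTop _))
  obtain ⟨N₂, hN₂⟩ := Filter.eventually_atTop.1 hev
  refine ⟨δ, hδpos, max N₁ N₂, fun N hN K hK M => ?_⟩
  obtain ⟨hN2, h8, hNδ⟩ := hN₂ N ((le_max_right _ _).trans hN)
  have hN1 : (1 : ℝ) < N := by exact_mod_cast hN2
  have hN0 : (0 : ℝ) < N := by linarith
  have hWW : Real.exp ((N : ℝ) ^ δ) ≤ Real.exp ((N : ℝ) ^ δ') :=
    Real.exp_le_exp.2 (Real.rpow_le_rpow_of_exponent_le hN1.le (min_le_left _ _))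
  have hmain : ∀ u : ℤ, u ≠ 0 → |(u : ℝ)| ≤ Real.exp ((N : ℝ) ^ δ) →
      ∀ S : Finset ℕ, (∀ b ∈ S, M < b ∧ b ≤ M + N ∧ Pw K (Real.exp ((N : ℝ) ^ δ)) u b) →
        (S.card : ℝ) ≤ (N : ℝ) ^ (1 / (K : ℝ) + ε / 4) := by
    intro u hu hud S hS
    refine hN₁ N ((le_max_left _ _).trans hN) K hK M u hu (hud.trans hWW) S ?_
    intro b hb
    obtain ⟨h1, h2, y, k, c, hy, hk, hW, he⟩ := hS b hb
    exact ⟨h1, h2, y, k, c, hy, hk, hW.trans hWW, he⟩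
  refine ⟨fun u hu hud S hS => (hmain u hu hud S hS).trans
    (Real.rpow_le_rpow_of_exponent_le hN1.le (by linarith)), fun A hA hAc S hS => ?_⟩
  set D : ℕ := ⌈(N : ℝ) ^ δ⌉₊ with hD
  have hD1 : (N : ℝ) ^ δ ≤ D := Nat.le_ceil _
  have hDpos : 1 ≤ D := by
    have : (1 : ℝ) ≤ D := by linarith
    exact_mod_cast this
  have hD2 : (D : ℝ) ≤ 2 * (N : ℝ) ^ δ := by
    have h1 := Nat.ceil_lt_add_one (show 0 ≤ (N : ℝ) ^ δ by positivity)
    linarith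
  set P : Finset (ℕ × ℕ × ℤ) := (A ×ˢ (Icc 1 (2 * D)) ×ˢ ({1, -1} : Finset ℤ)).filter
    fun p => (p.1 : ℝ) ^ p.2.1 ≤ Real.exp ((N : ℝ) ^ δ) with hP
  set T : ℕ × ℕ × ℤ → Finset ℕ := fun p => S.filter fun b =>
    Pw K (Real.exp ((N : ℝ) ^ δ)) (p.2.2 * (p.1 : ℤ) ^ p.2.1) b with hT
  have hcard : ∀ p ∈ P, ((T p).card : ℝ) ≤ (N : ℝ) ^ (1 / (K : ℝ) + ε / 4) := by
    rintro ⟨a, x, s⟩ hp
    simp only [hP, mem_filter, mem_product, mem_Icc, mem_insert, mem_singleton] at hp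
    obtain ⟨⟨ha, ⟨hx1, hx2⟩, hs⟩, hax⟩ := hp
    have ha1 := hA a ha
    have ha0 : (a : ℤ) ≠ 0 := by
      have : a ≠ 0 := by omega
      exact_mod_cast this
    refine hmain (s * (a : ℤ) ^ x) ?_ ?_ (T (a, x, s)) ?_
    · refine mul_ne_zero ?_ (pow_ne_zero _ ha0)
      rcases hs with rfl | rfl <;> norm_num
    · have h1 : |((s * (a : ℤ) ^ x : ℤ) : ℝ)| = (a : ℝ) ^ x := by
        push_cast
        rw [abs_mul, abs_of_nonneg (show (0 : ℝ) ≤ (a : ℝ) ^ x by positivity)]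
        rcases hs with rfl | rfl <;> simp
      rw [h1]
      exact hax
    · intro b hb
      simp only [hT, mem_filter] at hb
      obtain ⟨h1, h2, -⟩ := hS b hb.1
      exact ⟨h1, h2, hb.2⟩
  have hcover : S ⊆ P.biUnion T := by
    intro b hb
    obtain ⟨h1, h2, a, ha, hsv⟩ := hS b hb
    obtain ⟨x, hx1, hx2, hax, s, hs, hpw⟩ := hsv.pw (hA a ha) hDpos (Real.exp_le_exp.2 hD1)
    rw [mem_biUnion]
    refine ⟨(a, x, s), ?_, ?_⟩
    · simp only [hP, mem_filter, mem_product, mem_Icc, mem_insert, mem_singleton]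
      exact ⟨⟨ha, ⟨hx1, hx2⟩, hs⟩, hax⟩
    · simp only [hT, mem_filter]
      exact ⟨hb, hpw⟩
  have hPc : (P.card : ℝ) ≤ A.card * (8 * (N : ℝ) ^ δ) := by
    have h2 : P.card ≤ A.card * ((2 * D) * 2) := by
      refine (card_filter_le _ _).trans ?_
      rw [card_product, card_product, Nat.card_Icc]
      gcongr
      · omega
      · exact card_le_two
    have h3 : (P.card : ℝ) ≤ A.card * ((2 * D) * 2) := by exact_mod_cast h2
    refine h3.trans (mul_le_mul_of_nonneg_left ?_ (Nat.cast_nonneg _))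
    linarith
  calc (S.card : ℝ) ≤ ((∑ p ∈ P, (T p).card : ℕ) : ℝ) := by
        exact_mod_cast (card_le_card hcover).trans card_biUnion_le
    _ = ∑ p ∈ P, ((T p).card : ℝ) := by push_cast; rfl
    _ ≤ ∑ _p ∈ P, (N : ℝ) ^ (1 / (K : ℝ) + ε / 4) := sum_le_sum hcard
    _ = P.card * (N : ℝ) ^ (1 / (K : ℝ) + ε / 4) := by rw [sum_const, nsmul_eq_mul]
    _ ≤ ((N : ℝ) ^ (1 - 1 / (K : ℝ) - ε) * (8 * (N : ℝ) ^ (ε / 20))) *
        (N : ℝ) ^ (1 / (K : ℝ) + ε / 4) := by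
        refine mul_le_mul_of_nonneg_right (hPc.trans ?_) (by positivity)
        refine mul_le_mul hAc ?_ (by positivity) (by positivity)
        refine mul_le_mul_of_nonneg_left ?_ (by norm_num)
        exact Real.rpow_le_rpow_of_exponent_le hN1.le (min_le_right _ _)
    _ = 8 * ((N : ℝ) ^ (1 - 1 / (K : ℝ) - ε) * (N : ℝ) ^ (ε / 20) *
        (N : ℝ) ^ (1 / (K : ℝ) + ε / 4)) := by ring
    _ = 8 * (N : ℝ) ^ (1 - 7 * ε / 10) := by
        rw [← Real.rpow_add hN0, ← Real.rpow_add hN0]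
        congr 2
        ring
    _ ≤ (N : ℝ) ^ (ε / 5) * (N : ℝ) ^ (1 - 7 * ε / 10) := by gcongr
    _ = (N : ℝ) ^ (1 - ε / 2) := by
        rw [← Real.rpow_add hN0]
        congr 1
        ring

/-- the exponent `1 - 1 / K` cannot be improved -/
theorem sharp (K : ℕ) (hK : 2 ≤ K) (b : ℕ) (hb : b.Prime) (hb3 : 3 ≤ b) :
    ∃ a c : ℕ, 1 ≤ a ∧ (a : ℝ) ≤ K * 2 ^ K * (b : ℝ) ^ (1 - 1 / (K : ℝ)) ∧ Nat.Coprime a b ∧
      a + b = c ^ K := by
  have hb0 : (0 : ℝ) < b := by exact_mod_cast hb.pos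
  have hb1 : (1 : ℝ) ≤ b := by exact_mod_cast hb.one_lt.le
  have hK0 : (0 : ℝ) < K := by
    have : 0 < K := by omega
    exact_mod_cast this
  set r : ℝ := (b : ℝ) ^ (1 / (K : ℝ)) with hr
  have hr1 : 1 ≤ r := Real.one_le_rpow hb1 (by positivity)
  have hrK : r ^ K = b := by
    rw [hr, ← Real.rpow_natCast, ← Real.rpow_mul hb0.le, one_div_mul_cancel hK0.ne', Real.rpow_one]
  set c : ℕ := ⌊r⌋₊ + 1 with hc
  have hc1 : r < c := by rw [hc]; push_cast; exact Nat.lt_floor_add_one r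
  have hc2 : (c : ℝ) ≤ r + 1 := by
    rw [hc]; push_cast
    have := Nat.floor_le (show 0 ≤ r by linarith)
    linarith
  have hcb : (b : ℝ) < (c : ℝ) ^ K := by
    rw [← hrK]
    exact pow_lt_pow_left₀ hc1 (by linarith) (by omega)
  have hcb' : b < c ^ K := by exact_mod_cast hcb
  refine ⟨c ^ K - b, c, by omega, ?_, ?_, by omega⟩
  · rw [Nat.cast_sub hcb'.le]
    push_cast
    have h1 : (c : ℝ) ^ K ≤ (r + 1) ^ K := pow_le_pow_left₀ (by positivity) hc2 _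
    have h2 : (r + 1) ^ K - r ^ K ≤ K * (2 * r) ^ (K - 1) := by
      have h3 : (r + 1) ^ K - r ^ K = (r + 1 - r) * ∑ i ∈ range K, (r + 1) ^ i * r ^ (K - 1 - i) :=
        (Commute.mul_geom_sum₂ (Commute.all (r + 1) r) K).symm
      rw [h3, add_sub_cancel_left, one_mul]
      calc ∑ i ∈ range K, (r + 1) ^ i * r ^ (K - 1 - i)
          ≤ ∑ i ∈ range K, (2 * r) ^ (K - 1) := by
            refine sum_le_sum fun i hi => ?_
            have hi' : i ≤ K - 1 := by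
              have := mem_range.1 hi
              omega
            calc (r + 1) ^ i * r ^ (K - 1 - i) ≤ (2 * r) ^ i * (2 * r) ^ (K - 1 - i) := by
                  refine mul_le_mul ?_ ?_ (by positivity) (by positivity)
                  · exact pow_le_pow_left₀ (by linarith) (by linarith) _
                  · exact pow_le_pow_left₀ (by linarith) (by linarith) _
              _ = (2 * r) ^ (K - 1) := by rw [← pow_add]; congr 1; omega
        _ = K * (2 * r) ^ (K - 1) := by rw [sum_const, card_range, nsmul_eq_mul]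
    have h4 : r ^ (K - 1) = (b : ℝ) ^ (1 - 1 / (K : ℝ)) := by
      rw [hr, ← Real.rpow_natCast, ← Real.rpow_mul hb0.le]
      congr 1
      rw [Nat.cast_sub (by omega)]
      field_simp
      push_cast
      ring
    calc (c : ℝ) ^ K - b ≤ (r + 1) ^ K - r ^ K := by rw [hrK]; linarith
      _ ≤ K * (2 * r) ^ (K - 1) := h2
      _ = K * 2 ^ (K - 1) * r ^ (K - 1) := by rw [mul_pow]; ring
      _ ≤ K * 2 ^ K * r ^ (K - 1) := by
          gcongr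
          · norm_num
          · omega
      _ = K * 2 ^ K * (b : ℝ) ^ (1 - 1 / (K : ℝ)) := by rw [h4]
  · rw [Nat.coprime_comm, Nat.Prime.coprime_iff_not_dvd hb]
    intro h
    have h1 : b ∣ c ^ K := by
      have := (Nat.dvd_add_left (dvd_refl b)).2 h
      rwa [Nat.sub_add_cancel hcb'.le] at this
    have h2 := hb.dvd_of_dvd_pow h1
    have h3 := Nat.le_of_dvd (by rw [hc]; omega) h2
    have h4 : r ≤ (b : ℝ) ^ (1 / 2 : ℝ) := by
      rw [hr]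
      refine Real.rpow_le_rpow_of_exponent_le hb1 ?_
      apply one_div_le_one_div_of_le (by norm_num)
      exact_mod_cast hK
    have h5 : (b : ℝ) ≤ (b : ℝ) ^ (1 / 2 : ℝ) + 1 := by
      have : (b : ℝ) ≤ c := by exact_mod_cast h3
      linarith
    have h6 : ((b : ℝ) ^ (1 / 2 : ℝ)) ^ 2 = b := by
      rw [← Real.rpow_natCast, ← Real.rpow_mul hb0.le]; norm_num
    have h7 : (3 : ℝ) ≤ b := by exact_mod_cast hb3
    nlinarith [Real.rpow_nonneg hb0.le (1 / 2 : ℝ)]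

end Pool.Agent.H8FC
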