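import Pool.Agent.H8FC.CoreS
import Pool.Agent.N42.HK.Dio

/-!
# Two coprime bases in short intervals: the ultraproduct
-/

set_option autoImplicit false

namespace Pool.Agent.H8FC

open Filter Pool.Agent.Y902.GN Pool.Agent.N741.HB

theorem pow_dvd_aux {a b a' b' : ℤ} {i j : ℕ} (h : IsCoprime a b)
    (e : a ^ i * b' ^ j = a' ^ i * b ^ j) : a ^ i ∣ a' ^ i := by
  have h1 : a ^ i ∣ a' ^ i * b ^ j := ⟨b' ^ j, e.symm⟩
  exact (IsCoprime.pow h).dvd_of_dvd_mul_right h1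

theorem coprime_pow_eq {a b a' b' : ℤ} {i j : ℕ} (ha : 0 < a) (hb : 0 < b) (ha' : 0 < a')
    (hb' : 0 < b') (hi : 1 ≤ i) (hj : 1 ≤ j) (h : IsCoprime a b) (h' : IsCoprime a' b')
    (e : a ^ i * b' ^ j = a' ^ i * b ^ j) : a = a' ∧ b = b' := by
  have h1 : a ^ i = a' ^ i :=
    le_antisymm (Int.le_of_dvd (by positivity) (pow_dvd_aux h e))
      (Int.le_of_dvd (by positivity) (pow_dvd_aux h' e.symm))
  have h2 : a = a' := (pow_left_inj₀ ha.le ha'.le (by omega)).1 h1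
  rw [h1] at e
  have h3 : b' ^ j = b ^ j := mul_left_cancel₀ (by positivity) e
  exact ⟨h2, ((pow_left_inj₀ hb'.le hb.le (by omega)).1 h3).symm⟩

theorem up {Y : ℕ → ℕ} (hY : ∀ m : ℕ, ∀ᶠ ν in (Uf : Filter ℕ), m ≤ Y ν)
    {Om : ℕ → Finset (Fin 2 → ℤ)} (hbig : Big Y Om) (hbd : Bdd Y Om) (S : TD Y 2 2)
    (Sh : ℕ → Fin 2 → ℤ) {ws : ℕ → ℕ} (hws : Few Y ws)
    (hSh : ∀ᶠ ν in (Uf : Filter ℕ), ∀ j, |Sh ν j| ≤ 2 ^ ws ν)
    (hy : ∀ᶠ ν in (Uf : Filter ℕ), ∀ t ∈ Om ν, ∀ j, 0 < Sh ν j + t j)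
    (hcop : ∀ᶠ ν in (Uf : Filter ℕ), ∀ t ∈ Om ν, IsCoprime (Sh ν 0 + t 0) (Sh ν 1 + t 1))
    (hdiag : ∀ᶠ ν in (Uf : Filter ℕ), S.e ν 0 1 = 0 ∧ S.e ν 1 0 = 0)
    (hnvs : ∀ᶠ ν in (Uf : Filter ℕ), ∀ t ∈ Om ν,
      S.u ν 0 * (Sh ν 0 + t 0) ^ S.e ν 0 0 + S.u ν 1 * (Sh ν 1 + t 1) ^ S.e ν 1 1 ≠ 0)
    (r w : ℕ → ℕ) (z : ℕ → (Fin 2 → ℤ) → ℤ) (hr : ∀ m : ℕ, ∀ᶠ ν in (Uf : Filter ℕ), m ≤ r ν)
    (hrF : Few Y r) (hwF : Few Y w)
    (hz : ∀ᶠ ν in (Uf : Filter ℕ), ∀ t ∈ Om ν, |z ν t| ≤ 2 ^ w ν ∧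
      S.u ν 0 * (Sh ν 0 + t 0) ^ S.e ν 0 0 + S.u ν 1 * (Sh ν 1 + t 1) ^ S.e ν 1 1 = z ν t ^ r ν)
    (hdist : ∀ᶠ ν in (Uf : Filter ℕ), ∀ t ∈ Om ν, ∀ t' ∈ Om ν, z ν t ^ r ν = z ν t' ^ r ν → t = t')
    (hnc : ∀ j : Fin 2, ∀ Om' : ℕ → Finset (Fin 2 → ℤ), (∀ᶠ ν in (Uf : Filter ℕ), Om' ν ⊆ Om ν) →
      Big Y Om' → (∀ᶠ ν in (Uf : Filter ℕ), ∀ t ∈ Om' ν, ∀ t' ∈ Om' ν, t j = t' j) → False) :
    False := by
  classical
  -- the sums
  have hsum : ∀ᶠ ν in (Uf : Filter ℕ), ∀ t : Fin 2 → ℤ, ∀ i : Fin 2,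
      ∏ j, (Sh ν j + t j) ^ S.e ν i j = (Sh ν i + t i) ^ S.e ν i i := by
    filter_upwards [hdiag] with ν h t i
    rw [Fin.prod_univ_two]
    fin_cases i
    · simp [h.1]
    · simp [h.2]
  obtain ⟨Om1, C, H, hO1, hB1, hH, hcst, hbdd⟩ := coreS hY hbig hbd S (by norm_num) Sh hws hSh
    (by filter_upwards [hy] with ν h t ht j; exact (h t ht j).ne')
    (by
      filter_upwards [hnvs, hsum, hy, S.hu] with ν h1 h2 h3 h4 t ht J hJ
      rw [Finset.sum_congr rfl (fun i _ => by rw [h2 t i])]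
      have hpos : ∀ i, S.u ν i * (Sh ν i + t i) ^ S.e ν i i ≠ 0 := fun i =>
        mul_ne_zero (h4 i).1 (pow_ne_zero _ (h3 t ht i).ne')
      by_cases h0 : (0 : Fin 2) ∈ J
      · by_cases h1' : (1 : Fin 2) ∈ J
        · have hJu : J = Finset.univ := by
            ext i
            fin_cases i
            · simpa using h0
            · simpa using h1'
          rw [hJu, Fin.sum_univ_two]
          exact h1 t ht
        · have hJu : J = {0} := by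
            ext i
            fin_cases i
            · simpa using h0
            · simpa using h1'
          rw [hJu, Finset.sum_singleton]
          exact hpos 0
      · have hJu : J = {1} := by
          obtain ⟨i, hi⟩ := hJ
          have h1' : (1 : Fin 2) ∈ J := by
            fin_cases i
            · exact absurd hi h0
            · exact hi
          ext i
          fin_cases i
          · simpa using h0
          · simpa using h1'
        rw [hJu, Finset.sum_singleton]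
        exact hpos 1)
    r w z hr hrF hwF
    (by
      filter_upwards [hz, hsum] with ν h1 h2 t ht
      refine ⟨(h1 t ht).1, ?_⟩
      rw [Fin.sum_univ_two, h2 t 0, h2 t 1]
      exact (h1 t ht).2)
  have hO1t : ∀ᶠ ν in (Uf : Filter ℕ), Om1 ν ⊆ Om1 ν := Filter.Eventually.of_forall fun _ =>
    subset_rfl
  -- the heights of the coordinates are positive
  have hpos : ∀ j : Fin 2, ∀ᶠ ν in (Uf : Filter ℕ), 1 ≤ H ν (Pi.single j 1) := by
    intro j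
    rcases ev_or.1 (Filter.Eventually.of_forall (f := (Uf : Filter ℕ)) fun ν =>
      (Nat.eq_zero_or_pos (H ν (Pi.single j 1)))) with h | h
    · exfalso
      obtain ⟨Om3, hO3, hB3, h3⟩ := hcst (fun _ => Pi.single j 1) h Om1 hO1t hB1
      refine hnc j Om3 ?_ hB3 ?_
      · filter_upwards [hO3, hO1] with ν a b
        exact a.trans b
      · filter_upwards [h3] with ν h4 t ht t' ht'
        have h5 := h4 t ht t' ht'
        have e1 : ∀ s : Fin 2 → ℤ, ∏ j', ((Sh ν j' + s j' : ℤ) : ℚ) ^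
            (Pi.single j 1 : Fin 2 → ℤ) j' = ((Sh ν j + s j : ℤ) : ℚ) := by
          intro s
          rw [Finset.prod_eq_single j]
          · rw [Pi.single_eq_same, zpow_one]
          · intro j' _ hne
            rw [Pi.single_eq_of_ne hne, zpow_zero]
          · intro hcon
            exact absurd (Finset.mem_univ _) hcon
        rw [e1, e1] at h5
        have h6 : Sh ν j + t j = Sh ν j + t' j := by exact_mod_cast h5
        linarith
    · exact h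
  -- the exponent vector
  set av : ℕ → Fin 2 → ℤ := fun ν => fun j => (S.e ν 0 j : ℤ) - (S.e ν 1 j : ℤ) with hav
  obtain ⟨B, hB⟩ := N42.HK.dio 2 C
  -- bounded case
  have hbc : ¬ ∃ D : ℕ, ∀ᶠ ν in (Uf : Filter ℕ), S.M ν ≤ D := by
    intro hD
    obtain ⟨Om3, hO3, hB3, h3⟩ := hbdd hD
    have := (h3.and (hB3.one_lt.and (hO3.and (hO1.and hdist)))).exists
    obtain ⟨ν, h4, h5, h6, h7, h8⟩ := this
    obtain ⟨t, ht, t', ht', hne⟩ := Finset.one_lt_card.1 h5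
    exact hne (h8 t (h7 (h6 ht)) t' (h7 (h6 ht')) (h4 t ht t' ht'))
  have hMe : ∀ᶠ ν in (Uf : Filter ℕ), S.M ν = S.e ν 0 0 + S.e ν 1 1 := by
    filter_upwards [hdiag] with ν h
    unfold TD.M
    rw [Fin.sum_univ_two, Fin.sum_univ_two, Fin.sum_univ_two, h.1, h.2]
    ring
  -- one exponent bounded
  have hone : ∀ᶠ ν in (Uf : Filter ℕ), ∀ i i' : Fin 2, i ≠ i' →
      S.e ν i' i' ≤ C + S.e ν i i * C := by
    filter_upwards [hH, hdiag, hpos 0, hpos 1] with ν h1 h2 h3 h4 i i' hne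
    have hp : ∀ j : Fin 2, 1 ≤ H ν (Pi.single j 1) := by
      intro j; fin_cases j
      · exact h3
      · exact h4
    have e1 : (S.e ν i' i') • (Pi.single i' (1 : ℤ) : Fin 2 → ℤ) =
        (fun j => (S.e ν i' j : ℤ) - (S.e ν i j : ℤ)) + (S.e ν i i) • (Pi.single i (1 : ℤ) : Fin 2 → ℤ) := by
      funext j
      fin_cases i <;> fin_cases i' <;> fin_cases j <;>
        simp_all [Pi.single_apply]
    have e2 := h1.2.1 (S.e ν i' i') (Pi.single i' (1 : ℤ))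
    rw [e1] at e2
    have e3 := h1.1 (fun j => (S.e ν i' j : ℤ) - (S.e ν i j : ℤ))
      ((S.e ν i i) • (Pi.single i (1 : ℤ) : Fin 2 → ℤ))
    rw [h1.2.1 (S.e ν i i)] at e3
    have e4 := h1.2.2.2.2 i' i
    have e5 := h1.2.2.2.1 i
    have e6 := hp i'
    have e7 : S.e ν i' i' * 1 ≤ S.e ν i' i' * H ν (Pi.single i' 1) := Nat.mul_le_mul_left _ e6
    have e8 : S.e ν i i * H ν (Pi.single i 1) ≤ S.e ν i i * C := Nat.mul_le_mul_left _ e5
    omega
  have hbig01 : ∀ i : Fin 2, ∀ᶠ ν in (Uf : Filter ℕ), B < S.e ν i i := by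
    intro i
    rcases ev_or.1 (Filter.Eventually.of_forall (f := (Uf : Filter ℕ)) fun ν =>
      (le_or_gt (S.e ν i i) B)) with h | h
    · exfalso
      refine hbc ⟨B + (C + B * C), ?_⟩
      filter_upwards [h, hone, hMe] with ν h1 h2 h3
      rw [h3]
      have h6 : S.e ν i i * C ≤ B * C := Nat.mul_le_mul_right _ h1
      have h4 : ∀ i' : Fin 2, i' ≠ i → S.e ν i' i' ≤ C + B * C := fun i' hi' =>
        (h2 i i' (Ne.symm hi')).trans (by omega)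
      fin_cases i
      · have h5 := h4 1 (by simp)
        simp only [Fin.zero_eta] at h1
        omega
      · have h5 := h4 0 (by simp)
        simp only [Fin.mk_one] at h1
        omega
    · exact h
  have hex : ∀ᶠ ν in (Uf : Filter ℕ), ∃ a' : Fin 2 → ℤ, (∀ j, |a' j| ≤ (B : ℤ)) ∧
      H ν (av ν - a') = 0 := by
    filter_upwards [hH] with ν h1
    exact hB (H ν) h1.1 h1.2.1 h1.2.2.1 h1.2.2.2.1 (av ν) (h1.2.2.2.2 0 1)
  obtain ⟨a', ha'⟩ := hex.choice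
  obtain ⟨Om3, hO3, hB3, h3⟩ := hcst (fun ν => av ν - a' ν)
    (by filter_upwards [ha'] with ν h; exact h.2) Om1 hO1t hB1
  have := (h3.and (hB3.one_lt.and (hO3.and (hO1.and (ha'.and ((hbig01 0).and ((hbig01 1).and
    (hdiag.and (hy.and hcop))))))))).exists
  obtain ⟨ν, h4, h5, h6, h7, h8, h9, h10, h11, h12, h13⟩ := this
  obtain ⟨t, ht, t', ht', hne⟩ := Finset.one_lt_card.1 h5
  apply hne
  have k1 := h4 t ht t' ht'
  have c0 : ∃ i : ℕ, 1 ≤ i ∧ (av ν - a' ν) 0 = i := by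
    refine ⟨((av ν - a' ν) 0).toNat, ?_, ?_⟩
    · have q1 := (abs_le.1 (h8.1 0)).2
      have q2 : (av ν - a' ν) 0 = (S.e ν 0 0 : ℤ) - a' ν 0 := by
        simp [hav, h11.2]
      omega
    · have q1 := (abs_le.1 (h8.1 0)).2
      have q2 : (av ν - a' ν) 0 = (S.e ν 0 0 : ℤ) - a' ν 0 := by
        simp [hav, h11.2]
      omega
  have c1 : ∃ i : ℕ, 1 ≤ i ∧ (av ν - a' ν) 1 = -(i : ℤ) := by
    have q1 := (abs_le.1 (h8.1 1)).1
    have q2 : (av ν - a' ν) 1 = -(S.e ν 1 1 : ℤ) - a' ν 1 := by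
      simp [hav, h11.1]
    refine ⟨(-((av ν - a' ν) 1)).toNat, ?_, ?_⟩
    · omega
    · omega
  obtain ⟨i, hi, hci⟩ := c0
  obtain ⟨j, hj, hcj⟩ := c1
  rw [Fin.prod_univ_two, Fin.prod_univ_two, hci, hcj, zpow_natCast, zpow_natCast, zpow_neg,
    zpow_neg, zpow_natCast, zpow_natCast] at k1
  have p1 := h12 t (h7 (h6 ht))
  have p2 := h12 t' (h7 (h6 ht'))
  have n1 : ((Sh ν 1 + t 1 : ℤ) : ℚ) ^ j ≠ 0 := pow_ne_zero _ (by exact_mod_cast (p1 1).ne')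
  have n2 : ((Sh ν 1 + t' 1 : ℤ) : ℚ) ^ j ≠ 0 := pow_ne_zero _ (by exact_mod_cast (p2 1).ne')
  rw [← div_eq_mul_inv, ← div_eq_mul_inv, div_eq_div_iff n1 n2] at k1
  have k2 : (Sh ν 0 + t 0) ^ i * (Sh ν 1 + t' 1) ^ j =
      (Sh ν 0 + t' 0) ^ i * (Sh ν 1 + t 1) ^ j := by exact_mod_cast k1
  obtain ⟨e1, e2⟩ := coprime_pow_eq (p1 0) (p1 1) (p2 0) (p2 1) hi hj
    (h13 t (h7 (h6 ht))) (h13 t' (h7 (h6 ht'))) k2
  funext q
  fin_cases q
  · show t 0 = t' 0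
    linarith
  · show t 1 = t' 1
    linarith

end Pool.Agent.H8FC
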