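import Pool.Agent.H8FC.Quant

/-!
# Few third terms with bases in short intervals: the counting theorem
-/

set_option autoImplicit false

namespace Pool.Agent.H8FC

open Filter Pool.Agent.Y902.GN Pool.Agent.N741.HB

/-- the pair of bases, relative to the end points of the intervals -/
def pt (M₁ M₂ a b : ℕ) : Fin 2 → ℤ := ![(a : ℤ) - M₁, (b : ℤ) - M₂]

theorem pt_inj {M₁ M₂ a b a' b' : ℕ} (h : pt M₁ M₂ a b = pt M₁ M₂ a' b') : a = a' ∧ b = b' := by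
  have h0 := congrFun h 0
  have h1 := congrFun h 1
  simp only [pt, Matrix.cons_val_zero, Matrix.cons_val_one] at h0 h1
  constructor <;> omega

/-- the exponents of the two terms -/
def ex (x y : ℕ) (i j : Fin 2) : ℕ := if i = 0 then (if j = 0 then x else 0) else
  (if j = 0 then 0 else y)

theorem few_vals (ε : ℝ) (hε : 0 < ε) : ∃ (R : ℕ) (δ : ℝ), 0 < δ ∧ ∃ N₀ : ℕ, ∀ N : ℕ, N₀ ≤ N →
    ∀ (M₁ M₂ : ℕ) (α β γ : ℤ), α ≠ 0 → β ≠ 0 → γ ≠ 0 → |(α : ℝ)| ≤ Real.exp ((N : ℝ) ^ δ) →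
      |(β : ℝ)| ≤ Real.exp ((N : ℝ) ^ δ) → |(γ : ℝ)| ≤ Real.exp ((N : ℝ) ^ δ) →
      ∀ T : Finset ℕ, (∀ w ∈ T, ∃ a x b y c k : ℕ,
        Sol M₁ M₂ N R (Real.exp ((N : ℝ) ^ δ)) α β γ a x b y c k ∧ w = c ^ k) →
        (T.card : ℝ) ≤ (N : ℝ) ^ ε := by
  classical
  by_contra hcon
  push Not at hcon
  have hseq := fun ν : ℕ => hcon ν (1 / ((ν : ℝ) + 1)) (by positivity) ν
  choose Y hYν M₁ M₂ α β γ hα hβ hγ hαd hβd hγd T hT hbad using hseq
  have hY : ∀ m : ℕ, ∀ᶠ ν in (Uf : Filter ℕ), m ≤ Y ν := fun m => by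
    filter_upwards [ev_ge m] with ν h
    exact h.trans (hYν ν)
  have hTb : Big Y T := big_of_card hε (hY 2) (Filter.Eventually.of_forall hbad)
  -- sizes
  obtain ⟨F, hF⟩ : ∃ F : ℕ → ℕ, ∀ ν, F ν =
    ⌊((2 : ℕ) : ℝ) * (Y ν : ℝ) ^ (1 / ((ν : ℝ) + 1))⌋₊ + 1 := ⟨_, fun _ => rfl⟩
  have fewF : Few Y F := (few_rpow hY 2).mono (Filter.Eventually.of_forall fun ν => (hF ν).le)
  have hF1 : ∀ ν, 1 ≤ F ν := fun ν => by rw [hF]; omega
  have hE : ∀ ν, Real.exp ((Y ν : ℝ) ^ (1 / ((ν : ℝ) + 1))) ≤ 2 ^ F ν := fun ν => by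
    rw [hF]
    exact exp_le_two_pow (by positivity)
  have hEF : ∀ ν, Real.exp ((Y ν : ℝ) ^ (1 / ((ν : ℝ) + 1))) ≤ Real.exp (F ν) := fun ν => by
    apply Real.exp_le_exp.2
    rw [hF]
    have h1 := Nat.lt_floor_add_one (((2 : ℕ) : ℝ) * (Y ν : ℝ) ^ (1 / ((ν : ℝ) + 1)))
    have h2 : (0 : ℝ) ≤ (Y ν : ℝ) ^ (1 / ((ν : ℝ) + 1)) := by positivity
    push_cast at h1 ⊢
    linarith
  -- the terms different from one
  have hT' : Big Y (fun ν => (T ν).erase 1) := by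
    rcases hTb.or hY (B := fun ν => (T ν).erase 1) (C := fun _ => ({1} : Finset ℕ))
      (Filter.Eventually.of_forall fun ν t ht => by
        by_cases h : t = 1
        · exact Finset.mem_union_right _ (Finset.mem_singleton.2 h)
        · exact Finset.mem_union_left _ (Finset.mem_erase.2 ⟨h, ht⟩)) with h | h
    · exact h
    · exfalso
      obtain ⟨ν, h1⟩ := h.one_lt.exists
      rw [Finset.card_singleton] at h1
      omega
  have hex : ∀ ν w, ∃ s : ℕ × ℕ × ℕ × ℕ × ℕ × ℕ, w ∈ (T ν).erase 1 →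
      Sol (M₁ ν) (M₂ ν) (Y ν) ν (Real.exp ((Y ν : ℝ) ^ (1 / ((ν : ℝ) + 1)))) (α ν) (β ν) (γ ν)
        s.1 s.2.1 s.2.2.1 s.2.2.2.1 s.2.2.2.2.1 s.2.2.2.2.2 ∧ w = s.2.2.2.2.1 ^ s.2.2.2.2.2 ∧
        s.2.1 ≤ F ν ∧ s.2.2.2.1 ≤ F ν ∧ s.2.2.2.2.2 ≤ 2 * F ν + 1 ∧ w ≤ 2 ^ (2 * F ν + 1) := by
    intro ν w
    by_cases hw : w ∈ (T ν).erase 1
    · obtain ⟨hw1, hw2⟩ := Finset.mem_erase.1 hw
      obtain ⟨a, x, b, y, c, k, h1, h2⟩ := hT ν w hw2
      have hc1 : c ≠ 1 := by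
        rintro rfl
        rw [one_pow] at h2
        exact hw1 h2
      obtain ⟨k1, k2, x', y', k3, k4, k5, k6, k7, k8, k9⟩ :=
        h1.small (hE ν) (hαd ν) (hβd ν) (hγ ν) (hF1 ν) hc1
      exact ⟨(a, x', b, y', c, k), fun _ => ⟨k9, h2, k6, k8, k2, by rw [h2]; exact k1⟩⟩
    · exact ⟨(0, 0, 0, 0, 0, 0), fun h => absurd h hw⟩
  choose sol hsol using hex
  -- constant exponents
  obtain ⟨T2, hT2, hT2b, hT2c⟩ := hT'.fiber
    (fun ν w => ((sol ν w).2.1, (sol ν w).2.2.2.1, (sol ν w).2.2.2.2.2))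
    (fun ν => (Finset.range (F ν + 1)) ×ˢ (Finset.range (F ν + 1)) ×ˢ
      (Finset.range (2 * F ν + 1 + 1)))
    (Filter.Eventually.of_forall fun ν w hw => by
      obtain ⟨h1, h2, h3, h4, h5, h6⟩ := hsol ν w hw
      simp only [Finset.mem_product, Finset.mem_range]
      exact ⟨by omega, by omega, by omega⟩)
    (by
      have f1 : Few Y (fun ν => F ν + 1) := fewF.add hY (Few.const hY 1)
      have f2 : Few Y (fun ν => 2 * F ν + 1 + 1) :=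
        ((Few.const hY 2).mul fewF).add hY (Few.const hY 1) |>.add hY (Few.const hY 1)
      refine (f1.mul (f1.mul f2)).mono (Filter.Eventually.of_forall fun ν => ?_)
      rw [Finset.card_product, Finset.card_product, Finset.card_range, Finset.card_range])
  have hq : ∀ᶠ ν in (Uf : Filter ℕ), ∃ q : ℕ × ℕ × ℕ, (∀ w ∈ T2 ν,
      (sol ν w).2.1 = q.1 ∧ (sol ν w).2.2.2.1 = q.2.1 ∧ (sol ν w).2.2.2.2.2 = q.2.2) ∧
      (1 ≤ q.1 ∧ q.1 ≤ F ν) ∧ (1 ≤ q.2.1 ∧ q.2.1 ≤ F ν) ∧ (ν ≤ q.2.2 ∧ q.2.2 ≤ 2 * F ν + 1) := by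
    filter_upwards [hT2, hT2c, hT2b.nonempty] with ν h1 h2 h3
    obtain ⟨w₀, hw₀⟩ := h3
    obtain ⟨k1, k2, k3, k4, k5, k6⟩ := hsol ν w₀ (h1 hw₀)
    refine ⟨((sol ν w₀).2.1, (sol ν w₀).2.2.2.1, (sol ν w₀).2.2.2.2.2), fun w hw => ?_,
      ⟨k1.hx, k3⟩, ⟨k1.hy, k4⟩, ⟨k1.hk, k5⟩⟩
    have h4 := h2 w hw w₀ hw₀
    simp only [Prod.mk.injEq] at h4
    exact h4
  obtain ⟨q, hq⟩ := hq.choice
  -- the points
  obtain ⟨g, hg⟩ : ∃ g : ℕ → ℕ → Fin 2 → ℤ, ∀ ν w, g ν w =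
    pt (M₁ ν) (M₂ ν) (sol ν w).1 (sol ν w).2.2.1 := ⟨_, fun _ _ => rfl⟩
  have hval : ∀ᶠ ν in (Uf : Filter ℕ), ∀ w ∈ T2 ν,
      α ν * ((sol ν w).1 : ℤ) ^ (q ν).1 + β ν * ((sol ν w).2.2.1 : ℤ) ^ (q ν).2.1 =
        γ ν * (w : ℤ) ∧ w = (sol ν w).2.2.2.2.1 ^ (q ν).2.2 := by
    filter_upwards [hq, hT2] with ν h1 h2 w hw
    obtain ⟨k1, k2, k3⟩ := h1.1 w hw
    obtain ⟨l1, l2, -⟩ := hsol ν w (h2 hw)
    have e1 := l1.eq
    rw [k1, k2, k3] at e1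
    rw [k3] at l2
    refine ⟨?_, l2⟩
    rw [e1]
    conv_rhs => rw [l2]
    push_cast
    rfl
  have hginj : ∀ᶠ ν in (Uf : Filter ℕ), Set.InjOn (g ν) (T2 ν) := by
    filter_upwards [hval] with ν h1 w hw w' hw' he
    rw [hg, hg] at he
    obtain ⟨e1, e2⟩ := pt_inj he
    have e3 := (h1 w hw).1
    have e4 := (h1 w' hw').1
    rw [e1, e2, e4] at e3
    have := mul_left_cancel₀ (hγ ν) e3
    exact_mod_cast this.symm
  have hOm : Big Y (fun ν => (T2 ν).image (g ν)) := big_image hT2b g hginj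
  obtain ⟨Om, hOmd⟩ : ∃ Om : ℕ → Finset (Fin 2 → ℤ), ∀ ν, Om ν = (T2 ν).image (g ν) :=
    ⟨_, fun _ => rfl⟩
  have hOmB : Big Y Om := by
    have : Om = fun ν => (T2 ν).image (g ν) := funext hOmd
    rw [this]; exact hOm
  -- the inverse map
  have hinv : ∀ ν (t : Fin 2 → ℤ), ∃ w, t ∈ Om ν → (w ∈ T2 ν ∧ g ν w = t) := by
    intro ν t
    by_cases ht : t ∈ Om ν
    · rw [hOmd] at ht
      obtain ⟨w, hw, he⟩ := Finset.mem_image.1 ht
      exact ⟨w, fun _ => ⟨hw, he⟩⟩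
    · exact ⟨0, fun h => absurd h ht⟩
  choose W hW using hinv
  have hcoord : ∀ ν, ∀ t ∈ Om ν, t 0 = ((sol ν (W ν t)).1 : ℤ) - M₁ ν ∧
      t 1 = ((sol ν (W ν t)).2.2.1 : ℤ) - M₂ ν := by
    intro ν t ht
    have h1 := (hW ν t ht).2
    rw [hg] at h1
    have h2 := congrFun h1 0
    have h3 := congrFun h1 1
    simp only [pt, Matrix.cons_val_zero, Matrix.cons_val_one] at h2 h3
    exact ⟨h2.symm, h3.symm⟩
  have hSol : ∀ᶠ ν in (Uf : Filter ℕ), ∀ t ∈ Om ν,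
      Sol (M₁ ν) (M₂ ν) (Y ν) ν (Real.exp ((Y ν : ℝ) ^ (1 / ((ν : ℝ) + 1)))) (α ν) (β ν) (γ ν)
        (sol ν (W ν t)).1 (q ν).1 (sol ν (W ν t)).2.2.1 (q ν).2.1 (sol ν (W ν t)).2.2.2.2.1
        (q ν).2.2 := by
    filter_upwards [hq, hT2] with ν h1 h2 t ht
    have h3 := (hW ν t ht).1
    obtain ⟨k1, k2, k3⟩ := h1.1 _ h3
    have l1 := (hsol ν _ (h2 h3)).1
    rw [k1, k2, k3] at l1
    exact l1
  -- the shifts
  obtain ⟨Sh, hSh⟩ : ∃ Sh : ℕ → Fin 2 → ℤ, ∀ ν, Sh ν = ![(M₁ ν : ℤ), (M₂ ν : ℤ)] :=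
    ⟨_, fun _ => rfl⟩
  have hSh0 : ∀ ν, Sh ν 0 = M₁ ν := fun ν => by rw [hSh]; rfl
  have hSh1 : ∀ ν, Sh ν 1 = M₂ ν := fun ν => by rw [hSh]; rfl
  have hp0 : ∀ ν, ∀ t ∈ Om ν, Sh ν 0 + t 0 = ((sol ν (W ν t)).1 : ℤ) := fun ν t ht => by
    rw [hSh0, (hcoord ν t ht).1]; ring
  have hp1 : ∀ ν, ∀ t ∈ Om ν, Sh ν 1 + t 1 = ((sol ν (W ν t)).2.2.1 : ℤ) := fun ν t ht => by
    rw [hSh1, (hcoord ν t ht).2]; ring
  -- the system of terms
  have hpowF : ∀ (ν n e : ℕ), 1 ≤ e → (n : ℝ) ^ e ≤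
      Real.exp ((Y ν : ℝ) ^ (1 / ((ν : ℝ) + 1))) → n ≤ 2 ^ F ν := by
    intro ν n e he h
    have h1 : (n : ℝ) ^ e ≤ 2 ^ F ν := h.trans (hE ν)
    have h2 : n ^ e ≤ 2 ^ F ν := by exact_mod_cast h1
    exact (Nat.le_self_pow (by omega) n).trans h2
  have hintF : ∀ (ν : ℕ) (s : ℤ), |(s : ℝ)| ≤ Real.exp ((Y ν : ℝ) ^ (1 / ((ν : ℝ) + 1))) →
      |s| ≤ 2 ^ F ν := by
    intro ν s h
    have h1 : |(s : ℝ)| ≤ 2 ^ F ν := h.trans (hE ν)
    exact_mod_cast h1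
  have fewq0 : Few Y (fun ν => (q ν).1) := fewF.mono (by
    filter_upwards [hq] with ν h; exact h.2.1.2)
  have fewq1 : Few Y (fun ν => (q ν).2.1) := fewF.mono (by
    filter_upwards [hq] with ν h; exact h.2.2.1.2)
  have few2F : Few Y (fun ν => 2 * F ν + 1) :=
    ((Few.const hY 2).mul fewF).add hY (Few.const hY 1)
  have fewq2 : Few Y (fun ν => (q ν).2.2) := few2F.mono (by
    filter_upwards [hq] with ν h; exact h.2.2.2.2)
  have hsumex : ∀ x y : ℕ, ∑ i, ∑ j, ex x y i j = x + y := by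
    intro x y
    simp [Fin.sum_univ_two, ex]
  obtain ⟨S, hSe, hSu⟩ : ∃ S : TD Y 2 2, (∀ ν, S.e ν = ex (q ν).1 (q ν).2.1) ∧
      (∀ ν, S.u ν = fun i => (γ ν) ^ ((q ν).2.2 - 1) * (if i = 0 then α ν else β ν)) := by
    refine ⟨⟨fun ν => ex (q ν).1 (q ν).2.1,
      fun ν i => (γ ν) ^ ((q ν).2.2 - 1) * (if i = 0 then α ν else β ν),
      fun ν => F ν * ((q ν).2.2 - 1) + F ν, ?_, ?_, ?_⟩, fun _ => rfl, fun _ => rfl⟩
    · have := fewq0.add hY fewq1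
      intro c
      filter_upwards [this c] with ν h
      rw [hsumex]
      exact h
    · refine Filter.Eventually.of_forall fun ν i => ⟨?_, ?_⟩
      · refine mul_ne_zero (pow_ne_zero _ (hγ ν)) ?_
        split_ifs
        · exact hα ν
        · exact hβ ν
      · rw [abs_mul, abs_pow, pow_add, pow_mul]
        have h1 : |if i = 0 then α ν else β ν| ≤ 2 ^ F ν := by
          split_ifs
          · exact hintF ν _ (hαd ν)
          · exact hintF ν _ (hβd ν)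
        exact mul_le_mul (pow_le_pow_left₀ (abs_nonneg _) (hintF ν _ (hγd ν)) _) h1
          (abs_nonneg _) (by positivity)
    · have f1 : Few Y (fun ν => F ν * (q ν).2.2 + F ν) := (fewF.mul fewq2).add hY fewF
      refine f1.mono (Filter.Eventually.of_forall fun ν => ?_)
      have := Nat.mul_le_mul_left (F ν) (Nat.sub_le (q ν).2.2 1)
      omega
  have hu0 : ∀ ν, S.u ν 0 = (γ ν) ^ ((q ν).2.2 - 1) * α ν := fun ν => by rw [hSu]; simp
  have hu1 : ∀ ν, S.u ν 1 = (γ ν) ^ ((q ν).2.2 - 1) * β ν := fun ν => by rw [hSu]; simp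
  have he00 : ∀ ν, S.e ν 0 0 = (q ν).1 := fun ν => by rw [hSe]; simp [ex]
  have he11 : ∀ ν, S.e ν 1 1 = (q ν).2.1 := fun ν => by rw [hSe]; simp [ex]
  have hrk : ∀ m : ℕ, ∀ᶠ ν in (Uf : Filter ℕ), m ≤ (q ν).2.2 := fun m => by
    filter_upwards [hq, ev_ge m] with ν h1 h2
    exact h2.trans h1.2.2.2.1
  have heq : ∀ᶠ ν in (Uf : Filter ℕ), ∀ t ∈ Om ν,
      S.u ν 0 * (Sh ν 0 + t 0) ^ S.e ν 0 0 + S.u ν 1 * (Sh ν 1 + t 1) ^ S.e ν 1 1 =
        (γ ν * ((sol ν (W ν t)).2.2.2.2.1 : ℤ)) ^ (q ν).2.2 := by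
    filter_upwards [hSol, hrk 1] with ν h1 h2 t ht
    have e1 := (h1 t ht).eq
    rw [hp0 ν t ht, hp1 ν t ht, hu0, hu1, he00, he11, mul_pow]
    have e2 : (γ ν) ^ (q ν).2.2 = (γ ν) ^ ((q ν).2.2 - 1) * γ ν := by
      rw [← pow_succ]
      congr 1
      omega
    rw [e2, mul_assoc, mul_assoc, ← mul_add, e1]
    ring
  -- coordinates are not constant on large sets
  refine up hY hOmB ?_ S Sh (ws := F) fewF ?_ ?_ ?_ ?_ ?_ (fun ν => (q ν).2.2)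
    (fun ν => F ν + (2 * F ν + 1)) (fun ν t => γ ν * ((sol ν (W ν t)).2.2.2.2.1 : ℤ)) hrk fewq2
    (fewF.add hY few2F) ?_ ?_ ?_
  · -- Bdd
    filter_upwards [hSol] with ν h1 t ht j
    have h2 := h1 t ht
    obtain ⟨c1, c2⟩ := hcoord ν t ht
    have k1 := h2.ha
    have k2 := h2.hb
    fin_cases j
    · show t 0 ≠ 0 ∧ |t 0| ≤ (Y ν : ℤ)
      rw [c1]
      refine ⟨by omega, ?_⟩
      rw [abs_of_nonneg (by omega)]
      omega
    · show t 1 ≠ 0 ∧ |t 1| ≤ (Y ν : ℤ)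
      rw [c2]
      refine ⟨by omega, ?_⟩
      rw [abs_of_nonneg (by omega)]
      omega
  · -- the shifts are of exponential size
    filter_upwards [hSol, hOmB.nonempty] with ν h1 h2 j
    obtain ⟨t, ht⟩ := h2
    have h3 := h1 t ht
    have k1 := hpowF ν _ _ h3.hx h3.hax
    have k2 := hpowF ν _ _ h3.hy h3.hby
    have k3 := h3.ha.1
    have k4 := h3.hb.1
    fin_cases j
    · show |Sh ν 0| ≤ 2 ^ F ν
      rw [hSh0, Nat.abs_cast]
      exact_mod_cast k3.le.trans k1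
    · show |Sh ν 1| ≤ 2 ^ F ν
      rw [hSh1, Nat.abs_cast]
      exact_mod_cast k4.le.trans k2
  · -- positivity
    filter_upwards [hSol] with ν h1 t ht j
    have h2 := h1 t ht
    fin_cases j
    · show 0 < Sh ν 0 + t 0
      rw [hp0 ν t ht]
      have := h2.ha.1
      omega
    · show 0 < Sh ν 1 + t 1
      rw [hp1 ν t ht]
      have := h2.hb.1
      omega
  · -- coprimality
    filter_upwards [hSol] with ν h1 t ht
    rw [hp0 ν t ht, hp1 ν t ht]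
    exact Nat.isCoprime_iff_coprime.2 (h1 t ht).cop
  · refine Filter.Eventually.of_forall fun ν => ?_
    rw [hSe]
    simp [ex]
  · -- the sum does not vanish
    filter_upwards [hSol, heq] with ν h1 h2 t ht
    rw [h2 t ht]
    refine pow_ne_zero _ (mul_ne_zero (hγ ν) ?_)
    have := (h1 t ht).hc
    omega
  · -- the power
    filter_upwards [hval, heq, hT2, hrk 1] with ν h1 h2 h3 h5 t ht
    refine ⟨?_, h2 t ht⟩
    have h4 := hsol ν (W ν t) (h3 (hW ν t ht).1)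
    have k1 : (sol ν (W ν t)).2.2.2.2.1 ≤ 2 ^ (2 * F ν + 1) := by
      refine le_trans ?_ h4.2.2.2.2.2
      have h6 := (h1 _ (hW ν t ht).1).2
      conv_rhs => rw [h6]
      exact Nat.le_self_pow (by omega) _
    rw [abs_mul, Nat.abs_cast, pow_add]
    exact mul_le_mul (hintF ν _ (hγd ν)) (by exact_mod_cast k1) (by positivity) (by positivity)
  · -- distinct values
    filter_upwards [hval, hrk 1] with ν h1 h2 t ht t' ht' he
    have k1 := (h1 _ (hW ν t ht).1).2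
    have k2 := (h1 _ (hW ν t' ht').1).2
    rw [mul_pow, mul_pow] at he
    have e1 := mul_left_cancel₀ (pow_ne_zero _ (hγ ν)) he
    have e2 : W ν t = W ν t' := by
      rw [k1, k2]
      exact_mod_cast e1
    rw [← (hW ν t ht).2, ← (hW ν t' ht').2, e2]
  · -- coordinates
    intro j Om' hO' hB' hc
    obtain ⟨τ, hτ⟩ := hB'.nonempty.choice
    have few2 : Few Y (fun ν => 2 * F ν) := (Few.const hY 2).mul fewF
    have hpr : ∀ (ν : ℕ) (s : ℤ) (n e : ℕ),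
        |(s : ℝ)| ≤ Real.exp ((Y ν : ℝ) ^ (1 / ((ν : ℝ) + 1))) →
        (n : ℝ) ^ e ≤ Real.exp ((Y ν : ℝ) ^ (1 / ((ν : ℝ) + 1))) →
        |((s * (n : ℤ) ^ e : ℤ) : ℝ)| ≤ Real.exp ((2 * F ν : ℕ) : ℝ) := by
      intro ν s n e h1 h2
      push_cast
      rw [abs_mul, abs_of_nonneg (show (0 : ℝ) ≤ (n : ℝ) ^ e by positivity), two_mul, Real.exp_add]
      exact mul_le_mul (h1.trans (hEF ν)) (h2.trans (hEF ν)) (by positivity) (by positivity)
    have h2F : ∀ ν, Real.exp ((Y ν : ℝ) ^ (1 / ((ν : ℝ) + 1))) ≤ Real.exp ((2 * F ν : ℕ) : ℝ) := by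
      intro ν
      refine (hEF ν).trans (Real.exp_le_exp.2 ?_)
      push_cast
      have : (0 : ℝ) ≤ F ν := Nat.cast_nonneg _
      linarith
    fin_cases j
    · have hc' : ∀ᶠ ν in (Uf : Filter ℕ), ∀ t ∈ Om' ν,
          (sol ν (W ν t)).1 = (sol ν (W ν (τ ν))).1 := by
        filter_upwards [hc, hO', hτ] with ν h1 h2 h3 t ht
        have e1 : t 0 = τ ν 0 := h1 t ht (τ ν) h3
        have e2 := hp0 ν t (h2 ht)
        have e3 := hp0 ν (τ ν) (h2 h3)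
        rw [e1, e3] at e2
        exact_mod_cast e2.symm
      refine not_few hY hB' M₂ (fun ν => α ν * ((sol ν (W ν (τ ν))).1 : ℤ) ^ (q ν).1) β γ few2 ?_
        (fun ν => (q ν).2.2) hrk (fun ν t => (sol ν (W ν t)).2.2.1) ?_ ?_
      · filter_upwards [hSol, hO', hτ] with ν h1 h2 h3
        have h4 := h1 _ (h2 h3)
        refine ⟨mul_ne_zero (hα ν) (pow_ne_zero _ ?_), hβ ν, hγ ν, hpr ν _ _ _ (hαd ν) h4.hax,
          (hβd ν).trans (h2F ν), (hγd ν).trans (h2F ν)⟩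
        have := h4.ha.1
        omega
      · filter_upwards [hc, hO'] with ν h1 h2 t ht t' ht' he
        have e0 : t 0 = t' 0 := h1 t ht t' ht'
        have e1 := (hcoord ν t (h2 ht)).2
        have e2 := (hcoord ν t' (h2 ht')).2
        have he' : (sol ν (W ν t)).2.2.1 = (sol ν (W ν t')).2.2.1 := he
        funext i
        fin_cases i
        · exact e0
        · show t 1 = t' 1
          rw [e1, e2, he']
      · filter_upwards [hSol, hO', hc'] with ν h1 h2 h3 t ht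
        have h4 := h1 t (h2 ht)
        refine ⟨h4.hb.1, h4.hb.2, (q ν).2.1, (q ν).2.2, (sol ν (W ν t)).2.2.2.2.1, h4.hy, le_rfl,
          h4.hby.trans (h2F ν), ?_⟩
        rw [← h3 t ht, add_comm, h4.eq, abs_mul, abs_of_nonneg (by positivity :
          (0 : ℤ) ≤ ((sol ν (W ν t)).2.2.2.2.1 : ℤ) ^ (q ν).2.2)]
    · have hc' : ∀ᶠ ν in (Uf : Filter ℕ), ∀ t ∈ Om' ν,
          (sol ν (W ν t)).2.2.1 = (sol ν (W ν (τ ν))).2.2.1 := by
        filter_upwards [hc, hO', hτ] with ν h1 h2 h3 t ht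
        have e1 : t 1 = τ ν 1 := h1 t ht (τ ν) h3
        have e2 := hp1 ν t (h2 ht)
        have e3 := hp1 ν (τ ν) (h2 h3)
        rw [e1, e3] at e2
        exact_mod_cast e2.symm
      refine not_few hY hB' M₁ (fun ν => β ν * ((sol ν (W ν (τ ν))).2.2.1 : ℤ) ^ (q ν).2.1) α γ
        few2 ?_ (fun ν => (q ν).2.2) hrk (fun ν t => (sol ν (W ν t)).1) ?_ ?_
      · filter_upwards [hSol, hO', hτ] with ν h1 h2 h3
        have h4 := h1 _ (h2 h3)
        refine ⟨mul_ne_zero (hβ ν) (pow_ne_zero _ ?_), hα ν, hγ ν, hpr ν _ _ _ (hβd ν) h4.hby,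
          (hαd ν).trans (h2F ν), (hγd ν).trans (h2F ν)⟩
        have := h4.hb.1
        omega
      · filter_upwards [hc, hO'] with ν h1 h2 t ht t' ht' he
        have e0 : t 1 = t' 1 := h1 t ht t' ht'
        have e1 := (hcoord ν t (h2 ht)).1
        have e2 := (hcoord ν t' (h2 ht')).1
        have he' : (sol ν (W ν t)).1 = (sol ν (W ν t')).1 := he
        funext i
        fin_cases i
        · show t 0 = t' 0
          rw [e1, e2, he']
        · exact e0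
      · filter_upwards [hSol, hO', hc'] with ν h1 h2 h3 t ht
        have h4 := h1 t (h2 ht)
        refine ⟨h4.ha.1, h4.ha.2, (q ν).1, (q ν).2.2, (sol ν (W ν t)).2.2.2.2.1, h4.hx, le_rfl,
          h4.hax.trans (h2F ν), ?_⟩
        rw [← h3 t ht, h4.eq, abs_mul, abs_of_nonneg (by positivity :
          (0 : ℤ) ≤ ((sol ν (W ν t)).2.2.2.2.1 : ℤ) ^ (q ν).2.2)]

end Pool.Agent.H8FC
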